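import Pool.Agent.U34.BW.Main

/-!
# Value distribution in dimension `d`, and equidistribution of the mass on all measurable sets
-/

set_option autoImplicit false

open MeasureTheory Finset Filter Topology ProbabilityTheory
open scoped BoundedContinuousFunction

namespace Pool.Agent.U34.BW

variable {X : Type*} [MeasurableSpace X] {μ : Measure X}

/-- **Gaussian value distribution for small perturbations, dimension `d`.** -/
theorem value_d [IsProbabilityMeasure μ] [MeasurableSpace.CountablyGenerated X] {φ : ℕ → X → ℝ}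
    {om : ℕ → ℝ} {d : ℕ} (hd : 2 ≤ d) {θ σ ε : ℝ}
    (hθ0 : 0 ≤ θ) (hθ1 : θ < 1) (hσ0 : 0 ≤ σ) (hσ : 1 - d * (1 - θ) / 2 < σ) (hε : 0 < ε)
    (hmono : Monotone om) (h0 : 0 ≤ om 0) (h : WeylSystem μ φ (fun i => om i ^ d) θ) :
    ∃ (k u : ℕ → ℕ → ℝ) (I : ℕ → Finset ℕ) (lam' : ℕ → ℝ),
      Perturb (fun i => om i ^ 2) ε σ k u I lam' ∧
      ∀ e : ℕ → ℝ, (∀ j, e j = 1 ∨ e j = -1) → ∀ A : Set X, MeasurableSet A → ∀ g : ℝ →ᵇ ℝ,
        Tendsto (fun j => ∫ x in A, g (e j * ∑ i ∈ I j, u j i * φ i x) ∂μ) atTop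
          (𝓝 (μ.real A * ∫ y, g y ∂(gaussianReal 0 1))) := by
  obtain ⟨κ, C, hκ, hlam⟩ := h.weyl
  have hC0 : 0 ≤ C := by
    have := (abs_nonneg _).trans (hlam 0)
    simpa using this
  have hpos : ∀ i, 0 ≤ om i := fun i => h0.trans (hmono (Nat.zero_le i))
  obtain ⟨σ', ε', hθσ, hε', hsq⟩ := sq_close hd hθ0 hε hσ0 hσ
  obtain ⟨K, hm, hR, -, hsp'⟩ := exists_blk h.mono h.nonneg hκ hC0 hθ0 hθ1 hθσ hε' hlam
  have hsp : ∀ n, ∀ i ∈ K.blk n, |om i ^ 2 - om (K.b n) ^ 2| ≤
      ε / 4 * (1 + om (K.b n) ^ 2) ^ σ := by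
    intro n i hi
    have hle : om (K.b n) ≤ om i := hmono (Finset.mem_Ico.1 hi).1
    have h1 := hsq (om i) (om (K.b n)) (hpos _) hle ((le_abs_self _).trans (hsp' n i hi))
    rw [abs_of_nonneg (sub_nonneg.2 (pow_le_pow_left₀ (hpos _) hle 2))]
    exact h1
  have hobs := obs_value hθ0 h hm hR
  obtain ⟨𝒜, hc, hd⟩ := MeasureTheory.exists_countable_measureDense μ
  have hne : 𝒜.Nonempty := by
    obtain ⟨B, hB, -⟩ := hd.approx Set.univ MeasurableSet.univ (measure_ne_top μ _) 1 one_pos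
    exact ⟨B, hB⟩
  obtain ⟨E, hE⟩ := hc.exists_eq_range hne
  classical
  set ν : ℕ → Measure X := fun r => if μ (E r) = 0 then μ else ProbabilityTheory.cond μ (E r)
    with hν
  have hprob : ∀ r, IsProbabilityMeasure (ν r) := by
    intro r
    simp only [hν]
    split_ifs with h0
    · infer_instance
    · exact ProbabilityTheory.cond_isProbabilityMeasure h0
  have hEm : ∀ r, MeasurableSet (E r) := fun r => hd.measurable _ (by rw [hE]; exact ⟨r, rfl⟩)
  obtain ⟨s, hs⟩ := fields ν K hm (Φ := fun _ _ i => φ i)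
    (C := fun r => if μ (E r) = 0 then 1 else (μ.real (E r))⁻¹ * 1) (ρ := fun _ _ => 1) (by
      intro r
      simp only [hν]
      split_ifs with h0
      · exact hobs
      · exact hobs.cond (hEm r) h0)
  refine ⟨_, _, _, _, perturb (fun i j hij => pow_le_pow_left₀ (hpos i) (hmono hij) 2)
    (sq_nonneg _) hε hσ0 K hsp s, ?_⟩
  intro e he A hA g
  have hmeas : ∀ j, AEMeasurable (fun x => e j * ∑ i ∈ K.blk (K.num j), U K s j i * φ i x) μ :=
    fun j => (mix_mem hobs s j 0).1.aemeasurable.const_mul _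
  have hm' : |∫ y, g y ∂(gaussianReal 0 1)| ≤ ‖g‖ := by
    rw [← Real.norm_eq_abs]
    have := norm_integral_le_of_norm_le_const (μ := gaussianReal 0 1)
      (Eventually.of_forall fun y => g.norm_coe_le_norm y)
    simpa using this
  refine all_sets hmeas hd g _ hm' (fun B hB => ?_) hA
  rw [hE] at hB
  obtain ⟨r, rfl⟩ := hB
  by_cases h0 : μ (E r) = 0
  · have e1 : μ.real (E r) = 0 := by rw [Measure.real, h0]; rfl
    rw [e1, zero_mul]
    refine tendsto_const_nhds.congr fun j => ?_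
    rw [Measure.restrict_eq_zero.2 h0, integral_zero_measure]
  have hνr : ν r = ProbabilityTheory.cond μ (E r) := by simp only [hν]; rw [if_neg h0]
  have hch : ∀ (c : Bool) (t : ℝ), Tendsto (fun j => ∫ x, Real.cos (t *
      (∑ i ∈ K.blk (K.num j), U K s j i * φ i x) + ph c) ∂(ProbabilityTheory.cond μ (E r))) atTop
      (𝓝 (Real.cos (ph c) * Real.exp (-(t ^ 2 / 2)))) := by
    intro c t
    have h1 := hs r 1 (fun _ => t) c
    simp only [Finset.univ_unique, Finset.sum_singleton, mul_one] at h1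
    rw [← sq, hνr] at h1
    exact h1
  have hpr : IsProbabilityMeasure (ProbabilityTheory.cond μ (E r)) :=
    ProbabilityTheory.cond_isProbabilityMeasure h0
  have hmeas' : ∀ j, AEMeasurable (fun x => e j * ∑ i ∈ K.blk (K.num j), U K s j i * φ i x)
      (ProbabilityTheory.cond μ (E r)) := fun j =>
    (hmeas j).mono_ac ProbabilityTheory.cond_absolutelyContinuous
  have hlevy := levy (μ := ProbabilityTheory.cond μ (E r)) hmeas' (fun t => by
    have h2 := hch false t
    simp only [ph, Bool.false_eq_true, if_false, Real.cos_zero, one_mul, add_zero] at h2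
    refine h2.congr fun j => ?_
    refine integral_congr_ae (Eventually.of_forall fun x => ?_)
    show Real.cos (t * ∑ i ∈ K.blk (K.num j), U K s j i * φ i x) =
      Real.cos (t * (e j * ∑ i ∈ K.blk (K.num j), U K s j i * φ i x))
    rcases he j with h3 | h3
    · rw [h3, one_mul]
    · rw [h3, neg_one_mul, mul_neg, Real.cos_neg]) (fun t => by
    have h2 := hch true t
    simp only [ph, if_true, Real.cos_neg, Real.cos_pi_div_two, zero_mul] at h2
    rw [tendsto_zero_iff_norm_tendsto_zero] at h2 ⊢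
    refine h2.congr fun j => ?_
    have e2 : ∫ x, Real.cos (t * (∑ i ∈ K.blk (K.num j), U K s j i * φ i x) + -(Real.pi / 2))
        ∂(ProbabilityTheory.cond μ (E r)) =
        ∫ x, Real.sin (t * (∑ i ∈ K.blk (K.num j), U K s j i * φ i x))
          ∂(ProbabilityTheory.cond μ (E r)) := by
      refine integral_congr_ae (Eventually.of_forall fun x => ?_)
      show Real.cos (t * (∑ i ∈ K.blk (K.num j), U K s j i * φ i x) + -(Real.pi / 2)) = _
      rw [← sub_eq_add_neg, Real.cos_sub_pi_div_two]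
    rw [e2]
    rcases he j with h3 | h3
    · simp only [h3, one_mul]
    · simp only [h3, neg_one_mul, mul_neg, Real.sin_neg]
      rw [integral_neg, norm_neg]) g
  have hfin := hlevy.const_mul (μ.real (E r))
  refine hfin.congr fun j => ?_
  rw [cond_int h0]


/-- the truncated square -/
noncomputable def tsq (R : ℕ) : ℝ →ᵇ ℝ :=
  BoundedContinuousFunction.ofNormedAddCommGroup (fun t => min (t ^ 2) ((R : ℝ) ^ 2))
    (by fun_prop) ((R : ℝ) ^ 2) (fun t => by
      rw [Real.norm_eq_abs, abs_of_nonneg (le_min (sq_nonneg _) (sq_nonneg _))]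
      exact min_le_right _ _)

lemma tsq_lim : Tendsto (fun R : ℕ => ∫ y, tsq R y ∂(gaussianReal 0 1)) atTop (𝓝 1) := by
  have hsq : Integrable (fun y : ℝ => y ^ 2) (gaussianReal 0 1) :=
    (memLp_id_gaussianReal (μ := 0) (v := 1) 2).integrable_sq
  have h1 : ∫ y : ℝ, y ^ 2 ∂(gaussianReal 0 1) = 1 := by
    have h2 := variance_id_gaussianReal (μ := 0) (v := 1)
    rw [variance_eq_integral (by fun_prop)] at h2
    simpa using h2
  rw [← h1]
  refine tendsto_integral_of_dominated_convergence (fun y => y ^ 2) (fun R => ?_) hsq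
    (fun R => Eventually.of_forall fun y => ?_) (Eventually.of_forall fun y => ?_)
  · exact (tsq R).continuous.aestronglyMeasurable
  · show ‖min (y ^ 2) ((R : ℝ) ^ 2)‖ ≤ y ^ 2
    rw [Real.norm_eq_abs, abs_of_nonneg (le_min (sq_nonneg _) (sq_nonneg _))]
    exact min_le_left _ _
  · refine tendsto_const_nhds.congr' ?_
    filter_upwards [eventually_ge_atTop ⌈|y|⌉₊] with R hR
    show y ^ 2 = min (y ^ 2) ((R : ℝ) ^ 2)
    have h3 : |y| ≤ R := (Nat.le_ceil _).trans (by exact_mod_cast hR)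
    rw [min_eq_left]
    rw [← sq_abs y]
    exact pow_le_pow_left₀ (abs_nonneg _) h3 2

/-- **All measurable sets.** -/
theorem value_mass [IsProbabilityMeasure μ] [MeasurableSpace.CountablyGenerated X]
    {φ : ℕ → X → ℝ} {om : ℕ → ℝ} {d : ℕ} (hd : 2 ≤ d) {θ σ ε : ℝ}
    (hθ0 : 0 ≤ θ) (hθ1 : θ < 1) (hσ0 : 0 ≤ σ) (hσ : 1 - d * (1 - θ) / 2 < σ) (hε : 0 < ε)
    (hmono : Monotone om) (h0 : 0 ≤ om 0) (h : WeylSystem μ φ (fun i => om i ^ d) θ) :
    ∃ (k u : ℕ → ℕ → ℝ) (I : ℕ → Finset ℕ) (lam' : ℕ → ℝ),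
      Perturb (fun i => om i ^ 2) ε σ k u I lam' ∧
      (∀ A : Set X, MeasurableSet A →
        Tendsto (fun j => ∫ x in A, (∑ i ∈ I j, u j i * φ i x) ^ 2 ∂μ) atTop (𝓝 (μ.real A))) ∧
      ∀ e : ℕ → ℝ, (∀ j, e j = 1 ∨ e j = -1) → ∀ A : Set X, MeasurableSet A → ∀ g : ℝ →ᵇ ℝ,
        Tendsto (fun j => ∫ x in A, g (e j * ∑ i ∈ I j, u j i * φ i x) ∂μ) atTop
          (𝓝 (μ.real A * ∫ y, g y ∂(gaussianReal 0 1))) := by
  obtain ⟨k, u, I, lam', hP, hG⟩ := value_d hd hθ0 hθ1 hσ0 hσ hε hmono h0 h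
  refine ⟨k, u, I, lam', hP, fun A hA => ?_, hG⟩
  set v : ℕ → X → ℝ := fun j x => ∑ i ∈ I j, u j i * φ i x with hv
  have hvm : ∀ j, MemLp (v j) 2 μ := fun j =>
    memLp_finsetSum _ fun i _ => (h.onf.mem i).const_mul _
  have hvi : ∀ j, Integrable (fun x => v j x ^ 2) μ := fun j => (hvm j).integrable_sq
  have htot : ∀ j, ∫ x, v j x ^ 2 ∂μ = 1 := by
    intro j
    have h1 := h.onf.comb_mul (I j) (u j) (u j)
    have h2 := hP.rows j j
    rw [if_pos rfl] at h2
    rw [h2] at h1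
    rw [← h1]
    exact integral_congr_ae (Eventually.of_forall fun x => sq _)
  have hlow : ∀ B : Set X, MeasurableSet B → ∀ η : ℝ, 0 < η → ∀ᶠ j in atTop,
      μ.real B - η ≤ ∫ x in B, v j x ^ 2 ∂μ := by
    intro B hB η hη
    obtain ⟨R, hR⟩ := (tsq_lim.eventually (lt_mem_nhds (by linarith : 1 - η / 2 < (1:ℝ)))).exists
    have h1 := hG (fun _ => 1) (fun _ => Or.inl rfl) B hB (tsq R)
    have h2 := h1.eventually (lt_mem_nhds (by linarith :
      μ.real B * ∫ y, tsq R y ∂(gaussianReal 0 1) - η / 2 <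
        μ.real B * ∫ y, tsq R y ∂(gaussianReal 0 1)))
    filter_upwards [h2] with j hj
    have h3 : ∫ x in B, tsq R (1 * v j x) ∂μ ≤ ∫ x in B, v j x ^ 2 ∂μ := by
      refine integral_mono_of_nonneg (Eventually.of_forall fun x => ?_) (hvi j).integrableOn
        (Eventually.of_forall fun x => ?_)
      · show (0:ℝ) ≤ min ((1 * v j x) ^ 2) ((R : ℝ) ^ 2)
        exact le_min (sq_nonneg _) (sq_nonneg _)
      · show min ((1 * v j x) ^ 2) ((R : ℝ) ^ 2) ≤ v j x ^ 2
        rw [one_mul]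
        exact min_le_left _ _
    have h4 : 0 ≤ μ.real B := measureReal_nonneg
    have h5 : μ.real B ≤ 1 := measureReal_le_one
    have h6 : μ.real B * (1 - η / 2) ≤ μ.real B * ∫ y, tsq R y ∂(gaussianReal 0 1) :=
      mul_le_mul_of_nonneg_left hR.le h4
    have h7 : μ.real B * (η / 2) ≤ η / 2 := by nlinarith
    have h8 : μ.real B * (1 - η / 2) = μ.real B - μ.real B * (η / 2) := by ring
    simp only [hv] at h3
    linarith
  rw [Metric.tendsto_atTop]
  intro η hη
  obtain ⟨J, hJ⟩ := eventually_atTop.1 ((hlow A hA (η / 2) (by positivity)).and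
    (hlow _ hA.compl (η / 2) (by positivity)))
  refine ⟨J, fun j hj => ?_⟩
  obtain ⟨h1, h2⟩ := hJ j hj
  have h3 : ∫ x in A, v j x ^ 2 ∂μ + ∫ x in Aᶜ, v j x ^ 2 ∂μ = 1 := by
    rw [integral_add_compl hA (hvi j)]
    exact htot j
  have h4 : μ.real Aᶜ = 1 - μ.real A := probReal_compl_eq_one_sub hA
  rw [h4] at h2
  rw [Real.dist_eq, abs_lt]
  constructor <;> linarith

end Pool.Agent.U34.BW
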