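import Pool.Agent.U34.BW.Equi

/-!
# Equidistribution on all small balls at once
-/

set_option autoImplicit false

open MeasureTheory Finset Filter Topology ProbabilityTheory

namespace Pool.Agent.U34.BW

/-- Geometry of balls as in a compact Riemannian manifold of dimension `q` (`μ` is the normalised
volume): lower volume bound, regularity of the volume in the radius, covering numbers. -/
structure Geo {X : Type*} [MeasurableSpace X] [MetricSpace X] (μ : Measure X) (q c A : ℝ) :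
    Prop where
  q0 : 0 < q
  c0 : 0 < c
  A0 : 0 ≤ A
  low : ∀ (x : X) (r : ℝ), 0 < r → r ≤ 1 → c * r ^ q ≤ μ.real (Metric.ball x r)
  reg : ∀ (x : X) (r s : ℝ), 0 < s → s ≤ r → r ≤ 1 →
    μ.real (Metric.ball x (r + s)) ≤ (1 + A * (s / r)) * μ.real (Metric.ball x r)
  net : ∀ t : ℝ, 0 < t → t ≤ 1 → ∃ (m : ℕ) (y : ℕ → X), (m : ℝ) ≤ A * t ^ (-q) ∧
    ∀ x, ∃ i < m, dist x (y i) < t

variable {X : Type*} [MeasurableSpace X] [MetricSpace X] {μ : Measure X}

/-- the final estimate -/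
lemma fin_arith {δ δ' A1 A2 A3 B1 B2 B3 B4 B5 : ℝ} (hδ0 : 0 < δ') (hδ1 : δ' ≤ δ / 4)
    (hδ2 : δ' ≤ 1 / 4) (n1 : 0 ≤ B1) (n2 : 0 ≤ B4) (i1 : A2 ≤ A1) (i2 : A1 ≤ A3) (m1 : B3 ≤ B5)
    (m2 : B4 ≤ B2) (r1 : B5 ≤ (1 + δ') * B1) (r2 : B1 ≤ (1 + δ') * B4)
    (b1 : -(δ' * B2) ≤ A2 - B2) (b2 : A3 - B3 ≤ δ' * B3) : |A1 - B1| ≤ δ * B1 := by
  have u1 : A1 ≤ (1 + δ') * ((1 + δ') * B1) := by
    have h4 : A3 ≤ (1 + δ') * B3 := by linarith
    have h5 : (1 + δ') * B3 ≤ (1 + δ') * ((1 + δ') * B1) :=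
      mul_le_mul_of_nonneg_left (m1.trans r1) (by linarith)
    linarith
  have u2 : (1 - δ') * B4 ≤ A1 := by
    have h4 : (1 - δ') * B2 ≤ A2 := by linarith
    have h5 : (1 - δ') * B4 ≤ (1 - δ') * B2 := mul_le_mul_of_nonneg_left m2 (by linarith)
    linarith
  have u3 : (1 - 2 * δ') * B1 ≤ (1 - δ') * B4 := by
    have h5 : (1 - 2 * δ') * B1 ≤ (1 - 2 * δ') * ((1 + δ') * B4) :=
      mul_le_mul_of_nonneg_left r2 (by linarith)
    have h6 : 0 ≤ δ' * δ' * B4 := mul_nonneg (mul_nonneg hδ0.le hδ0.le) n2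
    have h7 : (1 - 2 * δ') * ((1 + δ') * B4) = (1 - δ') * B4 - 2 * (δ' * δ' * B4) := by ring
    linarith
  have h8 : δ' * δ' ≤ δ' * (1 / 4) := mul_le_mul_of_nonneg_left hδ2 hδ0.le
  have w1 : (1 + δ') * ((1 + δ') * B1) ≤ B1 + δ * B1 := by
    have h5 : (1 + δ') * (1 + δ') ≤ 1 + δ := by
      have : (1 + δ') * (1 + δ') = 1 + 2 * δ' + δ' * δ' := by ring
      linarith
    have h6 := mul_le_mul_of_nonneg_right h5 n1
    linarith
  have w2 : B1 - δ * B1 ≤ (1 - 2 * δ') * B1 := by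
    have h5 : 2 * δ' ≤ δ := by linarith
    have h6 := mul_le_mul_of_nonneg_right h5 n1
    linarith
  rw [abs_le]
  constructor <;> linarith

/-- **Equidistribution on all small balls for small perturbations.** -/
theorem balls [SecondCountableTopology X] [OpensMeasurableSpace X]
    [IsProbabilityMeasure μ] {φ : ℕ → X → ℝ} {om : ℕ → ℝ} {d : ℕ} (hd : 2 ≤ d)
    {θ σ ε : ℝ} (hθ0 : 0 < θ) (hθ1 : θ < 1) (hσ0 : 0 ≤ σ) (hσ : 1 - d * (1 - θ) / 2 < σ)
    (hε : 0 < ε) (h : ONF μ φ) (hmono : Monotone om) (h0 : 0 ≤ om 0)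
    (hweyl : ∃ κ C : ℝ, 0 < κ ∧ ∀ n : ℕ, |om n ^ d - κ * n| ≤ C * ((n : ℝ) + 1) ^ θ)
    (hlaw : ∃ C : ℝ, ∀ᵐ x ∂μ, ∀ n : ℕ, |∑ i ∈ range n, φ i x ^ 2 - n| ≤ C * ((n : ℝ) + 1) ^ θ)
    {q c A : ℝ} (hG : Geo μ q c A) {γ : ℝ} (hγ : 0 < γ) (hγθ : 5 * γ * q < θ) :
    ∃ (k u : ℕ → ℕ → ℝ) (I : ℕ → Finset ℕ) (lam' : ℕ → ℝ),
      Perturb (fun i => om i ^ 2) ε σ k u I lam' ∧
      (∀ D : Set X, IsOpen D → μ (frontier D) = 0 →
        Tendsto (fun j => ∫ x in D, (∑ i ∈ I j, u j i * φ i x) ^ 2 ∂μ) atTop (𝓝 (μ.real D))) ∧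
      ∀ δ : ℝ, 0 < δ → ∀ᶠ j : ℕ in atTop, ∀ x : X,
        |∫ p in Metric.ball x (((j : ℝ) + 1) ^ (-γ)), (∑ i ∈ I j, u j i * φ i p) ^ 2 ∂μ -
          μ.real (Metric.ball x (((j : ℝ) + 1) ^ (-γ)))| ≤
          δ * μ.real (Metric.ball x (((j : ℝ) + 1) ^ (-γ))) := by
  have hq := hG.q0
  have hc := hG.c0
  have hA := hG.A0
  set η : ℝ := θ / q - 5 * γ with hη
  have hη0 : 0 < η := by rw [hη, sub_pos, lt_div_iff₀ hq]; exact hγθ
  set J : ℕ → ℝ := fun j => (j : ℝ) + 1 with hJ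
  have hJ1 : ∀ j, 1 ≤ J j := fun j => by simp [hJ]
  have hJ0 : ∀ j, 0 < J j := fun j => lt_of_lt_of_le one_pos (hJ1 j)
  set a : ℕ → ℝ := fun j => J j ^ (-γ) with ha
  set t : ℕ → ℝ := fun j => 1 / 4 * J j ^ (-(γ + η)) with ht
  have ha0 : ∀ j, 0 < a j := fun j => Real.rpow_pos_of_pos (hJ0 j) _
  have ht0 : ∀ j, 0 < t j := fun j => by
    have := Real.rpow_pos_of_pos (hJ0 j) (-(γ + η))
    simp only [ht]; positivity
  have ha1 : ∀ j, a j ≤ 1 := fun j => Real.rpow_le_one_of_one_le_of_nonpos (hJ1 j) (by linarith)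
  have hta : ∀ j, t j = a j * (1 / 4 * J j ^ (-η)) := fun j => by
    simp only [ht, ha]
    rw [show -(γ + η) = -γ + -η by ring, Real.rpow_add (hJ0 j)]
    ring
  have hJη : ∀ j, J j ^ (-η) ≤ 1 := fun j =>
    Real.rpow_le_one_of_one_le_of_nonpos (hJ1 j) (by linarith)
  have hta4 : ∀ j, t j ≤ a j / 4 := fun j => by
    rw [hta]
    have := mul_le_mul_of_nonneg_left (hJη j) (ha0 j).le
    linarith
  have hlim : Tendsto (fun j => A * (J j ^ (-η))) atTop (𝓝 0) := by
    have h1 : Tendsto (fun n : ℕ => ((n : ℝ) + 1)) atTop atTop :=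
      tendsto_atTop_add_const_right _ _ tendsto_natCast_atTop_atTop
    simpa using ((tendsto_rpow_neg_atTop hη0).comp h1).const_mul A
  choose m y hm hy using fun j => hG.net (t j) (ht0 j) (by linarith [hta4 j, ha1 j, ha0 j])
  set E : ℕ → ℕ → Set X := fun j p => if p < m j then Metric.ball (y j p) (a j - t j)
    else Metric.ball (y j (p - m j)) (a j + t j) with hE
  have hEm : ∀ j p, MeasurableSet (E j p) := fun j p => by
    simp only [hE]; split_ifs <;> exact Metric.isOpen_ball.measurableSet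
  have hlow : ∀ j z, c * (a j / 2) ^ q ≤ μ.real (Metric.ball z (a j - t j)) := by
    intro j z
    refine le_trans ?_ (hG.low z (a j - t j) (by linarith [hta4 j, ha0 j])
      (by linarith [ht0 j, ha1 j]))
    have h1 : (a j / 2) ^ q ≤ (a j - t j) ^ q :=
      Real.rpow_le_rpow (by linarith [ha0 j]) (by linarith [hta4 j, ha0 j]) hq.le
    exact mul_le_mul_of_nonneg_left h1 hc.le
  have hlowE : ∀ j p, c * (a j / 2) ^ q ≤ μ.real (E j p) := by
    intro j p
    simp only [hE]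
    split_ifs
    · exact hlow _ _
    · refine (hlow j (y j (p - m j))).trans (measureReal_mono ?_)
      exact Metric.ball_subset_ball (by linarith [ht0 j])
  have hcp : ∀ j, 0 < c * (a j / 2) ^ q := fun j => by have := ha0 j; positivity
  obtain ⟨k, u, I, lam', hP, hD, hmass⟩ := equi hd hθ0 hθ1 hσ0 hσ hε h hmono h0 hweyl hlaw E
    (fun j => m j + m j) hEm (fun j p _ h1 => by
      have h2 := (hcp j).trans_le (hlowE j p)
      rw [Measure.real, h1] at h2
      simp at h2) ⟨2 * (A * 4 ^ q) * (2 ^ q / c) ^ 4, fun j => by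
      have e1 : ∀ p ∈ range (m j + m j), (1 / μ.real (E j p)) ^ 4 ≤
          (1 / (c * (a j / 2) ^ q)) ^ 4 := fun p _ =>
        pow_le_pow_left₀ (by positivity) (one_div_le_one_div_of_le (hcp j) (hlowE j p)) 4
      refine (Finset.sum_le_sum e1).trans ?_
      simp only [Finset.sum_const, Finset.card_range, nsmul_eq_mul]
      push_cast
      have e2 : (1 / (c * (a j / 2) ^ q)) ^ 4 = (2 ^ q / c) ^ 4 * J j ^ (4 * γ * q) := by
        have e3 : (a j / 2) ^ q = (J j ^ (γ * q))⁻¹ / 2 ^ q := by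
          simp only [ha]
          rw [Real.div_rpow (Real.rpow_nonneg (hJ0 j).le _) (by norm_num), ← Real.rpow_mul
            (hJ0 j).le, neg_mul, Real.rpow_neg (hJ0 j).le]
        have e4 : J j ^ (4 * γ * q) = (J j ^ (γ * q)) ^ 4 := by
          rw [← Real.rpow_natCast, ← Real.rpow_mul (hJ0 j).le]
          congr 1
          push_cast
          ring
        have h5 : 0 < J j ^ (γ * q) := Real.rpow_pos_of_pos (hJ0 j) _
        have h6 : (0:ℝ) < 2 ^ q := by positivity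
        rw [e3, e4]
        field_simp
      have e5 : (m j : ℝ) ≤ A * 4 ^ q * J j ^ ((γ + η) * q) := by
        refine (hm j).trans (le_of_eq ?_)
        simp only [ht]
        rw [Real.mul_rpow (by norm_num) (Real.rpow_nonneg (hJ0 j).le _),
          ← Real.rpow_mul (hJ0 j).le, neg_mul_neg, one_div, Real.inv_rpow (by norm_num),
          Real.rpow_neg (by norm_num), inv_inv, mul_assoc]
      have e6 : J j ^ ((γ + η) * q) * J j ^ (4 * γ * q) = J j ^ θ := by
        rw [← Real.rpow_add (hJ0 j)]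
        congr 1
        rw [hη]
        field_simp
        ring
      rw [e2]
      calc ((m j : ℝ) + m j) * ((2 ^ q / c) ^ 4 * J j ^ (4 * γ * q))
          ≤ (A * 4 ^ q * J j ^ ((γ + η) * q) + A * 4 ^ q * J j ^ ((γ + η) * q)) *
            ((2 ^ q / c) ^ 4 * J j ^ (4 * γ * q)) := by
            have h5 : 0 ≤ J j ^ (4 * γ * q) := Real.rpow_nonneg (hJ0 j).le _
            gcongr
        _ = 2 * (A * 4 ^ q) * (2 ^ q / c) ^ 4 * (J j ^ ((γ + η) * q) * J j ^ (4 * γ * q)) := by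
            ring
        _ = _ := by rw [e6]⟩
  refine ⟨k, u, I, lam', hP, hD, fun δ hδ => ?_⟩
  set v : ℕ → X → ℝ := fun j x => ∑ i ∈ I j, u j i * φ i x with hv
  have hvi : ∀ j, Integrable (fun x => v j x ^ 2) μ := fun j =>
    (memLp_finsetSum _ fun i _ => (h.mem i).const_mul _ : MemLp (v j) 2 μ).integrable_sq
  set δ' : ℝ := min δ 1 / 4 with hδ'
  have hδ1 : δ' ≤ δ / 4 := by rw [hδ']; linarith [min_le_left δ 1]
  have hδ2 : δ' ≤ 1 / 4 := by rw [hδ']; linarith [min_le_right δ 1]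
  have hδ0 : 0 < δ' := by rw [hδ']; have := lt_min hδ one_pos; positivity
  filter_upwards [hmass δ' hδ0, hlim.eventually (gt_mem_nhds hδ0)] with j hj hjA x
  obtain ⟨i, hi, hdist⟩ := hy j x
  have hai := ha0 j
  have hti := ht0 j
  have ht4 := hta4 j
  have h1 := hj i (by omega)
  have h2 := hj (m j + i) (by omega)
  have e1 : E j i = Metric.ball (y j i) (a j - t j) := by simp only [hE]; rw [if_pos hi]
  have e2 : E j (m j + i) = Metric.ball (y j i) (a j + t j) := by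
    simp only [hE]; rw [if_neg (by omega), Nat.add_sub_cancel_left]
  rw [e1] at h1
  rw [e2] at h2
  have hint : ∀ S T : Set X, S ⊆ T → ∫ p in S, v j p ^ 2 ∂μ ≤ ∫ p in T, v j p ^ 2 ∂μ :=
    fun S T hST => setIntegral_mono_set (hvi j).integrableOn
      (Eventually.of_forall fun x => sq_nonneg _) (Eventually.of_forall hST)
  have i1 := hint _ _ (Metric.ball_subset_ball' (by rw [dist_comm] at hdist; linarith) :
    Metric.ball (y j i) (a j - t j) ⊆ Metric.ball x (a j))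
  have i2 := hint _ _ (Metric.ball_subset_ball' (by linarith) :
    Metric.ball x (a j) ⊆ Metric.ball (y j i) (a j + t j))
  have m1 : μ.real (Metric.ball (y j i) (a j + t j)) ≤ μ.real (Metric.ball x (a j + 2 * t j)) :=
    measureReal_mono (Metric.ball_subset_ball' (by rw [dist_comm] at hdist; linarith))
  have m2 : μ.real (Metric.ball x (a j - 2 * t j)) ≤ μ.real (Metric.ball (y j i) (a j - t j)) :=
    measureReal_mono (Metric.ball_subset_ball' (by linarith))
  have hAt : A * (2 * t j / (a j - 2 * t j)) ≤ δ' := by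
    refine le_trans ?_ hjA.le
    refine mul_le_mul_of_nonneg_left ?_ hA
    rw [div_le_iff₀ (by linarith)]
    have h3 : t j = a j * (1 / 4 * J j ^ (-η)) := hta j
    have h4 : 0 ≤ J j ^ (-η) := Real.rpow_nonneg (hJ0 j).le _
    nlinarith
  have hAt2 : A * (2 * t j / a j) ≤ δ' := by
    refine le_trans (mul_le_mul_of_nonneg_left ?_ hA) hAt
    exact div_le_div_of_nonneg_left (by linarith) (by linarith) (by linarith)
  have r1 := hG.reg x (a j) (2 * t j) (by linarith) (by linarith) (ha1 j)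
  have r2 := hG.reg x (a j - 2 * t j) (2 * t j) (by linarith) (by linarith)
    (by linarith [ha1 j])
  rw [sub_add_cancel] at r2
  have n1 : 0 ≤ μ.real (Metric.ball x (a j)) := measureReal_nonneg
  have n2 : 0 ≤ μ.real (Metric.ball x (a j - 2 * t j)) := measureReal_nonneg
  have r1' : μ.real (Metric.ball x (a j + 2 * t j)) ≤ (1 + δ') * μ.real (Metric.ball x (a j)) :=
    r1.trans (mul_le_mul_of_nonneg_right (by linarith) n1)
  have r2' : μ.real (Metric.ball x (a j)) ≤ (1 + δ') * μ.real (Metric.ball x (a j - 2 * t j)) :=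
    r2.trans (mul_le_mul_of_nonneg_right (by linarith) n2)
  have b1 := (abs_le.1 h1).1
  have b2 := (abs_le.1 h2).2
  show |∫ p in Metric.ball x (a j), v j p ^ 2 ∂μ - μ.real (Metric.ball x (a j))| ≤
    δ * μ.real (Metric.ball x (a j))
  exact fin_arith hδ0 hδ1 hδ2 n1 n2 i1 i2 m1 m2 r1' r2' b1 b2

end Pool.Agent.U34.BW
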