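import Pool.Agent.U34.BW.Cube

/-!
# Concentration of the characteristic functions of random combinations
-/

set_option autoImplicit false

open MeasureTheory Finset Filter Topology

namespace Pool.Agent.U34.BW

variable {X : Type*} [MeasurableSpace X] {μ : Measure X}

/-- Bessel type bound -/
structure Bes (μ : Measure X) {n : ℕ} (ψ : Fin n → X → ℝ) (B : ℝ) : Prop where
  mem : ∀ i, MemLp (ψ i) 2 μ
  bes : ∀ g : X → ℝ, MemLp g 2 μ → ∑ i, (∫ x, ψ i x * g x ∂μ) ^ 2 ≤ B * ∫ x, g x ^ 2 ∂μ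
  B0 : 0 ≤ B

lemma sin_bd (b : ℝ) : |Real.sin b - b| ≤ 2 * b ^ 2 := by
  by_cases h : |b| ≤ 1
  · have h1 := Real.sin_bound h
    have h2 : |Real.sin b - b| ≤ |Real.sin b - (b - b ^ 3 / 6)| + |b ^ 3 / 6| := by
      have e : Real.sin b - b = (Real.sin b - (b - b ^ 3 / 6)) + (-(b ^ 3 / 6)) := by ring
      rw [e]
      refine (abs_add_le _ _).trans ?_
      rw [abs_neg]
    have h3 : |b ^ 3 / 6| = |b| * b ^ 2 / 6 := by
      rw [abs_div, abs_pow, abs_of_pos (by norm_num : (0:ℝ) < 6), pow_succ, sq_abs]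
      ring
    have h4 : |b| ^ 5 ≤ b ^ 2 := by
      rw [← sq_abs]; exact pow_le_pow_of_le_one (abs_nonneg _) h (by norm_num)
    have h5 : b ^ 2 ≤ 1 := by
      rw [← sq_abs]; exact pow_le_one₀ (abs_nonneg _) h
    have h6 := sq_nonneg b
    rw [h3] at h2
    have h7 : |b| * b ^ 2 ≤ b ^ 2 := by nlinarith
    linarith
  · rw [not_le] at h
    have h1 : |Real.sin b - b| ≤ |Real.sin b| + |b| := by
      have := abs_add_le (Real.sin b) (-b)
      rwa [abs_neg, ← sub_eq_add_neg] at this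
    have h2 := Real.abs_sin_le_one b
    have h3 : |b| ≤ b ^ 2 := by rw [← sq_abs]; nlinarith
    nlinarith

lemma cos_sub_bd (v b : ℝ) : |Real.cos (v - b) - Real.cos v - b * Real.sin v| ≤ 3 * b ^ 2 := by
  have e : Real.cos (v - b) - Real.cos v - b * Real.sin v =
      Real.cos v * (Real.cos b - 1) + Real.sin v * (Real.sin b - b) := by
    rw [Real.cos_sub]; ring
  rw [e]
  have h1 : |Real.cos b - 1| ≤ b ^ 2 / 2 := by
    rw [abs_sub_comm, abs_of_nonneg (by linarith [Real.cos_le_one b])]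
    linarith [Real.one_sub_sq_div_two_le_cos (x := b)]
  have h2 := sin_bd b
  have h3 := Real.abs_cos_le_one v
  have h4 := Real.abs_sin_le_one v
  calc |Real.cos v * (Real.cos b - 1) + Real.sin v * (Real.sin b - b)|
      ≤ |Real.cos v| * |Real.cos b - 1| + |Real.sin v| * |Real.sin b - b| := by
        rw [← abs_mul, ← abs_mul]; exact abs_add_le _ _
    _ ≤ 1 * (b ^ 2 / 2) + 1 * (2 * b ^ 2) := by gcongr
    _ ≤ 3 * b ^ 2 := by nlinarith [sq_nonneg b]

lemma Bes.sq_le {n : ℕ} {ψ : Fin n → X → ℝ} {B : ℝ} (h : Bes μ ψ B) (i : Fin n) :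
    ∫ x, ψ i x ^ 2 ∂μ ≤ B := by
  have h1 := h.bes (ψ i) (h.mem i)
  have h2 : (∫ x, ψ i x * ψ i x ∂μ) ^ 2 ≤ ∑ j, (∫ x, ψ j x * ψ i x ∂μ) ^ 2 :=
    Finset.single_le_sum (f := fun j => (∫ x, ψ j x * ψ i x ∂μ) ^ 2) (fun j _ => sq_nonneg _)
      (Finset.mem_univ i)
  have h3 : ∫ x, ψ i x * ψ i x ∂μ = ∫ x, ψ i x ^ 2 ∂μ := by
    refine integral_congr_ae (Eventually.of_forall fun x => ?_)
    show ψ i x * ψ i x = ψ i x ^ 2
    ring
  rw [h3] at h2
  have h4 : 0 ≤ ∫ x, ψ i x ^ 2 ∂μ := integral_nonneg fun x => sq_nonneg _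
  by_contra hc
  rw [not_le] at hc
  have h5 : 0 < ∫ x, ψ i x ^ 2 ∂μ := lt_of_le_of_lt h.B0 hc
  nlinarith

/-- the random combination -/
def comb {n : ℕ} (w : ℝ) (h : Fin n → ℝ) (ψ : Fin n → X → ℝ) (s : Fin n → Bool) (x : X) : ℝ :=
  w * ∑ i, sgn (s i) * (h i * ψ i x)

lemma comb_fl {n : ℕ} (w : ℝ) (h : Fin n → ℝ) (ψ : Fin n → X → ℝ) (s : Fin n → Bool)
    (i : Fin n) (x : X) : comb w h ψ (fl i s) x = comb w h ψ s x -
      2 * w * sgn (s i) * h i * ψ i x := by
  unfold comb fl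
  have : ∑ j, sgn (Function.update s i (!s i) j) * (h j * ψ j x) =
      ∑ j, sgn (s j) * (h j * ψ j x) - 2 * sgn (s i) * (h i * ψ i x) := by
    rw [← Finset.add_sum_erase Finset.univ
        (fun j => sgn (Function.update s i (!s i) j) * (h j * ψ j x)) (Finset.mem_univ i),
      ← Finset.add_sum_erase Finset.univ (fun j => sgn (s j) * (h j * ψ j x)) (Finset.mem_univ i)]
    rw [Function.update_self, sgn_not]
    have e : ∑ j ∈ Finset.univ.erase i, sgn (Function.update s i (!s i) j) * (h j * ψ j x) =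
        ∑ j ∈ Finset.univ.erase i, sgn (s j) * (h j * ψ j x) := by
      refine Finset.sum_congr rfl fun j hj => ?_
      rw [Function.update_of_ne (Finset.ne_of_mem_erase hj)]
    rw [e]
    ring
  rw [this]
  ring

lemma comb_meas {n : ℕ} (w : ℝ) (h : Fin n → ℝ) {ψ : Fin n → X → ℝ}
    (hψ : ∀ i, AEStronglyMeasurable (ψ i) μ) (s : Fin n → Bool) :
    AEStronglyMeasurable (comb w h ψ s) μ := by
  unfold comb
  refine AEStronglyMeasurable.const_mul ?_ w
  refine Finset.aestronglyMeasurable_fun_sum _ fun i _ => ?_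
  exact ((hψ i).const_mul (h i)).const_mul (sgn (s i))

/-- the characteristic function of the random combination -/
noncomputable def chF (μ : Measure X) {n : ℕ} (w : ℝ) (h : Fin n → ℝ) (ψ : Fin n → X → ℝ)
    (c : ℝ) (s : Fin n → Bool) : ℝ := ∫ x, Real.cos (comb w h ψ s x + c) ∂μ

lemma int_bdd [IsFiniteMeasure μ] {g : X → ℝ} (hg : AEStronglyMeasurable g μ)
    (h1 : ∀ x, |g x| ≤ 1) : Integrable g μ :=
  Integrable.of_bound hg 1 (Eventually.of_forall h1)

/-- small discrete gradient -/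
theorem grad_le [IsProbabilityMeasure μ] {n : ℕ} (hn : 0 < n) {w : ℝ} (hw : w ^ 2 = 1 / n)
    (hw0 : 0 ≤ w)
    {h : Fin n → ℝ} (hh : ∀ i, h i ^ 2 = 1) {ψ : Fin n → X → ℝ} {B : ℝ} (hB : Bes μ ψ B) (c : ℝ)
    (s : Fin n → Bool) :
    ∑ i, (chF μ w h ψ c s - chF μ w h ψ c (fl i s)) ^ 2 ≤ (8 * B + 288 * B ^ 2) / n := by
  set v : X → ℝ := fun x => comb w h ψ s x + c with hv
  have hvm : AEStronglyMeasurable v μ :=
    (comb_meas w h (fun i => (hB.mem i).1) s).add aestronglyMeasurable_const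
  have hsin : MemLp (fun x => Real.sin (v x)) 2 μ :=
    MemLp.of_bound (Real.continuous_sin.comp_aestronglyMeasurable hvm) 1
      (Eventually.of_forall fun x => Real.abs_sin_le_one _)
  have hB0 := hB.B0
  have hn' : (0:ℝ) < n := by exact_mod_cast hn
  -- one coordinate
  have h1 : ∀ i, |chF μ w h ψ c s - chF μ w h ψ c (fl i s)| ≤
      2 * w * |∫ x, ψ i x * Real.sin (v x) ∂μ| + 12 * w ^ 2 * B := by
    intro i
    set a : ℝ := 2 * w * sgn (s i) * h i with ha
    have ha2 : a ^ 2 = 4 * w ^ 2 := by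
      rw [ha, mul_pow, mul_pow, mul_pow, sgn_sq, hh]; ring
    have haabs : |a| = 2 * w := by
      rw [← Real.sqrt_sq_eq_abs, ha2, show 4 * w ^ 2 = (2 * w) ^ 2 by ring,
        Real.sqrt_sq (by positivity)]
    have e1 : chF μ w h ψ c (fl i s) = ∫ x, Real.cos (v x - a * ψ i x) ∂μ := by
      refine integral_congr_ae (Eventually.of_forall fun x => ?_)
      show Real.cos (comb w h ψ (fl i s) x + c) = Real.cos (comb w h ψ s x + c - a * ψ i x)
      rw [comb_fl]
      congr 1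
      ring
    have i1 : Integrable (fun x => Real.cos (v x - a * ψ i x)) μ :=
      int_bdd (Real.continuous_cos.comp_aestronglyMeasurable
        (hvm.sub ((hB.mem i).1.const_mul a))) fun x => Real.abs_cos_le_one _
    have i2 : Integrable (fun x => Real.cos (v x)) μ :=
      int_bdd (Real.continuous_cos.comp_aestronglyMeasurable hvm) fun x =>
        Real.abs_cos_le_one _
    have i3 : Integrable (fun x => ψ i x * Real.sin (v x)) μ := (hB.mem i).integrable_mul hsin
    have i4 : Integrable (fun x => ψ i x ^ 2) μ := (hB.mem i).integrable_sq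
    have e2 : chF μ w h ψ c (fl i s) - chF μ w h ψ c s - a * ∫ x, ψ i x * Real.sin (v x) ∂μ =
        ∫ x, (Real.cos (v x - a * ψ i x) - Real.cos (v x) - a * (ψ i x * Real.sin (v x))) ∂μ := by
      have i5 : Integrable (fun x => Real.cos (v x - a * ψ i x) - Real.cos (v x)) μ := i1.sub i2
      have i6 : Integrable (fun x => a * (ψ i x * Real.sin (v x))) μ := i3.const_mul a
      rw [integral_sub i5 i6, integral_sub i1 i2, integral_const_mul, e1]
      rfl
    have e3 : |∫ x, (Real.cos (v x - a * ψ i x) - Real.cos (v x) -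
        a * (ψ i x * Real.sin (v x))) ∂μ| ≤ 12 * w ^ 2 * B := by
      calc _ ≤ ∫ x, 3 * a ^ 2 * ψ i x ^ 2 ∂μ := by
            rw [← Real.norm_eq_abs]
            refine norm_integral_le_of_norm_le (i4.const_mul (3 * a ^ 2))
              (Eventually.of_forall fun x => ?_)
            have := cos_sub_bd (v x) (a * ψ i x)
            rw [Real.norm_eq_abs]
            calc _ = |Real.cos (v x - a * ψ i x) - Real.cos (v x) -
                  a * ψ i x * Real.sin (v x)| := by congr 1; ring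
              _ ≤ 3 * (a * ψ i x) ^ 2 := this
              _ = _ := by ring
        _ = 3 * a ^ 2 * ∫ x, ψ i x ^ 2 ∂μ := integral_const_mul _ _
        _ ≤ 3 * a ^ 2 * B := by gcongr; exact hB.sq_le i
        _ = 12 * w ^ 2 * B := by rw [ha2]; ring
    rw [← e2] at e3
    have e4 : |chF μ w h ψ c s - chF μ w h ψ c (fl i s)| ≤
        |chF μ w h ψ c (fl i s) - chF μ w h ψ c s - a * ∫ x, ψ i x * Real.sin (v x) ∂μ| +
          |a * ∫ x, ψ i x * Real.sin (v x) ∂μ| := by
      rw [abs_sub_comm]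
      have := abs_add_le (chF μ w h ψ c (fl i s) - chF μ w h ψ c s -
        a * ∫ x, ψ i x * Real.sin (v x) ∂μ) (a * ∫ x, ψ i x * Real.sin (v x) ∂μ)
      rwa [sub_add_cancel] at this
    rw [abs_mul, haabs] at e4
    linarith
  -- sum
  have h2 : ∀ i, (chF μ w h ψ c s - chF μ w h ψ c (fl i s)) ^ 2 ≤
      8 * w ^ 2 * (∫ x, ψ i x * Real.sin (v x) ∂μ) ^ 2 + 288 * w ^ 4 * B ^ 2 := by
    intro i
    have h3 := h1 i
    rw [← sq_abs]
    have h4 : |chF μ w h ψ c s - chF μ w h ψ c (fl i s)| ^ 2 ≤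
        (2 * w * |∫ x, ψ i x * Real.sin (v x) ∂μ| + 12 * w ^ 2 * B) ^ 2 := by gcongr
    refine h4.trans ?_
    have h5 : (2 * w * |∫ x, ψ i x * Real.sin (v x) ∂μ| + 12 * w ^ 2 * B) ^ 2 ≤
        2 * (2 * w * |∫ x, ψ i x * Real.sin (v x) ∂μ|) ^ 2 + 2 * (12 * w ^ 2 * B) ^ 2 := by
      nlinarith [sq_nonneg (2 * w * |∫ x, ψ i x * Real.sin (v x) ∂μ| - 12 * w ^ 2 * B)]
    refine h5.trans (le_of_eq ?_)
    rw [mul_pow (2 * w), sq_abs]
    ring
  have h3 : ∫ x, Real.sin (v x) ^ 2 ∂μ ≤ 1 := by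
    calc ∫ x, Real.sin (v x) ^ 2 ∂μ ≤ ∫ _x, (1:ℝ) ∂μ := by
          refine integral_mono hsin.integrable_sq (integrable_const _) fun x => ?_
          exact Real.sin_sq_le_one _
      _ = 1 := by simp
  calc ∑ i, (chF μ w h ψ c s - chF μ w h ψ c (fl i s)) ^ 2
      ≤ ∑ i, (8 * w ^ 2 * (∫ x, ψ i x * Real.sin (v x) ∂μ) ^ 2 + 288 * w ^ 4 * B ^ 2) :=
        Finset.sum_le_sum fun i _ => h2 i
    _ = 8 * w ^ 2 * ∑ i, (∫ x, ψ i x * Real.sin (v x) ∂μ) ^ 2 + n * (288 * w ^ 4 * B ^ 2) := by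
        rw [Finset.sum_add_distrib, ← Finset.mul_sum]
        simp
    _ ≤ 8 * w ^ 2 * (B * 1) + n * (288 * w ^ 4 * B ^ 2) := by
        have := hB.bes _ hsin
        have h6 : ∑ i, (∫ x, ψ i x * Real.sin (v x) ∂μ) ^ 2 ≤ B * 1 :=
          this.trans (by gcongr)
        gcongr
    _ = (8 * B + 288 * B ^ 2) / n := by
        rw [show w ^ 4 = (w ^ 2) ^ 2 by ring, hw]
        field_simp
        try ring

/-- the mean over the signs -/
theorem av_chF [IsProbabilityMeasure μ] {n : ℕ} (w : ℝ) {h : Fin n → ℝ} (hh : ∀ i, h i ^ 2 = 1)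
    {ψ : Fin n → X → ℝ} (hψ : ∀ i, AEStronglyMeasurable (ψ i) μ) (c : ℝ) :
    av (chF μ w h ψ c) = Real.cos c * ∫ x, ∏ i, Real.cos (w * ψ i x) ∂μ := by
  unfold av chF
  rw [← integral_finsetSum]
  · rw [← integral_const_mul, ← integral_div]
    refine integral_congr_ae (Eventually.of_forall fun x => ?_)
    show (∑ s, Real.cos (comb w h ψ s x + c)) / 2 ^ n = Real.cos c * ∏ i, Real.cos (w * ψ i x)
    have e : ∀ s, comb w h ψ s x = ∑ i, sgn (s i) * (w * (h i * ψ i x)) := by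
      intro s
      unfold comb
      rw [Finset.mul_sum]
      exact Finset.sum_congr rfl fun i _ => by ring
    simp_rw [e]
    rw [av_cos]
    have e2 : ∏ i, Real.cos (w * (h i * ψ i x)) = ∏ i, Real.cos (w * ψ i x) := by
      refine Finset.prod_congr rfl fun i _ => ?_
      rcases mul_self_eq_one_iff.1 ((sq (h i)).symm.trans (hh i)) with h1 | h1
      · rw [h1, one_mul]
      · rw [h1, neg_one_mul, mul_neg, Real.cos_neg]
    rw [e2]
    field_simp
  · intro s _
    exact int_bdd (Real.continuous_cos.comp_aestronglyMeasurable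
      ((comb_meas w h hψ s).add aestronglyMeasurable_const)) fun x => Real.abs_cos_le_one _

end Pool.Agent.U34.BW
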