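import Mathlib

/-!
# The discrete cube: Efron-Stein, fourth moments; Hadamard matrices of order `2 ^ m`
-/

set_option autoImplicit false

open Finset

namespace Pool.Agent.U34.BW

/-- Splitting a sum over the cube along the first coordinate. -/
lemma sum_cons {n : ℕ} (F : (Fin (n + 1) → Bool) → ℝ) :
    ∑ s, F s = ∑ s : Fin n → Bool, F (Fin.cons true s) +
      ∑ s : Fin n → Bool, F (Fin.cons false s) := by
  rw [← (Fin.consEquiv (fun _ => Bool)).sum_comp F, Fintype.sum_prod_type, Fintype.sum_bool]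
  rfl

/-- The Efron-Stein inequality on the discrete cube. -/
theorem es (n : ℕ) : ∀ (a : (Fin n → Bool) → ℝ),
    (2:ℝ)^n * ∑ s, a s ^ 2 - (∑ s, a s) ^ 2 ≤
      (2:ℝ)^n * (1/4) * ∑ i, ∑ s, (a s - a (Function.update s i (!s i)))^2 := by
  induction n with
  | zero =>
    intro a
    simp
  | succ n ih =>
    intro a
    have hT := ih (fun s => a (Fin.cons true s))
    have hF := ih (fun s => a (Fin.cons false s))
    rw [sum_cons (fun s => a s ^ 2), sum_cons a, Fin.sum_univ_succ]
    rw [sum_cons (fun s => (a s - a (Function.update s 0 (!s 0)))^2)]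
    simp only [Fin.cons_zero, Fin.update_cons_zero, Bool.not_true, Bool.not_false]
    have h1 : ∀ i : Fin n, ∑ s : Fin (n+1) → Bool, (a s - a (Function.update s i.succ (!s i.succ)))^2
        = ∑ s : Fin n → Bool, (a (Fin.cons true s) - a (Fin.cons true (Function.update s i (!s i))))^2
        + ∑ s : Fin n → Bool, (a (Fin.cons false s) - a (Fin.cons false (Function.update s i (!s i))))^2 := by
      intro i
      rw [sum_cons (fun s => (a s - a (Function.update s i.succ (!s i.succ)))^2)]
      simp only [Fin.cons_succ, Fin.cons_update]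
    rw [Finset.sum_congr rfl (fun i _ => h1 i), Finset.sum_add_distrib]
    have h2 : (∑ s : Fin n → Bool, (a (Fin.cons true s) - a (Fin.cons false s))) ^ 2 ≤
        (2:ℝ)^n * ∑ s : Fin n → Bool, (a (Fin.cons true s) - a (Fin.cons false s)) ^ 2 := by
      have := sq_sum_le_card_mul_sum_sq (s := (Finset.univ : Finset (Fin n → Bool)))
        (f := fun s => a (Fin.cons true s) - a (Fin.cons false s))
      simpa using this
    have h3 : ∑ s : Fin n → Bool, (a (Fin.cons false s) - a (Fin.cons true s)) ^ 2 =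
        ∑ s : Fin n → Bool, (a (Fin.cons true s) - a (Fin.cons false s)) ^ 2 :=
      Finset.sum_congr rfl fun s _ => by ring
    rw [h3]
    rw [Finset.sum_sub_distrib] at h2
    rw [pow_succ]
    nlinarith [h2, hT, hF]

/-- flipping one coordinate -/
def fl {n : ℕ} (i : Fin n) (s : Fin n → Bool) : Fin n → Bool := Function.update s i (!s i)

lemma fl_fl {n : ℕ} (i : Fin n) (s : Fin n → Bool) : fl i (fl i s) = s := by
  unfold fl
  simp

lemma sum_fl {n : ℕ} (i : Fin n) (f : (Fin n → Bool) → ℝ) : ∑ s, f (fl i s) = ∑ s, f s :=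
  Equiv.sum_comp (Function.Involutive.toPerm (fl i) (fl_fl i)) f

/-- the mean over the cube -/
noncomputable def av {n : ℕ} (a : (Fin n → Bool) → ℝ) : ℝ := (∑ s, a s) / 2 ^ n

/-- the fourth central moment of a function of small discrete gradient -/
theorem fourth {n : ℕ} (a : (Fin n → Bool) → ℝ) {D : ℝ}
    (hD : ∀ s, ∑ i, (a s - a (fl i s)) ^ 2 ≤ D) :
    ∑ s, (a s - av a) ^ 4 ≤ 2 ^ n * D ^ 2 := by
  have h2n : (0:ℝ) < 2 ^ n := by positivity
  have hD0 : 0 ≤ D := (Finset.sum_nonneg fun i _ => sq_nonneg _).trans (hD fun _ => true)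
  set m := av a with hm
  set b : (Fin n → Bool) → ℝ := fun s => a s - m with hb
  have hbd : ∀ s i, b s - b (fl i s) = a s - a (fl i s) := fun s i => by simp only [hb]; ring
  have hb0 : ∑ s, b s = 0 := by
    simp only [hb]
    rw [Finset.sum_sub_distrib]
    simp only [Finset.sum_const, Finset.card_univ, Fintype.card_pi, Fintype.card_bool,
      Finset.prod_const, Fintype.card_fin, nsmul_eq_mul]
    push_cast
    rw [hm, av]
    field_simp
    ring
  -- second moment
  have h1 : ∑ s, b s ^ 2 ≤ 2 ^ n * (D / 4) := by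
    have e := es n b
    rw [hb0] at e
    have e2 : ∑ i, ∑ s, (b s - b (Function.update s i (!s i))) ^ 2 ≤ 2 ^ n * D := by
      rw [Finset.sum_comm]
      calc ∑ s, ∑ i, (b s - b (Function.update s i (!s i))) ^ 2 ≤ ∑ _s : Fin n → Bool, D := by
            refine Finset.sum_le_sum fun s _ => ?_
            refine le_trans (le_of_eq ?_) (hD s)
            exact Finset.sum_congr rfl fun i _ => by rw [← hbd s i]; rfl
        _ = 2 ^ n * D := by simp
    have e3 : (2:ℝ) ^ n * ∑ s, b s ^ 2 ≤ 2 ^ n * (2 ^ n * (D / 4)) := by nlinarith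
    exact le_of_mul_le_mul_left e3 h2n
  -- fourth moment
  have e := es n (fun s => b s ^ 2)
  have e2 : ∑ i, ∑ s, (b s ^ 2 - b (Function.update s i (!s i)) ^ 2) ^ 2 ≤
      4 * (D * ∑ s, b s ^ 2) := by
    calc ∑ i, ∑ s, (b s ^ 2 - b (Function.update s i (!s i)) ^ 2) ^ 2
        ≤ ∑ i, ∑ s, ((b s - b (fl i s)) ^ 2 * (2 * b s ^ 2) +
            (b s - b (fl i s)) ^ 2 * (2 * b (fl i s) ^ 2)) := by
          refine Finset.sum_le_sum fun i _ => Finset.sum_le_sum fun s _ => ?_
          show (b s ^ 2 - b (fl i s) ^ 2) ^ 2 ≤ _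
          have : (b s ^ 2 - b (fl i s) ^ 2) ^ 2 = (b s - b (fl i s)) ^ 2 * (b s + b (fl i s)) ^ 2 := by
            ring
          rw [this, ← mul_add]
          refine mul_le_mul_of_nonneg_left ?_ (sq_nonneg _)
          nlinarith [sq_nonneg (b s - b (fl i s))]
      _ = ∑ i, ∑ s, (b s - b (fl i s)) ^ 2 * (4 * b s ^ 2) := by
          refine Finset.sum_congr rfl fun i _ => ?_
          rw [Finset.sum_add_distrib]
          have h3 : ∑ s, (b s - b (fl i s)) ^ 2 * (2 * b (fl i s) ^ 2) =
              ∑ s, (b s - b (fl i s)) ^ 2 * (2 * b s ^ 2) := by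
            rw [← sum_fl i]
            refine Finset.sum_congr rfl fun s _ => ?_
            rw [fl_fl]
            ring
          rw [h3, ← Finset.sum_add_distrib]
          exact Finset.sum_congr rfl fun s _ => by ring
      _ = ∑ s, (∑ i, (b s - b (fl i s)) ^ 2) * (4 * b s ^ 2) := by
          rw [Finset.sum_comm]
          exact Finset.sum_congr rfl fun s _ => by rw [Finset.sum_mul]
      _ ≤ ∑ s, D * (4 * b s ^ 2) := by
          refine Finset.sum_le_sum fun s _ => mul_le_mul_of_nonneg_right ?_ (by positivity)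
          refine le_trans (le_of_eq ?_) (hD s)
          exact Finset.sum_congr rfl fun i _ => by rw [hbd s i]
      _ = 4 * (D * ∑ s, b s ^ 2) := by
          rw [Finset.mul_sum, Finset.mul_sum]
          exact Finset.sum_congr rfl fun s _ => by ring
  have hs0 : 0 ≤ ∑ s, b s ^ 2 := Finset.sum_nonneg fun s _ => sq_nonneg _
  have e4 : ∀ s, (b s ^ 2) ^ 2 = (a s - m) ^ 4 := fun s => by simp only [hb]; ring
  simp only [e4] at e
  have e5 : (∑ s, b s ^ 2) ^ 2 ≤ (2 ^ n * (D / 4)) ^ 2 := by gcongr
  have e6 : (2:ℝ) ^ n * ∑ s, (a s - m) ^ 4 ≤ 2 ^ n * (2 ^ n * D ^ 2) := by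
    have e7 : (2:ℝ) ^ n * (1 / 4) * ∑ i, ∑ s, (b s ^ 2 - b (Function.update s i (!s i)) ^ 2) ^ 2 ≤
        2 ^ n * (1 / 4) * (4 * (D * (2 ^ n * (D / 4)))) := by
      gcongr
      exact e2.trans (by gcongr)
    nlinarith [mul_nonneg h2n.le (mul_nonneg h2n.le (sq_nonneg D))]
  exact le_of_mul_le_mul_left e6 h2n

/-- a point of the cube at which many functions are simultaneously close to their means -/
theorem exists_signs {n : ℕ} {ι : Type*} (I : Finset ι) (F : ι → (Fin n → Bool) → ℝ)
    (D W : ι → ℝ) (hW : ∀ k ∈ I, 0 ≤ W k)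
    (hD : ∀ k ∈ I, ∀ s, ∑ i, (F k s - F k (fl i s)) ^ 2 ≤ D k) :
    ∃ s, ∑ k ∈ I, W k * (F k s - av (F k)) ^ 4 ≤ ∑ k ∈ I, W k * D k ^ 2 := by
  by_contra hcon
  push Not at hcon
  have h1 : ∑ _s : Fin n → Bool, ∑ k ∈ I, W k * D k ^ 2 <
      ∑ s, ∑ k ∈ I, W k * (F k s - av (F k)) ^ 4 :=
    Finset.sum_lt_sum_of_nonempty ⟨fun _ => true, Finset.mem_univ _⟩ fun s _ => hcon s
  have h2 : ∑ s, ∑ k ∈ I, W k * (F k s - av (F k)) ^ 4 ≤
      ∑ _s : Fin n → Bool, ∑ k ∈ I, W k * D k ^ 2 := by
    rw [Finset.sum_comm]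
    simp only [Finset.sum_const, Finset.card_univ, Fintype.card_pi, Fintype.card_bool,
      Finset.prod_const, Fintype.card_fin, nsmul_eq_mul]
    push_cast
    rw [Finset.mul_sum]
    refine Finset.sum_le_sum fun k hk => ?_
    rw [← Finset.mul_sum]
    have := fourth (F k) (hD k hk)
    calc W k * ∑ s, (F k s - av (F k)) ^ 4 ≤ W k * (2 ^ n * D k ^ 2) :=
          mul_le_mul_of_nonneg_left this (hW k hk)
      _ = _ := by ring
  exact absurd (h1.trans_le h2) (lt_irrefl _)

/-- signs -/
def sgn (b : Bool) : ℝ := if b then 1 else -1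

lemma sgn_sq (b : Bool) : sgn b ^ 2 = 1 := by cases b <;> simp [sgn]

lemma sgn_not (b : Bool) : sgn (!b) = -sgn b := by cases b <;> simp [sgn]

lemma abs_sgn (b : Bool) : |sgn b| = 1 := by cases b <;> simp [sgn]

/-- the mean of the cosine of a sum with random signs -/
lemma av_cos : ∀ (n : ℕ) (y : Fin n → ℝ) (c : ℝ),
    ∑ s : Fin n → Bool, Real.cos (∑ i, sgn (s i) * y i + c) =
      2 ^ n * (Real.cos c * ∏ i, Real.cos (y i)) := by
  intro n
  induction n with
  | zero => intro y c; simp
  | succ n ih =>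
    intro y c
    rw [sum_cons]
    simp only [Fin.sum_univ_succ, Fin.cons_zero, Fin.cons_succ, Fin.prod_univ_succ]
    rw [← Finset.sum_add_distrib]
    have e : ∀ s : Fin n → Bool, Real.cos (sgn true * y 0 + ∑ i, sgn (s i) * y i.succ + c) +
        Real.cos (sgn false * y 0 + ∑ i, sgn (s i) * y i.succ + c) =
        2 * Real.cos (y 0) * Real.cos (∑ i, sgn (s i) * y i.succ + c) := by
      intro s
      have e1 : sgn true * y 0 + ∑ i, sgn (s i) * y i.succ + c =
          (∑ i, sgn (s i) * y i.succ + c) + y 0 := by simp [sgn]; ring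
      have e2 : sgn false * y 0 + ∑ i, sgn (s i) * y i.succ + c =
          (∑ i, sgn (s i) * y i.succ + c) - y 0 := by simp [sgn]; ring
      rw [e1, e2, Real.cos_add, Real.cos_sub]
      ring
    simp_rw [e]
    rw [← Finset.mul_sum, ih (fun i => y i.succ) c, pow_succ]
    ring

/-- Hadamard matrices of order `2 ^ m` -/
def Hd : ℕ → ℕ → ℕ → ℝ
  | 0, _, _ => 1
  | m + 1, a, c => Hd m (a % 2 ^ m) (c % 2 ^ m) * (if 2 ^ m ≤ a ∧ 2 ^ m ≤ c then -1 else 1)

lemma Hd_sq : ∀ m a c, Hd m a c ^ 2 = 1 := by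
  intro m
  induction m with
  | zero => intro a c; simp [Hd]
  | succ m ih =>
    intro a c
    unfold Hd
    rw [mul_pow, ih]
    split_ifs <;> norm_num

lemma Hd_symm : ∀ m a c, Hd m a c = Hd m c a := by
  intro m
  induction m with
  | zero => intro a c; simp [Hd]
  | succ m ih =>
    intro a c
    unfold Hd
    rw [ih]
    simp only [and_comm]

lemma Hd_orth : ∀ m a a', a < 2 ^ m → a' < 2 ^ m →
    ∑ c ∈ range (2 ^ m), Hd m a c * Hd m a' c = if a = a' then 2 ^ m else 0 := by
  intro m
  induction m with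
  | zero =>
    intro a a' ha ha'
    have h1 : a = 0 := by simpa using ha
    have h2 : a' = 0 := by simpa using ha'
    simp [Hd, h1, h2]
  | succ m ih =>
    intro a a' ha ha'
    rw [pow_succ, mul_two, Finset.sum_range_add]
    have hp : 0 < 2 ^ m := by positivity
    have hm1 := Nat.mod_lt a hp
    have hm2 := Nat.mod_lt a' hp
    set e : ℕ → ℝ := fun a => if 2 ^ m ≤ a then -1 else 1 with he
    have s1 : ∑ c ∈ range (2 ^ m), Hd (m + 1) a c * Hd (m + 1) a' c =
        if a % 2 ^ m = a' % 2 ^ m then 2 ^ m else 0 := by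
      rw [← ih _ _ hm1 hm2]
      refine Finset.sum_congr rfl fun c hc => ?_
      rw [Finset.mem_range] at hc
      have h1 : ¬ (2 ^ m ≤ c) := by omega
      simp only [Hd, h1, and_false, if_false, mul_one, Nat.mod_eq_of_lt hc]
    have s2 : ∑ c ∈ range (2 ^ m), Hd (m + 1) a (2 ^ m + c) * Hd (m + 1) a' (2 ^ m + c) =
        e a * e a' * if a % 2 ^ m = a' % 2 ^ m then 2 ^ m else 0 := by
      rw [← ih _ _ hm1 hm2, Finset.mul_sum]
      refine Finset.sum_congr rfl fun c hc => ?_
      rw [Finset.mem_range] at hc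
      have h1 : 2 ^ m ≤ 2 ^ m + c := by omega
      have h2 : (2 ^ m + c) % 2 ^ m = c := by
        rw [Nat.add_mod_left, Nat.mod_eq_of_lt hc]
      simp only [Hd, h1, and_true, h2, he]
      ring
    rw [s1, s2]
    by_cases hmod : a % 2 ^ m = a' % 2 ^ m
    · rw [if_pos hmod]
      by_cases haa : a = a'
      · subst haa
        rw [if_pos rfl]
        have : e a * e a = 1 := by simp only [he]; split_ifs <;> norm_num
        rw [this, pow_succ]; ring
      · rw [if_neg haa]
        have : e a * e a' = -1 := by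
          simp only [he]
          have hda := Nat.div_add_mod a (2 ^ m)
          have hda' := Nat.div_add_mod a' (2 ^ m)
          by_cases h1 : 2 ^ m ≤ a
          · by_cases h2 : 2 ^ m ≤ a'
            · exfalso
              apply haa
              have e1 : a % 2 ^ m = a - 2 ^ m := by
                rw [Nat.mod_eq_sub_mod h1, Nat.mod_eq_of_lt (by rw [pow_succ] at ha; omega)]
              have e2 : a' % 2 ^ m = a' - 2 ^ m := by
                rw [Nat.mod_eq_sub_mod h2, Nat.mod_eq_of_lt (by rw [pow_succ] at ha'; omega)]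
              omega
            · rw [if_pos h1, if_neg h2]; norm_num
          · by_cases h2 : 2 ^ m ≤ a'
            · rw [if_neg h1, if_pos h2]; norm_num
            · exfalso
              apply haa
              rw [Nat.mod_eq_of_lt (not_le.1 h1), Nat.mod_eq_of_lt (not_le.1 h2)] at hmod
              exact hmod
        rw [this]
        ring
    · rw [if_neg hmod, if_neg (fun h => hmod (by rw [h]))]
      ring

end Pool.Agent.U34.BW
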