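import Pool.Agent.U34.BW.Mass

/-!
# Equidistribution of the mass on all sets and on shrinking sets
-/

set_option autoImplicit false

open MeasureTheory Finset Filter Topology ProbabilityTheory

namespace Pool.Agent.U34.BW

variable {X : Type*} [MeasurableSpace X] {μ : Measure X}

/-- a slowly growing part of a sequence of positive numbers -/
lemma slow {θ : ℝ} (hθ : 0 < θ) (S : ℕ → ℝ) (h0 : S 0 = 0) :
    ∃ R : ℕ → ℕ, (∀ j : ℕ, S (R j) ≤ ((j : ℝ) + 1) ^ θ) ∧ ∀ r, ∀ᶠ j in atTop, r ≤ R j := by
  classical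
  refine ⟨fun j => Nat.findGreatest (fun R => S R ≤ ((j : ℝ) + 1) ^ θ) j, fun j => ?_,
    fun r => ?_⟩
  · exact Nat.findGreatest_spec (P := fun R => S R ≤ ((j : ℝ) + 1) ^ θ) (Nat.zero_le j)
      (by rw [h0]; positivity)
  · have h1 : Tendsto (fun n : ℕ => ((n : ℝ) + 1)) atTop atTop :=
      tendsto_atTop_add_const_right _ _ tendsto_natCast_atTop_atTop
    have h2 := ((tendsto_rpow_atTop hθ).comp h1).eventually_ge_atTop (S r)
    filter_upwards [h2, eventually_ge_atTop r] with j hj hr
    exact Nat.le_findGreatest hr hj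

/-- **Equidistribution of the mass for small perturbations.** -/
theorem equi [TopologicalSpace X] [SecondCountableTopology X] [OpensMeasurableSpace X]
    [IsProbabilityMeasure μ] {φ : ℕ → X → ℝ} {om : ℕ → ℝ} {d : ℕ} (hd : 2 ≤ d)
    {θ σ ε : ℝ} (hθ0 : 0 < θ) (hθ1 : θ < 1) (hσ0 : 0 ≤ σ) (hσ : 1 - d * (1 - θ) / 2 < σ)
    (hε : 0 < ε) (h : ONF μ φ) (hmono : Monotone om) (h0 : 0 ≤ om 0)
    (hweyl : ∃ κ C : ℝ, 0 < κ ∧ ∀ n : ℕ, |om n ^ d - κ * n| ≤ C * ((n : ℝ) + 1) ^ θ)
    (hlaw : ∃ C : ℝ, ∀ᵐ x ∂μ, ∀ n : ℕ, |∑ i ∈ range n, φ i x ^ 2 - n| ≤ C * ((n : ℝ) + 1) ^ θ)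
    (E : ℕ → ℕ → Set X) (M : ℕ → ℕ) (hE : ∀ j q, MeasurableSet (E j q))
    (hE0 : ∀ j q, q < M j → μ (E j q) ≠ 0)
    (hsum : ∃ C : ℝ, ∀ j, ∑ q ∈ range (M j), (1 / μ.real (E j q)) ^ 4 ≤ C * ((j : ℝ) + 1) ^ θ) :
    ∃ (k u : ℕ → ℕ → ℝ) (I : ℕ → Finset ℕ) (lam' : ℕ → ℝ),
      Perturb (fun i => om i ^ 2) ε σ k u I lam' ∧
      (∀ D : Set X, IsOpen D → μ (frontier D) = 0 →
        Tendsto (fun j => ∫ x in D, (∑ i ∈ I j, u j i * φ i x) ^ 2 ∂μ) atTop (𝓝 (μ.real D))) ∧
      ∀ δ : ℝ, 0 < δ → ∀ᶠ j in atTop, ∀ q < M j,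
        |∫ x in E j q, (∑ i ∈ I j, u j i * φ i x) ^ 2 ∂μ - μ.real (E j q)| ≤
          δ * μ.real (E j q) := by
  classical
  -- finite unions of basic open sets
  set B := TopologicalSpace.countableBasis X with hB
  have hBc : B.Countable := TopologicalSpace.countable_countableBasis X
  have hFc : ({f : Set (Set X) | f.Finite ∧ f ⊆ B}).Countable :=
    Set.countable_ofPred_finite_subset hBc
  have hne : ({f : Set (Set X) | f.Finite ∧ f ⊆ B}).Nonempty :=
    ⟨∅, Set.finite_empty, Set.empty_subset _⟩
  obtain ⟨f, hf⟩ := hFc.exists_eq_range hne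
  have hfm : ∀ r, (f r).Finite ∧ f r ⊆ B := fun r => by
    have : f r ∈ {f : Set (Set X) | f.Finite ∧ f ⊆ B} := by rw [hf]; exact ⟨r, rfl⟩
    exact this
  set W : ℕ → Set X := fun r => ⋃₀ f r with hW
  have hWo : ∀ r, IsOpen (W r) := fun r =>
    isOpen_sUnion fun t ht => TopologicalSpace.isOpen_of_mem_countableBasis ((hfm r).2 ht)
  set W' : ℕ → Set X := fun r => if μ (W r) = 0 then Set.univ else W r with hW'
  have hW'm : ∀ r, MeasurableSet (W' r) := fun r => by
    simp only [hW']; split_ifs
    · exact MeasurableSet.univ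
    · exact (hWo r).measurableSet
  have hW'0 : ∀ r, μ (W' r) ≠ 0 := fun r => by
    simp only [hW']; split_ifs with hr
    · simp
    · exact hr
  set S : ℕ → ℝ := fun R => ∑ r ∈ range R, (1 / μ.real (W' r)) ^ 4 with hS
  obtain ⟨R, hR1, hR2⟩ := slow hθ0 S (by simp [hS])
  set E' : ℕ → ℕ → Set X := fun j q => if q < M j then E j q else W' (q - M j) with hE'
  obtain ⟨C, hsum⟩ := hsum
  obtain ⟨k, u, I, lam', hP, hmass⟩ := mass hd hθ0.le hθ1 hσ0 hσ hε h hmono h0 hweyl hlaw E'
    (fun j => M j + R j) (fun j q => by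
      simp only [hE']; split_ifs
      · exact hE _ _
      · exact hW'm _) (fun j q _ => by
      simp only [hE']; split_ifs with h1
      · exact hE0 _ _ h1
      · exact hW'0 _) ⟨C + 1, fun j => by
      rw [Finset.sum_range_add, add_mul, one_mul]
      refine add_le_add ((Finset.sum_congr rfl fun q hq => ?_).trans_le (hsum j))
        ((Finset.sum_congr rfl fun q _ => ?_).trans_le (hR1 j))
      · simp only [hE']
        rw [if_pos (Finset.mem_range.1 hq)]
      · simp only [hE']
        rw [if_neg (by omega), Nat.add_sub_cancel_left]⟩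
  refine ⟨k, u, I, lam', hP, ?_, fun δ hδ => ?_⟩
  · set v : ℕ → X → ℝ := fun j x => ∑ i ∈ I j, u j i * φ i x with hv
    have hvm : ∀ j, MemLp (v j) 2 μ := fun j => memLp_finsetSum _ fun i _ => (h.mem i).const_mul _
    have hvi : ∀ j, Integrable (fun x => v j x ^ 2) μ := fun j => (hvm j).integrable_sq
    have htot : ∀ j, ∫ x, v j x ^ 2 ∂μ = 1 := by
      intro j
      have h1 := h.comb_mul (I j) (u j) (u j)
      have h2 := hP.rows j j
      rw [if_pos rfl] at h2
      rw [h2] at h1
      rw [← h1]
      exact integral_congr_ae (Eventually.of_forall fun x => sq _)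
    -- lower bound for open sets
    have hlow : ∀ G : Set X, IsOpen G → ∀ η : ℝ, 0 < η → ∀ᶠ j in atTop,
        μ.real G - η ≤ ∫ x in G, v j x ^ 2 ∂μ := by
      intro G hG η hη
      -- a finite union of basic sets of almost full measure
      have hex : ∃ r, W r ⊆ G ∧ μ.real G - η / 2 ≤ μ.real (W r) := by
        obtain ⟨t, htB, htc, htG⟩ : ∃ t : Set (Set X), t ⊆ B ∧ t.Countable ∧ G = ⋃₀ t := by
          obtain ⟨t, ht, htG⟩ := (TopologicalSpace.isBasis_countableBasis X).open_eq_sUnion hG
          exact ⟨t, ht, hBc.mono ht, htG⟩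
        rcases t.eq_empty_or_nonempty with rfl | htne
        · have h1 : (∅ : Set (Set X)) ∈ {f : Set (Set X) | f.Finite ∧ f ⊆ B} :=
            ⟨Set.finite_empty, Set.empty_subset _⟩
          rw [hf] at h1
          obtain ⟨r, hr⟩ := h1
          refine ⟨r, ?_, ?_⟩
          · simp only [hW]; rw [hr]; simp
          · have : G = ∅ := by rw [htG]; simp
            rw [this]; simp only [measureReal_empty]
            have := measureReal_nonneg (μ := μ) (s := W r)
            linarith
        · obtain ⟨e, he⟩ := htc.exists_eq_range htne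
          have hmono : Monotone (fun n : ℕ => ⋃ i ∈ Finset.range n, e i) := by
            intro a b hab x hx
            simp only [Set.mem_iUnion, Finset.mem_range, exists_prop] at hx ⊢
            obtain ⟨i, hi, hx⟩ := hx
            exact ⟨i, by omega, hx⟩
          have hU : G = ⋃ n : ℕ, ⋃ i ∈ Finset.range n, e i := by
            rw [htG, he, Set.sUnion_range]
            ext x
            simp only [Set.mem_iUnion, Finset.mem_range, exists_prop]
            exact ⟨fun ⟨i, hi⟩ => ⟨i + 1, i, by omega, hi⟩, fun ⟨n, i, _, hi⟩ => ⟨i, hi⟩⟩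
          have h1 : Tendsto (fun n : ℕ => μ.real (⋃ i ∈ Finset.range n, e i)) atTop
              (𝓝 (μ.real G)) := by
            rw [hU]
            exact (ENNReal.tendsto_toReal (measure_ne_top μ _)).comp
              (tendsto_measure_iUnion_atTop hmono)
          obtain ⟨n, hn⟩ := (h1.eventually (lt_mem_nhds (by linarith :
            μ.real G - η / 2 < μ.real G))).exists
          have h2 : e '' (Finset.range n : Set ℕ) ∈ {f : Set (Set X) | f.Finite ∧ f ⊆ B} := by
            refine ⟨(Finset.finite_toSet _).image _, ?_⟩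
            rintro _ ⟨i, -, rfl⟩
            exact htB (by rw [he]; exact ⟨i, rfl⟩)
          rw [hf] at h2
          obtain ⟨r, hr⟩ := h2
          have h3 : W r = ⋃ i ∈ Finset.range n, e i := by
            simp only [hW]
            rw [hr, Set.sUnion_image]
            simp
          refine ⟨r, ?_, ?_⟩
          · rw [h3, hU]
            exact Set.subset_iUnion (fun n : ℕ => ⋃ i ∈ Finset.range n, e i) n
          · rw [h3]; exact hn.le
      obtain ⟨r, hr1, hr2⟩ := hex
      by_cases hr0 : μ (W r) = 0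
      · have e1 : μ.real (W r) = 0 := by rw [Measure.real, hr0]; rfl
        refine Eventually.of_forall fun j => ?_
        have : 0 ≤ ∫ x in G, v j x ^ 2 ∂μ := integral_nonneg fun x => sq_nonneg _
        linarith
      · filter_upwards [hmass (η / 2) (by positivity), hR2 (r + 1)] with j hj hjr
        have h4 := hj (M j + r) (by omega)
        have e1 : E' j (M j + r) = W r := by
          simp only [hE', hW']
          rw [if_neg (by omega), Nat.add_sub_cancel_left, if_neg hr0]
        rw [e1] at h4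
        have h5 : ∫ x in W r, v j x ^ 2 ∂μ ≤ ∫ x in G, v j x ^ 2 ∂μ :=
          setIntegral_mono_set (hvi j).integrableOn
            (Eventually.of_forall fun x => sq_nonneg _) (Eventually.of_forall hr1)
        have h6 := (abs_le.1 h4).1
        have h7 : μ.real (W r) ≤ 1 := measureReal_le_one
        have h8 : η / 2 * μ.real (W r) ≤ η / 2 := by nlinarith
        linarith
    intro D hD hfr
    rw [Metric.tendsto_atTop]
    intro η hη
    have hcl : IsOpen (closure D)ᶜ := isClosed_closure.isOpen_compl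
    have hmcl : μ.real (closure D) = μ.real D := by
      have h1 : μ (closure D) = μ D := by
        refine le_antisymm ?_ (measure_mono subset_closure)
        calc μ (closure D) ≤ μ (D ∪ frontier D) := by
              refine measure_mono ?_
              rw [closure_eq_self_union_frontier]
          _ ≤ μ D + μ (frontier D) := measure_union_le _ _
          _ = μ D := by rw [hfr, add_zero]
      rw [Measure.real, h1]; rfl
    have hmc : μ.real (closure D)ᶜ = 1 - μ.real D := by
      rw [← hmcl]
      exact probReal_compl_eq_one_sub isClosed_closure.measurableSet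
    obtain ⟨J, hJ⟩ := eventually_atTop.1 ((hlow D hD (η / 2) (by positivity)).and
      (hlow _ hcl (η / 2) (by positivity)))
    refine ⟨J, fun j hj => ?_⟩
    obtain ⟨h1, h2⟩ := hJ j hj
    rw [hmc] at h2
    have h3 : ∫ x in D, v j x ^ 2 ∂μ + ∫ x in (closure D)ᶜ, v j x ^ 2 ∂μ ≤ 1 := by
      rw [← setIntegral_union (by
        rw [Set.disjoint_compl_right_iff_subset]; exact subset_closure) hcl.measurableSet
        (hvi j).integrableOn (hvi j).integrableOn, ← htot j]
      exact setIntegral_le_integral (hvi j) (Eventually.of_forall fun x => sq_nonneg _)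
    rw [Real.dist_eq, abs_lt]
    constructor <;> linarith
  · filter_upwards [hmass δ hδ] with j hj q hq
    have h1 := hj q (by omega)
    have e1 : E' j q = E j q := by simp only [hE']; rw [if_pos hq]
    rwa [e1] at h1

end Pool.Agent.U34.BW
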