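import Pool.Agent.U34.BW.Val

/-!
# Local fields of the eigenfunctions of small perturbations
-/

set_option autoImplicit false

open MeasureTheory Finset Filter Topology ProbabilityTheory
open scoped BoundedContinuousFunction NNReal ENNReal

namespace Pool.Agent.U34.BW

variable {X : Type*} [MeasurableSpace X] {μ : Measure X}

/-- a bound for the synthesis operator gives the Bessel type bound -/
lemma bes_of_synth {n : ℕ} {ψ : Fin n → X → ℝ} (hψ : ∀ i, MemLp (ψ i) 2 μ) {C : ℝ} (hC : 0 ≤ C)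
    (h : ∀ c : Fin n → ℝ, ∫ x, (∑ i, c i * ψ i x) ^ 2 ∂μ ≤ C * ∑ i, c i ^ 2) : Bes μ ψ C := by
  refine ⟨hψ, fun g hg => ?_, hC⟩
  set c : Fin n → ℝ := fun i => ∫ x, ψ i x * g x ∂μ with hc
  have hS : MemLp (fun x => ∑ i, c i * ψ i x) 2 μ :=
    memLp_finsetSum _ fun i _ => (hψ i).const_mul _
  have e1 : ∑ i, c i ^ 2 = ∫ x, (∑ i, c i * ψ i x) * g x ∂μ := by
    have hi : ∀ i ∈ (Finset.univ : Finset (Fin n)), Integrable (fun x => c i * (ψ i x * g x)) μ :=
      fun i _ => ((hψ i).integrable_mul hg).const_mul _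
    have e2 : ∀ i, c i ^ 2 = ∫ x, c i * (ψ i x * g x) ∂μ := fun i => by
      rw [integral_const_mul, sq]
    simp_rw [e2]
    rw [← integral_finsetSum _ hi]
    refine integral_congr_ae (Eventually.of_forall fun x => ?_)
    show ∑ i, c i * (ψ i x * g x) = (∑ i, c i * ψ i x) * g x
    rw [Finset.sum_mul]
    exact Finset.sum_congr rfl fun i _ => by ring
  have h1 := real_inner_mul_inner_self_le (hS.toLp _) (hg.toLp g)
  rw [inner_toLp, inner_toLp, inner_toLp] at h1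
  have e3 : ∫ x, (∑ i, c i * ψ i x) * (∑ i, c i * ψ i x) ∂μ =
      ∫ x, (∑ i, c i * ψ i x) ^ 2 ∂μ := by
    refine integral_congr_ae (Eventually.of_forall fun x => ?_)
    exact (sq _).symm
  have e4 : ∫ x, g x * g x ∂μ = ∫ x, g x ^ 2 ∂μ := by
    refine integral_congr_ae (Eventually.of_forall fun x => ?_)
    exact (sq _).symm
  rw [e3, e4, ← e1] at h1
  have h2 : 0 ≤ ∫ x, g x ^ 2 ∂μ := integral_nonneg fun x => sq_nonneg _
  have h3 : 0 ≤ ∑ i, c i ^ 2 := Finset.sum_nonneg fun i _ => sq_nonneg _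
  have h4 : (∑ i, c i ^ 2) * (∑ i, c i ^ 2) ≤ (C * ∑ i, c i ^ 2) * ∫ x, g x ^ 2 ∂μ :=
    h1.trans (mul_le_mul_of_nonneg_right (h c) h2)
  show ∑ i, c i ^ 2 ≤ C * ∫ x, g x ^ 2 ∂μ
  by_contra hcon
  rw [not_le] at hcon
  have h5 : 0 < ∑ i, c i ^ 2 := lt_of_le_of_lt (by positivity) hcon
  nlinarith

/-- The eigenfunctions `φ i` and frequencies `om i` (the square roots of the eigenvalues) of an
operator on a part `Ω` of a space `X` of dimension `d` with reference measure `m`; the functions are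
extended by `0`, and they are normalised with respect to the normalised measure. `T r z p` is the
point with the coordinate `z / r` in a coordinate system centred at `p` (in the plane: `p + z / r`).
`F` is the covariance function of the limit field. The fields `weyl` and `law` are Weyl's law and
the local Weyl law on the scale of the wavelength, both with a remainder `O(n ^ θ)`. -/
structure LocSys [MetricSpace X] (m : Measure X) (Ω : Set X) {d : ℕ}
    (T : ℝ → EuclideanSpace ℝ (Fin d) → X → X) (F : ℝ → ℝ) (φ : ℕ → X → ℝ) (om : ℕ → ℝ) (θ : ℝ)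
    (C₀ : ℝ≥0) : Prop where
  measΩ : MeasurableSet Ω
  pos : m Ω ≠ 0
  fin : m Ω ≠ ∞
  supp : ∀ i x, x ∉ Ω → φ i x = 0
  meas : ∀ i, Measurable (φ i)
  onf : ONF (ProbabilityTheory.cond m Ω) φ
  mono : Monotone om
  nonneg : 0 ≤ om 0
  weyl : ∃ κ C : ℝ, 0 < κ ∧ ∀ n : ℕ, |om n ^ d - κ * n| ≤ C * ((n : ℝ) + 1) ^ θ
  Tmeas : ∀ r z, Measurable (T r z)
  Tbd : ∀ r z, m.map (T r z) ≤ C₀ • m
  Tnear : ∀ z, ∀ᵐ p ∂(m.restrict Ω), Tendsto (fun r => T r z p) atTop (𝓝 p)
  Tdist : ∀ z z', ∀ᵐ p ∂(m.restrict Ω),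
    Tendsto (fun r => r * dist (T r z p) (T r z' p)) atTop (𝓝 ‖z - z'‖)
  Fcont : Continuous F
  F0 : F 0 = 1
  law : ∀ᵐ p ∂(m.restrict Ω), ∀ R : ℝ, ∃ C δ : ℝ, 0 < δ ∧ ∀ (n : ℕ) (q q' : X), dist q p < δ →
    dist q' p < δ → om n * dist q q' ≤ R →
      |∑ i ∈ range n, (φ i q * φ i q' - F (om i * dist q q'))| ≤ C * ((n : ℝ) + 1) ^ θ

variable [MetricSpace X] {m : Measure X} {Ω : Set X} {d : ℕ}
  {T : ℝ → EuclideanSpace ℝ (Fin d) → X → X} {F : ℝ → ℝ} {φ : ℕ → X → ℝ} {om : ℕ → ℝ} {θ : ℝ}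
  {C₀ : ℝ≥0}


omit [MetricSpace X] in
/-- composition with the maps of the coordinate system -/
lemma comp_bd {m : Measure X} {Ω : Set X} (hΩ : MeasurableSet Ω)
    {S : X → X} (hS : Measurable S) {C₀ : ℝ≥0} (hC : m.map S ≤ C₀ • m) {f : X → ℝ}
    (hfm : Measurable f) (hf0 : ∀ x, x ∉ Ω → f x = 0)
    (hL : MemLp f 2 (ProbabilityTheory.cond m Ω)) :
    MemLp (fun x => f (S x)) 2 (ProbabilityTheory.cond m Ω) ∧
      ∫ x, f (S x) ^ 2 ∂(ProbabilityTheory.cond m Ω) ≤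
        C₀ * ∫ x, f x ^ 2 ∂(ProbabilityTheory.cond m Ω) := by
  set μ := ProbabilityTheory.cond m Ω with hμ
  have hμe : μ = (m Ω)⁻¹ • m.restrict Ω := rfl
  have key : ∫⁻ x, ENNReal.ofReal (f (S x) ^ 2) ∂μ ≤ C₀ * ∫⁻ x, ENNReal.ofReal (f x ^ 2) ∂μ := by
    have hm2 : Measurable fun x => ENNReal.ofReal (f x ^ 2) := (hfm.pow_const 2).ennreal_ofReal
    rw [hμe, lintegral_smul_measure, lintegral_smul_measure]
    have e1 : ∫⁻ x in Ω, ENNReal.ofReal (f (S x) ^ 2) ∂m ≤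
        ∫⁻ x, ENNReal.ofReal (f (S x) ^ 2) ∂m := setLIntegral_le_lintegral _ _
    have e2 : ∫⁻ x, ENNReal.ofReal (f (S x) ^ 2) ∂m =
        ∫⁻ x, ENNReal.ofReal (f x ^ 2) ∂(m.map S) := (lintegral_map hm2 hS).symm
    have e3 : ∫⁻ x, ENNReal.ofReal (f x ^ 2) ∂(m.map S) ≤
        C₀ * ∫⁻ x, ENNReal.ofReal (f x ^ 2) ∂m := by
      calc ∫⁻ x, ENNReal.ofReal (f x ^ 2) ∂(m.map S)
          ≤ ∫⁻ x, ENNReal.ofReal (f x ^ 2) ∂(C₀ • m) := lintegral_mono' hC le_rfl
        _ = _ := by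
            rw [show (C₀ • m : Measure X) = (C₀ : ℝ≥0∞) • m from rfl, lintegral_smul_measure,
              smul_eq_mul]
    have e4 : ∫⁻ x, ENNReal.ofReal (f x ^ 2) ∂m = ∫⁻ x in Ω, ENNReal.ofReal (f x ^ 2) ∂m := by
      rw [← lintegral_indicator hΩ]
      refine lintegral_congr fun x => ?_
      by_cases hx : x ∈ Ω
      · rw [Set.indicator_of_mem hx]
      · rw [Set.indicator_of_notMem hx, hf0 x hx]
        simp
    rw [e2] at e1
    rw [e4] at e3
    calc (m Ω)⁻¹ * ∫⁻ x in Ω, ENNReal.ofReal (f (S x) ^ 2) ∂m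
        ≤ (m Ω)⁻¹ * (C₀ * ∫⁻ x in Ω, ENNReal.ofReal (f x ^ 2) ∂m) := by
          gcongr
          exact e1.trans e3
      _ = _ := by
          simp only [smul_eq_mul]
          ring
  have hsqi : Integrable (fun x => f x ^ 2) μ := hL.integrable_sq
  have hfin : ∫⁻ x, ENNReal.ofReal (f x ^ 2) ∂μ < ∞ := by
    have := hsqi.2
    rw [hasFiniteIntegral_iff_ofReal (Eventually.of_forall fun x => sq_nonneg _)] at this
    exact this
  have hfin2 : ∫⁻ x, ENNReal.ofReal (f (S x) ^ 2) ∂μ < ∞ :=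
    key.trans_lt (ENNReal.mul_lt_top (by simp) hfin)
  have hmeas : AEStronglyMeasurable (fun x => f (S x)) μ :=
    (hfm.comp hS).aestronglyMeasurable
  have hsqi2 : Integrable (fun x => f (S x) ^ 2) μ := by
    refine ⟨((hfm.comp hS).pow_const 2).aestronglyMeasurable, ?_⟩
    rw [hasFiniteIntegral_iff_ofReal (Eventually.of_forall fun x => sq_nonneg _)]
    exact hfin2
  refine ⟨(memLp_two_iff_integrable_sq hmeas).2 hsqi2, ?_⟩
  rw [integral_eq_lintegral_of_nonneg_ae (Eventually.of_forall fun x => sq_nonneg _) hsqi2.1,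
    integral_eq_lintegral_of_nonneg_ae (Eventually.of_forall fun x => sq_nonneg _) hsqi.1]
  have h5 := ENNReal.toReal_mono (ENNReal.mul_ne_top (by simp) hfin.ne) key
  rw [ENNReal.toReal_mul] at h5
  exact h5

/-- the Bessel bound for the local fields -/
lemma LocSys.bes (h : LocSys m Ω T F φ om θ C₀) (r : ℝ) (z : EuclideanSpace ℝ (Fin d)) (b n : ℕ) :
    Bes (ProbabilityTheory.cond m Ω) (fun (i : Fin n) x => φ (b + i) (T r z x)) C₀ := by
  refine bes_of_synth (fun i => (comp_bd h.measΩ (h.Tmeas r z) (h.Tbd r z)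
    (h.meas _) (h.supp _) (h.onf.mem _)).1) C₀.2 fun c => ?_
  have hm : Measurable fun x => ∑ i : Fin n, c i * φ (b + i) x :=
    Finset.measurable_fun_sum _ fun i _ => (h.meas _).const_mul _
  have hs : ∀ x, x ∉ Ω → ∑ i : Fin n, c i * φ (b + i) x = 0 := fun x hx =>
    Finset.sum_eq_zero fun i _ => by rw [h.supp _ x hx, mul_zero]
  have hL : MemLp (fun x => ∑ i : Fin n, c i * φ (b + i) x) 2 (ProbabilityTheory.cond m Ω) :=
    memLp_finsetSum _ fun i _ => (h.onf.mem _).const_mul _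
  have h1 := (comp_bd h.measΩ (h.Tmeas r z) (h.Tbd r z) hm hs hL).2
  refine h1.trans (le_of_eq ?_)
  congr 1
  set c' : ℕ → ℝ := fun i => if hi : i - b < n then c ⟨i - b, hi⟩ else 0 with hc'
  have h2 := h.onf.comb_mul (Finset.Ico b (b + n)) c' c'
  have e1 : ∀ f : ℕ → ℝ, ∑ i ∈ Finset.Ico b (b + n), c' i * f i =
      ∑ i : Fin n, c i * f (b + i) := by
    intro f
    rw [Finset.sum_Ico_eq_sum_range, Nat.add_sub_cancel_left, Finset.sum_range]
    refine Finset.sum_congr rfl fun i _ => ?_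
    simp only [hc', Nat.add_sub_cancel_left]
    rw [dif_pos i.2]
  simp only [e1] at h2
  have e2 : ∑ i : Fin n, c i * c' (b + i) = ∑ i, c i ^ 2 := by
    refine Finset.sum_congr rfl fun i _ => ?_
    simp only [hc', Nat.add_sub_cancel_left]
    rw [dif_pos i.2, sq]
  rw [e2] at h2
  rw [← h2]
  refine integral_congr_ae (Eventually.of_forall fun x => ?_)
  exact sq _

end Pool.Agent.U34.BW
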