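import Pool.Agent.U34.BW.Orth

/-!
# Limit laws of the mixed functions
-/

set_option autoImplicit false

open MeasureTheory Finset Filter Topology ProbabilityTheory

namespace Pool.Agent.U34.BW

variable {X : Type*} [MeasurableSpace X] {μ : Measure X}

lemma cos_lip (a b : ℝ) : |Real.cos a - Real.cos b| ≤ |a - b| := by
  have h1 := Real.cos_sub_cos a b
  have h2 : |Real.sin ((a - b) / 2)| ≤ |(a - b) / 2| := Real.abs_sin_le_abs
  have h3 := Real.abs_sin_le_one ((a + b) / 2)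
  rw [h1, abs_mul, abs_mul, abs_neg, abs_of_pos (by norm_num : (0:ℝ) < 2)]
  rw [abs_div, abs_of_pos (by norm_num : (0:ℝ) < 2)] at h2
  have h4 := abs_nonneg (Real.sin ((a + b) / 2))
  have h5 := abs_nonneg (Real.sin ((a - b) / 2))
  have h6 : |Real.sin ((a + b) / 2)| * |Real.sin ((a - b) / 2)| ≤ 1 * (|a - b| / 2) := by gcongr
  nlinarith

/-- from rational to real parameters -/
lemma ext_real [IsProbabilityMeasure μ] {k : ℕ} (V : ℕ → Fin k → X → ℝ)
    (hV : ∀ j a, MemLp (V j a) 2 μ) {C : ℝ} (hC : ∀ j a, ∫ x, V j a x ^ 2 ∂μ ≤ C) (c : ℝ)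
    {G : (Fin k → ℝ) → ℝ} (hG : Continuous G)
    (h : ∀ t : Fin k → ℚ, Tendsto (fun j => ∫ x, Real.cos (∑ a, (t a : ℝ) * V j a x + c) ∂μ) atTop
      (𝓝 (G fun a => (t a : ℝ)))) (t : Fin k → ℝ) :
    Tendsto (fun j => ∫ x, Real.cos (∑ a, t a * V j a x + c) ∂μ) atTop (𝓝 (G t)) := by
  have hmeas : ∀ (t : Fin k → ℝ) j, Integrable (fun x => Real.cos (∑ a, t a * V j a x + c)) μ := by
    intro t j
    refine int_bdd (Real.continuous_cos.comp_aestronglyMeasurable
      (AEStronglyMeasurable.add ?_ aestronglyMeasurable_const)) fun x => Real.abs_cos_le_one _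
    exact Finset.aestronglyMeasurable_fun_sum _ fun a _ => (hV j a).1.const_mul _
  have habs : ∀ j a, ∫ x, |V j a x| ∂μ ≤ 1 + C := by
    intro j a
    have i1 : Integrable (fun x => |V j a x|) μ :=
      ((hV j a).integrable (by norm_num)).abs
    have i2 : Integrable (fun x => 1 + V j a x ^ 2) μ :=
      (integrable_const 1).add (hV j a).integrable_sq
    calc ∫ x, |V j a x| ∂μ ≤ ∫ x, (1 + V j a x ^ 2) ∂μ := by
          refine integral_mono i1 i2 fun x => ?_
          show |V j a x| ≤ 1 + V j a x ^ 2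
          rw [← sq_abs (V j a x)]
          nlinarith [sq_nonneg (|V j a x| - 1), abs_nonneg (V j a x)]
      _ = 1 + ∫ x, V j a x ^ 2 ∂μ := by
          rw [integral_add (integrable_const 1) (hV j a).integrable_sq]
          simp
      _ ≤ 1 + C := by linarith [hC j a]
  have hlip : ∀ (t t' : Fin k → ℝ) j, |∫ x, Real.cos (∑ a, t a * V j a x + c) ∂μ -
      ∫ x, Real.cos (∑ a, t' a * V j a x + c) ∂μ| ≤ ∑ a, |t a - t' a| * (1 + C) := by
    intro t t' j
    have i3 : ∀ a, Integrable (fun x => |t a - t' a| * |V j a x|) μ := fun a =>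
      (((hV j a).integrable (by norm_num)).abs).const_mul _
    rw [← integral_sub (hmeas t j) (hmeas t' j), ← Real.norm_eq_abs]
    calc ‖∫ x, (Real.cos (∑ a, t a * V j a x + c) - Real.cos (∑ a, t' a * V j a x + c)) ∂μ‖
        ≤ ∫ x, ∑ a, |t a - t' a| * |V j a x| ∂μ := by
          refine norm_integral_le_of_norm_le (integrable_finsetSum _ fun a _ => i3 a)
            (Eventually.of_forall fun x => ?_)
          rw [Real.norm_eq_abs]
          refine (cos_lip _ _).trans ?_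
          have e : ∑ a, t a * V j a x + c - (∑ a, t' a * V j a x + c) =
              ∑ a, (t a - t' a) * V j a x := by
            rw [add_sub_add_right_eq_sub, ← Finset.sum_sub_distrib]
            exact Finset.sum_congr rfl fun a _ => by ring
          rw [e]
          refine (Finset.abs_sum_le_sum_abs _ _).trans ?_
          exact Finset.sum_le_sum fun a _ => by rw [abs_mul]
      _ = ∑ a, |t a - t' a| * ∫ x, |V j a x| ∂μ := by
          rw [integral_finsetSum _ fun a _ => i3 a]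
          exact Finset.sum_congr rfl fun a _ => integral_const_mul _ _
      _ ≤ _ := Finset.sum_le_sum fun a _ => mul_le_mul_of_nonneg_left (habs j a) (abs_nonneg _)
  by_cases hk : k = 0
  · subst hk
    have e : (fun a => (((fun a => a.elim0 : Fin 0 → ℚ) a : ℚ) : ℝ)) = t := funext fun a => a.elim0
    have := h (fun a => a.elim0)
    rw [e] at this
    refine this.congr fun j => ?_
    simp
  have hC0 : 0 ≤ 1 + C := by
    have := habs 0 ⟨0, Nat.pos_of_ne_zero hk⟩
    exact (integral_nonneg fun x => abs_nonneg _).trans this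
  rw [Metric.tendsto_atTop]
  intro ε hε
  set L : ℝ := k * (1 + C) + 1 with hL
  have hL0 : 0 < L := by positivity
  have hdense : DenseRange (fun (r : Fin k → ℚ) (a : Fin k) => (r a : ℝ)) :=
    DenseRange.piMap fun _ => Rat.denseRange_cast
  have hopen : {t' : Fin k → ℝ | dist t' t < ε / (3 * L)} ∩ {t' | dist (G t') (G t) < ε / 3} ∈
      𝓝 t := by
    refine inter_mem (Metric.ball_mem_nhds _ (by positivity)) ?_
    exact (hG.tendsto t) (Metric.ball_mem_nhds _ (by positivity))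
  obtain ⟨t', ⟨r, hr⟩, h1, h2⟩ := hdense.inter_nhds_nonempty hopen
  simp only [Set.mem_setOf_eq] at h1 h2
  simp only at hr
  obtain ⟨J, hJ⟩ := Metric.tendsto_atTop.1 (h r) (ε / 3) (by positivity)
  refine ⟨J, fun j hj => ?_⟩
  have h3 := hJ j hj
  rw [hr] at h3
  have e : ∀ x, ∑ a, (r a : ℝ) * V j a x = ∑ a, t' a * V j a x := fun x => by
    refine Finset.sum_congr rfl fun a _ => ?_
    rw [← hr]
  simp_rw [e] at h3
  have h4 := hlip t t' j
  have h5 : ∑ a, |t a - t' a| * (1 + C) ≤ ε / 3 := by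
    calc ∑ a, |t a - t' a| * (1 + C) ≤ ∑ _a : Fin k, ε / (3 * L) * (1 + C) := by
          refine Finset.sum_le_sum fun a _ => mul_le_mul_of_nonneg_right ?_ hC0
          have := dist_le_pi_dist t' t a
          rw [Real.dist_eq, abs_sub_comm] at this
          exact this.trans h1.le
      _ = ε / (3 * L) * (k * (1 + C)) := by
          simp
          ring
      _ ≤ ε / (3 * L) * L := by gcongr; linarith
      _ = ε / 3 := by field_simp
  rw [Real.dist_eq] at h2 h3 ⊢
  have e2 : ∫ x, Real.cos (∑ a, t a * V j a x + c) ∂μ - G t =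
      (∫ x, Real.cos (∑ a, t a * V j a x + c) ∂μ - ∫ x, Real.cos (∑ a, t' a * V j a x + c) ∂μ) +
      ((∫ x, Real.cos (∑ a, t' a * V j a x + c) ∂μ - G t') + (G t' - G t)) := by ring
  rw [e2]
  refine (abs_add_le _ _).trans_lt ?_
  have h6 := abs_add_le (∫ x, Real.cos (∑ a, t' a * V j a x + c) ∂μ - G t') (G t' - G t)
  linarith

/-- observables `Φ j a i` (the functions `φ i` seen at the point `a` on the scale of the index `j`)
with a Bessel bound, a local Weyl law in the blocks and small single terms -/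
structure Obs (μ : Measure X) (K : Blk) (Φ : ℕ → ℕ → ℕ → X → ℝ) (C : ℝ) (ρ : ℕ → ℕ → ℝ) :
    Prop where
  bes : ∀ j a, Bes μ (fun i : Fin (2 ^ K.m (K.num j)) => Φ j a (K.b (K.num j) + i)) C
  cov : ∀ a a', ∀ᵐ x ∂μ, Tendsto (fun j => (∑ i ∈ K.blk (K.num j), Φ j a i x * Φ j a' i x) /
    2 ^ K.m (K.num j)) atTop (𝓝 (ρ a a'))
  small : ∀ a, ∀ᵐ x ∂μ, ∀ η : ℝ, 0 < η → ∀ᶠ j in atTop, ∀ i ∈ K.blk (K.num j),
    |Φ j a i x| ≤ η * Real.sqrt (2 ^ K.m (K.num j))

/-- the mixed functions at the point `a` -/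
noncomputable def mix (K : Blk) (s : ∀ n, Fin (2 ^ K.m n) → Bool) (Φ : ℕ → ℕ → ℕ → X → ℝ)
    (j a : ℕ) (x : X) : ℝ := ∑ i ∈ K.blk (K.num j), U K s j i * Φ j a i x

lemma Obs.mem {K : Blk} {Φ : ℕ → ℕ → ℕ → X → ℝ} {C : ℝ} {ρ : ℕ → ℕ → ℝ} (h : Obs μ K Φ C ρ)
    {j a i : ℕ} (hi : i ∈ K.blk (K.num j)) : MemLp (Φ j a i) 2 μ := by
  have h1 : K.num i = K.num j := K.mem_blk.1 hi
  have h2 := K.b_add_loc i
  have h3 := K.loc_lt i
  rw [h1] at h2 h3
  have := (h.bes j a).mem ⟨K.loc i, h3⟩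
  simp only [h2] at this
  exact this

lemma mix_mem {K : Blk} {Φ : ℕ → ℕ → ℕ → X → ℝ} {C : ℝ} {ρ : ℕ → ℕ → ℝ} (h : Obs μ K Φ C ρ)
    (s : ∀ n, Fin (2 ^ K.m n) → Bool) (j a : ℕ) : MemLp (mix K s Φ j a) 2 μ :=
  memLp_finsetSum _ fun _ hi => (h.mem hi).const_mul _

/-- the mean square of the mixed functions -/
lemma mix_sq {K : Blk} {Φ : ℕ → ℕ → ℕ → X → ℝ} {C : ℝ} {ρ : ℕ → ℕ → ℝ} (h : Obs μ K Φ C ρ)
    (s : ∀ n, Fin (2 ^ K.m n) → Bool) (j a : ℕ) : ∫ x, mix K s Φ j a x ^ 2 ∂μ ≤ C := by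
  set v := mix K s Φ j a with hv
  have hvm := mix_mem h s j a
  have h1 : ∫ x, v x ^ 2 ∂μ = ∑ i ∈ K.blk (K.num j), U K s j i * ∫ x, Φ j a i x * v x ∂μ := by
    have e : ∀ i ∈ K.blk (K.num j), U K s j i * ∫ x, Φ j a i x * v x ∂μ =
        ∫ x, U K s j i * (Φ j a i x * v x) ∂μ := fun i _ => (integral_const_mul _ _).symm
    have hint : ∀ i ∈ K.blk (K.num j), Integrable (fun x => U K s j i * (Φ j a i x * v x)) μ :=
      fun i hi => ((h.mem hi).integrable_mul hvm).const_mul _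
    rw [Finset.sum_congr rfl e, ← integral_finsetSum _ hint]
    refine integral_congr_ae (Eventually.of_forall fun x => ?_)
    show v x ^ 2 = ∑ i ∈ K.blk (K.num j), U K s j i * (Φ j a i x * v x)
    rw [sq]
    nth_rewrite 1 [hv]
    unfold mix
    rw [Finset.sum_mul]
    exact Finset.sum_congr rfl fun i _ => by ring
  have h2 := Finset.sum_mul_sq_le_sq_mul_sq (K.blk (K.num j)) (fun i => U K s j i)
    (fun i => ∫ x, Φ j a i x * v x ∂μ)
  have h3 : ∑ i ∈ K.blk (K.num j), U K s j i ^ 2 = 1 := by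
    have := U_orth K s (K.num j) (j := j) (j' := j) rfl rfl
    rw [if_pos rfl] at this
    rw [← this]
    exact Finset.sum_congr rfl fun i _ => sq _
  have h4 : ∑ i ∈ K.blk (K.num j), (∫ x, Φ j a i x * v x ∂μ) ^ 2 ≤ C * ∫ x, v x ^ 2 ∂μ := by
    have := (h.bes j a).bes v hvm
    rw [K.sum_blk, Finset.sum_range]
    exact this
  rw [← h1, h3, one_mul] at h2
  have h5 : 0 ≤ ∫ x, v x ^ 2 ∂μ := integral_nonneg fun x => sq_nonneg _
  have hC0 := (h.bes j a).B0
  by_contra hc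
  rw [not_le] at hc
  have h6 : 0 < ∫ x, v x ^ 2 ∂μ := lt_of_le_of_lt hC0 hc
  nlinarith

/-- **Gaussian limits of the characteristic functions for all observables and countably many
measures at once.** -/
theorem fields (ν : ℕ → Measure X) [∀ r, IsProbabilityMeasure (ν r)] (K : Blk)
    (hm : Tendsto K.m atTop atTop)
    {Φ : ℕ → ℕ → ℕ → X → ℝ} {C : ℕ → ℝ} {ρ : ℕ → ℕ → ℝ} (hh : ∀ r, Obs (ν r) K Φ (C r) ρ) :
    ∃ s : ∀ n, Fin (2 ^ K.m n) → Bool, ∀ (r k : ℕ) (t : Fin k → ℝ) (c : Bool),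
      Tendsto (fun j => ∫ x, Real.cos (∑ a, t a * mix K s Φ j a x + ph c) ∂(ν r)) atTop
        (𝓝 (Real.cos (ph c) * Real.exp (-((∑ a, ∑ a', t a * t a' * ρ a a') / 2)))) := by
  obtain ⟨e0, he⟩ := exists_surjective_nat (ℕ × (Σ k : ℕ, (Fin k → ℚ)))
  set e : ℕ → (Σ k : ℕ, (Fin k → ℚ)) := fun q => (e0 q).2 with he2
  set rr : ℕ → ℕ := fun q => (e0 q).1 with hrr
  set T : ∀ q, Fin (e q).1 → ℝ := fun q a => ((e q).2 a : ℝ) with hT
  set ψ : ℕ → ℕ → ℕ → X → ℝ := fun j q i x =>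
    ∑ a : Fin (e q).1, T q a * Φ j a (K.b (K.num j) + i) x with hψ
  set B : ℕ → ℝ := fun q => (∑ a, |T q a|) ^ 2 * C (rr q) with hB
  have hC0 : ∀ r, 0 ≤ C r := fun r => ((hh r).bes 0 0).B0
  have hmem : ∀ j (i : Fin (2 ^ K.m (K.num j))), K.b (K.num j) + (i : ℕ) ∈ K.blk (K.num j) := by
    intro j i
    rw [K.mem_blk]
    exact K.num_add i.2
  have hbes : ∀ j q, Bes (ν (rr q)) (fun i : Fin (2 ^ K.m (K.num j)) => ψ j q i) (B q) := by
    intro j q
    have h := hh (rr q)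
    have hC0' := hC0 (rr q)
    have hψm : ∀ i : Fin (2 ^ K.m (K.num j)), MemLp (ψ j q i) 2 (ν (rr q)) := fun i =>
      memLp_finsetSum _ fun a _ => (h.mem (hmem j i)).const_mul _
    refine ⟨hψm, fun g hg => ?_, by positivity⟩
    have e1 : ∀ i : Fin (2 ^ K.m (K.num j)), ∫ x, ψ j q i x * g x ∂(ν (rr q)) =
        ∑ a, T q a * ∫ x, Φ j a (K.b (K.num j) + i) x * g x ∂(ν (rr q)) := by
      intro i
      have e2 : ∀ a : Fin (e q).1, T q a * ∫ x, Φ j a (K.b (K.num j) + i) x * g x ∂(ν (rr q)) =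
          ∫ x, T q a * (Φ j a (K.b (K.num j) + i) x * g x) ∂(ν (rr q)) := fun a =>
        (integral_const_mul _ _).symm
      simp_rw [e2]
      have hint : ∀ a ∈ (Finset.univ : Finset (Fin (e q).1)), Integrable (fun x =>
          T q a * (Φ j a (K.b (K.num j) + i) x * g x)) (ν (rr q)) := fun a _ =>
        ((h.mem (hmem j i)).integrable_mul hg).const_mul _
      rw [← integral_finsetSum _ hint]
      refine integral_congr_ae (Eventually.of_forall fun x => ?_)
      show (∑ a, T q a * Φ j a (K.b (K.num j) + i) x) * g x = _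
      rw [Finset.sum_mul]
      exact Finset.sum_congr rfl fun a _ => by ring
    have e3 : ∀ i : Fin (2 ^ K.m (K.num j)), (∫ x, ψ j q i x * g x ∂(ν (rr q))) ^ 2 ≤
        (∑ a, |T q a|) * ∑ a, |T q a| * (∫ x, Φ j a (K.b (K.num j) + i) x * g x ∂(ν (rr q))) ^ 2 := by
      intro i
      rw [e1]
      set J : Fin (e q).1 → ℝ := fun a => ∫ x, Φ j a (K.b (K.num j) + i) x * g x ∂(ν (rr q)) with hJ
      have h6 := Finset.sum_mul_sq_le_sq_mul_sq Finset.univ
        (fun a => Real.sqrt |T q a|) (fun a => Real.sqrt |T q a| * |J a|)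
      have h7 : ∀ a, Real.sqrt |T q a| * (Real.sqrt |T q a| * |J a|) = |T q a| * |J a| := fun a => by
        rw [← mul_assoc, Real.mul_self_sqrt (abs_nonneg _)]
      have h8 : ∀ a, (Real.sqrt |T q a| * |J a|) ^ 2 = |T q a| * J a ^ 2 := fun a => by
        rw [mul_pow, Real.sq_sqrt (abs_nonneg _), sq_abs]
      have h9 : ∀ a, Real.sqrt |T q a| ^ 2 = |T q a| := fun a => Real.sq_sqrt (abs_nonneg _)
      simp only [h7, h8, h9] at h6
      refine le_trans ?_ h6
      rw [← sq_abs]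
      gcongr
      refine (Finset.abs_sum_le_sum_abs _ _).trans (le_of_eq ?_)
      exact Finset.sum_congr rfl fun a _ => abs_mul _ _
    calc ∑ i : Fin (2 ^ K.m (K.num j)), (∫ x, ψ j q i x * g x ∂(ν (rr q))) ^ 2
        ≤ ∑ i : Fin (2 ^ K.m (K.num j)), (∑ a, |T q a|) *
            ∑ a, |T q a| * (∫ x, Φ j a (K.b (K.num j) + i) x * g x ∂(ν (rr q))) ^ 2 :=
          Finset.sum_le_sum fun i _ => e3 i
      _ = (∑ a, |T q a|) * ∑ a, |T q a| * ∑ i : Fin (2 ^ K.m (K.num j)),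
            (∫ x, Φ j a (K.b (K.num j) + i) x * g x ∂(ν (rr q))) ^ 2 := by
          rw [← Finset.mul_sum, Finset.sum_comm]
          congr 1
          exact Finset.sum_congr rfl fun a _ => by rw [Finset.mul_sum]
      _ ≤ (∑ a, |T q a|) * ∑ a, |T q a| * (C (rr q) * ∫ x, g x ^ 2 ∂(ν (rr q))) := by
          gcongr with a _
          exact (h.bes j a).bes g hg
      _ = B q * ∫ x, g x ^ 2 ∂(ν (rr q)) := by
          simp only [hB]
          rw [← Finset.sum_mul]
          ring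
  set S : ℕ → ℝ := fun q => ∑ a, ∑ a', T q a * T q a' * ρ a a' with hS
  have hsq : ∀ n, (Real.sqrt (2 ^ K.m n)) * (Real.sqrt (2 ^ K.m n)) = 2 ^ K.m n := fun n =>
    Real.mul_self_sqrt (by positivity)
  have h1 : ∀ q, ∀ᵐ x ∂(ν (rr q)), Tendsto (fun j => ∑ i : Fin (2 ^ K.m (K.num j)),
      (K.wt (K.num j) * ψ j q i x) ^ 2) atTop (𝓝 (S q)) := by
    intro q
    have h := hh (rr q)
    have hall : ∀ᵐ x ∂(ν (rr q)), ∀ a a' : Fin (e q).1, Tendsto (fun j =>
        (∑ i ∈ K.blk (K.num j), Φ j a i x * Φ j a' i x) / 2 ^ K.m (K.num j)) atTop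
          (𝓝 (ρ a a')) := by
      rw [ae_all_iff]; intro a
      rw [ae_all_iff]; intro a'
      exact h.cov a a'
    filter_upwards [hall] with x hx
    have h5 : Tendsto (fun j => ∑ a, ∑ a', T q a * T q a' *
        ((∑ i ∈ K.blk (K.num j), Φ j a i x * Φ j a' i x) / 2 ^ K.m (K.num j))) atTop
        (𝓝 (S q)) :=
      tendsto_finsetSum _ fun a _ => tendsto_finsetSum _ fun a' _ =>
        (hx a a').const_mul _
    refine h5.congr fun j => ?_
    have hw := K.wt_sq (K.num j)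
    push_cast at hw
    have e4 : ∀ i : Fin (2 ^ K.m (K.num j)), (K.wt (K.num j) * ψ j q i x) ^ 2 =
        ∑ a, ∑ a', T q a * T q a' * (Φ j a (K.b (K.num j) + i) x *
          Φ j a' (K.b (K.num j) + i) x / 2 ^ K.m (K.num j)) := by
      intro i
      rw [mul_pow, hw]
      show 1 / 2 ^ K.m (K.num j) * (∑ a, T q a * Φ j a (K.b (K.num j) + i) x) ^ 2 = _
      rw [sq, Finset.sum_mul_sum, Finset.mul_sum]
      refine Finset.sum_congr rfl fun a _ => ?_
      rw [Finset.mul_sum]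
      refine Finset.sum_congr rfl fun a' _ => ?_
      ring
    simp_rw [e4]
    symm
    rw [Finset.sum_comm]
    refine Finset.sum_congr rfl fun a _ => ?_
    rw [Finset.sum_comm]
    refine Finset.sum_congr rfl fun a' _ => ?_
    rw [← Finset.mul_sum, K.sum_blk, Finset.sum_range, Finset.sum_div]
  have h2 : ∀ q, ∀ᵐ x ∂(ν (rr q)), ∀ η : ℝ, 0 < η → ∀ᶠ j in atTop,
      ∀ i : Fin (2 ^ K.m (K.num j)), |K.wt (K.num j) * ψ j q i x| ≤ η := by
    intro q
    have h := hh (rr q)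
    have hall : ∀ᵐ x ∂(ν (rr q)), ∀ a : Fin (e q).1, ∀ η : ℝ, 0 < η → ∀ᶠ j in atTop,
        ∀ i ∈ K.blk (K.num j), |Φ j a i x| ≤ η * Real.sqrt (2 ^ K.m (K.num j)) := by
      rw [ae_all_iff]; intro a
      exact h.small a
    filter_upwards [hall] with x hx η hη
    set R : ℝ := ∑ a, |T q a| + 1 with hR
    have hR0 : 0 < R := by positivity
    have h6 : ∀ᶠ j in atTop, ∀ a : Fin (e q).1, ∀ i ∈ K.blk (K.num j),
        |Φ j a i x| ≤ η / R * Real.sqrt (2 ^ K.m (K.num j)) := by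
      rw [eventually_all]
      intro a
      exact hx a (η / R) (by positivity)
    filter_upwards [h6] with j hj i
    have hsqp : 0 < Real.sqrt (2 ^ K.m (K.num j)) := Real.sqrt_pos.2 (by positivity)
    rw [abs_mul, abs_of_nonneg (K.wt_nonneg _)]
    have h7 : |ψ j q i x| ≤ R * (η / R * Real.sqrt (2 ^ K.m (K.num j))) := by
      show |∑ a, T q a * Φ j a (K.b (K.num j) + i) x| ≤ _
      refine (Finset.abs_sum_le_sum_abs _ _).trans ?_
      calc ∑ a, |T q a * Φ j a (K.b (K.num j) + i) x|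
          ≤ ∑ a, |T q a| * (η / R * Real.sqrt (2 ^ K.m (K.num j))) := by
            refine Finset.sum_le_sum fun a _ => ?_
            rw [abs_mul]
            exact mul_le_mul_of_nonneg_left (hj a _ (hmem j i)) (abs_nonneg _)
        _ = (∑ a, |T q a|) * (η / R * Real.sqrt (2 ^ K.m (K.num j))) := by rw [Finset.sum_mul]
        _ ≤ _ := by gcongr; linarith
    calc K.wt (K.num j) * |ψ j q i x| ≤
          K.wt (K.num j) * (R * (η / R * Real.sqrt (2 ^ K.m (K.num j)))) :=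
            mul_le_mul_of_nonneg_left h7 (K.wt_nonneg _)
      _ = η := by unfold Blk.wt; field_simp
  obtain ⟨s, hs⟩ := signs (fun q => ν (rr q)) K hm ψ B hbes S h1 h2
  refine ⟨s, fun r k t c => ?_⟩
  refine ext_real (fun j a => mix K s Φ j a) (fun j a => mix_mem (hh r) s j a) (C := C r)
    (fun j a => mix_sq (hh r) s j a) (ph c)
    (G := fun t => Real.cos (ph c) * Real.exp (-((∑ a, ∑ a', t a * t a' * ρ a a') / 2)))
    (by fun_prop) (fun tq => ?_) t
  obtain ⟨q, hq⟩ := he (r, ⟨k, tq⟩)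
  have h3 := hs q c
  have hq1 : rr q = r := by simp only [hrr, hq]
  have hq2 : e q = ⟨k, tq⟩ := by simp only [he2, hq]
  rw [hq1] at h3
  have key : ∀ (z : Σ k : ℕ, (Fin k → ℚ)) (hz : e q = z),
      Tendsto (fun j => ∫ x, Real.cos (∑ a : Fin z.1, (z.2 a : ℝ) * mix K s Φ j a x + ph c)
          ∂(ν r))
        atTop (𝓝 (Real.cos (ph c) *
          Real.exp (-((∑ a : Fin z.1, ∑ a' : Fin z.1, (z.2 a : ℝ) * (z.2 a') * ρ a a') / 2)))) := by
    intro z hz
    subst hz
    refine h3.congr fun j => ?_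
    unfold chJ chF
    refine integral_congr_ae (Eventually.of_forall fun x => ?_)
    show Real.cos (comb _ _ _ _ x + ph c) = _
    congr 2
    have e5 := sum_U_eq K s j (fun i x => ∑ a : Fin (e q).1, T q a * Φ j a i x) x
    have e6 : (fun i : Fin (2 ^ K.m (K.num j)) => ψ j q i) = fun i : Fin (2 ^ K.m (K.num j)) =>
        (fun i x => ∑ a : Fin (e q).1, T q a * Φ j a i x) (K.b (K.num j) + i) := rfl
    rw [e6, ← e5]
    unfold mix
    simp only [Finset.mul_sum]
    rw [Finset.sum_comm]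
    refine Finset.sum_congr rfl fun a _ => Finset.sum_congr rfl fun i _ => ?_
    show U K s j i * (T q a * Φ j a i x) = T q a * (U K s j i * Φ j a i x)
    ring
  exact key ⟨k, tq⟩ hq2

end Pool.Agent.U34.BW
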