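import Pool.Agent.U34.BW.Conc

/-!
# The Gaussian limit of the mean characteristic function; blocks
-/

set_option autoImplicit false

open MeasureTheory Finset Filter Topology

namespace Pool.Agent.U34.BW

lemma prod_diff {ι : Type*} (s : Finset ι) (a b : ι → ℝ) (ha : ∀ i, |a i| ≤ 1)
    (hb : ∀ i, |b i| ≤ 1) : |∏ i ∈ s, a i - ∏ i ∈ s, b i| ≤ ∑ i ∈ s, |a i - b i| := by
  classical
  induction s using Finset.induction_on with
  | empty => simp
  | insert k s hk ih =>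
    rw [Finset.prod_insert hk, Finset.prod_insert hk, Finset.sum_insert hk]
    have e : a k * ∏ i ∈ s, a i - b k * ∏ i ∈ s, b i =
        (a k - b k) * ∏ i ∈ s, a i + b k * (∏ i ∈ s, a i - ∏ i ∈ s, b i) := by ring
    rw [e]
    have h1 : |∏ i ∈ s, a i| ≤ 1 := by
      rw [Finset.abs_prod]
      exact Finset.prod_le_one (fun i _ => abs_nonneg _) fun i _ => ha i
    calc |(a k - b k) * ∏ i ∈ s, a i + b k * (∏ i ∈ s, a i - ∏ i ∈ s, b i)|
        ≤ |a k - b k| * |∏ i ∈ s, a i| + |b k| * |∏ i ∈ s, a i - ∏ i ∈ s, b i| := by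
          rw [← abs_mul, ← abs_mul]; exact abs_add_le _ _
      _ ≤ |a k - b k| * 1 + 1 * ∑ i ∈ s, |a i - b i| := by
          gcongr
          exact hb k
      _ = _ := by ring

lemma cos_exp (y : ℝ) (hy : |y| ≤ 1) : |Real.cos y - Real.exp (-(y ^ 2 / 2))| ≤ y ^ 4 := by
  have h1 := Real.cos_bound hy
  have hy2 : y ^ 2 ≤ 1 := by rw [← sq_abs]; exact pow_le_one₀ (abs_nonneg _) hy
  have h0 := sq_nonneg y
  have h2 : |Real.exp (-(y ^ 2 / 2)) - 1 - (-(y ^ 2 / 2))| ≤ (-(y ^ 2 / 2)) ^ 2 := by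
    apply Real.abs_exp_sub_one_sub_id_le
    rw [abs_neg, abs_of_nonneg (by positivity)]
    linarith
  have h3 : |y| ^ 4 = y ^ 4 := by
    rw [show |y| ^ 4 = (|y| ^ 2) ^ 2 by ring, sq_abs]; ring
  rw [h3] at h1
  have e : Real.cos y - Real.exp (-(y ^ 2 / 2)) = (Real.cos y - (1 - y ^ 2 / 2)) -
      (Real.exp (-(y ^ 2 / 2)) - 1 - (-(y ^ 2 / 2))) := by ring
  rw [e]
  have h4 := abs_sub (Real.cos y - (1 - y ^ 2 / 2)) (Real.exp (-(y ^ 2 / 2)) - 1 - (-(y ^ 2 / 2)))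
  have h5 : (0:ℝ) ≤ y ^ 4 := by positivity
  have h6 : (-(y ^ 2 / 2)) ^ 2 = y ^ 4 / 4 := by ring
  rw [h6] at h2
  linarith

lemma prod_cos_bd {n : ℕ} (y : Fin n → ℝ) {η : ℝ} (hη : ∀ i, |y i| ≤ η) (_h0 : 0 ≤ η)
    (hη1 : η ≤ 1) :
    |∏ i, Real.cos (y i) - Real.exp (-((∑ i, y i ^ 2) / 2))| ≤ η ^ 2 * ∑ i, y i ^ 2 := by
  have e : Real.exp (-((∑ i, y i ^ 2) / 2)) = ∏ i, Real.exp (-(y i ^ 2 / 2)) := by
    rw [← Real.exp_sum, Finset.sum_neg_distrib, Finset.sum_div]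
  rw [e]
  refine (prod_diff Finset.univ _ _ (fun i => Real.abs_cos_le_one _) fun i => ?_).trans ?_
  · rw [abs_of_pos (Real.exp_pos _)]
    exact Real.exp_le_one_iff.2 (by have := sq_nonneg (y i); linarith)
  · rw [Finset.mul_sum]
    refine Finset.sum_le_sum fun i _ => ?_
    refine (cos_exp (y i) ((hη i).trans hη1)).trans ?_
    have h1 : y i ^ 2 ≤ η ^ 2 := by rw [← sq_abs]; gcongr; exact hη i
    nlinarith [sq_nonneg (y i)]

variable {X : Type*} [MeasurableSpace X] {μ : Measure X}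

/-- the limit of the mean characteristic functions -/
theorem tend_prod [IsProbabilityMeasure μ] {N : ℕ → ℕ} {w : ℕ → ℝ} {ψ : ∀ j, Fin (N j) → X → ℝ}
    (hψ : ∀ j i, AEStronglyMeasurable (ψ j i) μ) {S : ℝ}
    (h1 : ∀ᵐ x ∂μ, Tendsto (fun j => ∑ i, (w j * ψ j i x) ^ 2) atTop (𝓝 S))
    (h2 : ∀ᵐ x ∂μ, ∀ η : ℝ, 0 < η → ∀ᶠ j in atTop, ∀ i, |w j * ψ j i x| ≤ η) :
    Tendsto (fun j => ∫ x, ∏ i, Real.cos (w j * ψ j i x) ∂μ) atTop (𝓝 (Real.exp (-(S / 2)))) := by
  have e : Real.exp (-(S / 2)) = ∫ _x, Real.exp (-(S / 2)) ∂μ := by simp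
  rw [e]
  refine tendsto_integral_of_dominated_convergence (fun _ => (1:ℝ)) (fun j => ?_)
    (integrable_const _) (fun j => Eventually.of_forall fun x => ?_) ?_
  · refine Finset.aestronglyMeasurable_fun_prod _ fun i _ => ?_
    exact Real.continuous_cos.comp_aestronglyMeasurable ((hψ j i).const_mul (w j))
  · rw [Real.norm_eq_abs, Finset.abs_prod]
    exact Finset.prod_le_one (fun i _ => abs_nonneg _) fun i _ => Real.abs_cos_le_one _
  · filter_upwards [h1, h2] with x hx1 hx2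
    have h3 : Tendsto (fun j => Real.exp (-((∑ i, (w j * ψ j i x) ^ 2) / 2))) atTop
        (𝓝 (Real.exp (-(S / 2)))) :=
      (Real.continuous_exp.tendsto _).comp ((hx1.div_const 2).neg)
    have h4 : Tendsto (fun j => ∏ i, Real.cos (w j * ψ j i x) -
        Real.exp (-((∑ i, (w j * ψ j i x) ^ 2) / 2))) atTop (𝓝 0) := by
      rw [Metric.tendsto_atTop]
      intro ε hε
      -- choose `η`
      set T : ℝ := |S| + 1 with hT
      have hT0 : 0 < T := by positivity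
      set η : ℝ := min 1 (ε / (2 * T)) with hη
      have hη0 : 0 < η := by positivity
      have hη1 : η ≤ 1 := min_le_left _ _
      have hη2 : η ≤ ε / (2 * T) := min_le_right _ _
      have h5 : ∀ᶠ j in atTop, ∑ i, (w j * ψ j i x) ^ 2 < T := by
        refine hx1.eventually (gt_mem_nhds ?_)
        have := le_abs_self S
        linarith
      obtain ⟨J, hJ⟩ := eventually_atTop.1 (h5.and (hx2 η hη0))
      refine ⟨J, fun j hj => ?_⟩
      obtain ⟨h6, h7⟩ := hJ j hj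
      rw [Real.dist_eq, sub_zero]
      refine (prod_cos_bd (fun i => w j * ψ j i x) h7 hη0.le hη1).trans_lt ?_
      have h8 : 0 ≤ ∑ i, (w j * ψ j i x) ^ 2 := Finset.sum_nonneg fun i _ => sq_nonneg _
      calc η ^ 2 * ∑ i, (w j * ψ j i x) ^ 2 ≤ (η * 1) * T := by
            rw [sq]; gcongr
        _ ≤ (ε / (2 * T)) * 1 * T := by gcongr
        _ = ε / 2 := by field_simp
        _ < ε := by linarith
    have := h4.add h3
    simpa using this

/-! ### blocks -/

/-- consecutive blocks of lengths `2 ^ m n` -/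
structure Blk where
  /-- the first elements -/
  b : ℕ → ℕ
  /-- the exponents -/
  m : ℕ → ℕ
  b0 : b 0 = 0
  step : ∀ n, b (n + 1) = b n + 2 ^ m n

namespace Blk

variable (K : Blk)

lemma mono : StrictMono K.b := strictMono_nat_of_lt_succ fun n => by
  rw [K.step]; have : 0 < 2 ^ K.m n := by positivity
  omega

lemma ex (j : ℕ) : ∃ n, j < K.b (n + 1) :=
  ⟨j, lt_of_lt_of_le (Nat.lt_succ_self j) (K.mono.id_le (j + 1))⟩

/-- the number of the block of `j` -/
noncomputable def num (j : ℕ) : ℕ := by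
  classical exact Nat.find (K.ex j)

lemma num_spec (j : ℕ) : K.b (K.num j) ≤ j ∧ j < K.b (K.num j + 1) := by
  classical
  have h1 := Nat.find_spec (K.ex j)
  refine ⟨?_, h1⟩
  rcases Nat.eq_zero_or_pos (Nat.find (K.ex j)) with h | h
  · have : K.num j = 0 := h
    rw [this, K.b0]; exact Nat.zero_le _
  · have h2 := Nat.find_min (K.ex j) (m := Nat.find (K.ex j) - 1) (by omega)
    rw [not_lt, Nat.sub_add_cancel h] at h2
    exact h2

lemma num_eq {j n : ℕ} (h1 : K.b n ≤ j) (h2 : j < K.b (n + 1)) : K.num j = n := by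
  obtain ⟨h3, h4⟩ := K.num_spec j
  have a1 : K.num j < n + 1 := K.mono.lt_iff_lt.1 (lt_of_le_of_lt h3 h2)
  have a2 : n < K.num j + 1 := K.mono.lt_iff_lt.1 (lt_of_le_of_lt h1 h4)
  omega

/-- the index of `j` in its block -/
noncomputable def loc (j : ℕ) : ℕ := j - K.b (K.num j)

lemma loc_lt (j : ℕ) : K.loc j < 2 ^ K.m (K.num j) := by
  obtain ⟨h3, h4⟩ := K.num_spec j
  rw [K.step] at h4
  unfold loc
  omega

lemma b_add_loc (j : ℕ) : K.b (K.num j) + K.loc j = j := by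
  obtain ⟨h3, h4⟩ := K.num_spec j
  unfold loc
  omega

lemma num_add {n r : ℕ} (hr : r < 2 ^ K.m n) : K.num (K.b n + r) = n :=
  K.num_eq (by omega) (by rw [K.step]; omega)

lemma loc_add {n r : ℕ} (hr : r < 2 ^ K.m n) : K.loc (K.b n + r) = r := by
  unfold loc
  rw [K.num_add hr]
  omega

lemma num_tendsto : Tendsto K.num atTop atTop := by
  refine tendsto_atTop.2 fun n => ?_
  filter_upwards [eventually_ge_atTop (K.b n)] with j hj
  by_contra hc
  rw [not_le] at hc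
  have h1 := (K.num_spec j).2
  have h2 : K.b (K.num j + 1) ≤ K.b n := K.mono.monotone hc
  omega

/-- the weight of the block of `j` -/
noncomputable def wt (n : ℕ) : ℝ := 1 / Real.sqrt (2 ^ K.m n)

lemma wt_sq (n : ℕ) : K.wt n ^ 2 = 1 / ((2 ^ K.m n : ℕ) : ℝ) := by
  unfold wt
  rw [div_pow, Real.sq_sqrt (by positivity)]
  push_cast
  simp

lemma wt_nonneg (n : ℕ) : 0 ≤ K.wt n := by unfold wt; positivity

end Blk

/-- the phases -/
noncomputable def ph (c : Bool) : ℝ := if c then -(Real.pi / 2) else 0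

/-- the characteristic function of the combination in the row `j` -/
noncomputable def chJ (μ : Measure X) (K : Blk) (s : ∀ n, Fin (2 ^ K.m n) → Bool)
    (ψ : ℕ → ℕ → ℕ → X → ℝ) (j q : ℕ) (c : Bool) : ℝ :=
  chF μ (K.wt (K.num j)) (fun i : Fin (2 ^ K.m (K.num j)) => Hd (K.m (K.num j)) (K.loc j) i)
    (fun i => ψ j q i) (ph c) (s (K.num j))

/-- **Signs for all blocks and all observables** (`ν q` is the measure for the `q`-th
observable). -/
theorem signs (ν : ℕ → Measure X) [∀ q, IsProbabilityMeasure (ν q)] (K : Blk)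
    (hm : Tendsto K.m atTop atTop)
    (ψ : ℕ → ℕ → ℕ → X → ℝ) (B : ℕ → ℝ)
    (hB : ∀ j q, Bes (ν q) (fun i : Fin (2 ^ K.m (K.num j)) => ψ j q i) (B q)) (S : ℕ → ℝ)
    (h1 : ∀ q, ∀ᵐ x ∂(ν q), Tendsto (fun j => ∑ i : Fin (2 ^ K.m (K.num j)),
      (K.wt (K.num j) * ψ j q i x) ^ 2) atTop (𝓝 (S q)))
    (h2 : ∀ q, ∀ᵐ x ∂(ν q), ∀ η : ℝ, 0 < η → ∀ᶠ j in atTop, ∀ i : Fin (2 ^ K.m (K.num j)),
      |K.wt (K.num j) * ψ j q i x| ≤ η) :
    ∃ s : ∀ n, Fin (2 ^ K.m n) → Bool, ∀ q c, Tendsto (fun j => chJ (ν q) K s ψ j q c) atTop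
      (𝓝 (Real.cos (ph c) * Real.exp (-(S q / 2)))) := by
  classical
  set C : ℕ → ℝ := fun q => 8 * B q + 288 * B q ^ 2 with hC
  have hC0 : ∀ q, 0 < 1 + C q ^ 2 := fun q => by positivity
  -- the functions in the block `n`
  set F : ∀ n, ℕ × ℕ × Bool → (Fin (2 ^ K.m n) → Bool) → ℝ := fun n k s =>
    chF (ν k.2.1) (K.wt n) (fun i : Fin (2 ^ K.m n) => Hd (K.m n) k.1 i)
      (fun i => ψ (K.b n + k.1) k.2.1 i) (ph k.2.2) s with hF
  set W : ℕ × ℕ × Bool → ℝ := fun k => 1 / (2 ^ k.2.1 * (1 + C k.2.1 ^ 2)) with hW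
  set D : ∀ _n : ℕ, ℕ × ℕ × Bool → ℝ := fun n k => C k.2.1 / ((2 ^ K.m n : ℕ) : ℝ) with hD
  set I : ℕ → Finset (ℕ × ℕ × Bool) := fun n =>
    range (2 ^ K.m n) ×ˢ range (n + 1) ×ˢ (Finset.univ : Finset Bool) with hI
  have hW0 : ∀ k, 0 < W k := fun k => by simp only [hW]; have := hC0 k.2.1; positivity
  have hgrad : ∀ n, ∀ k ∈ I n, ∀ s, ∑ i, (F n k s - F n k (fl i s)) ^ 2 ≤ D n k := by
    intro n k hk s
    have hr : k.1 < 2 ^ K.m n := by
      simp only [hI, Finset.mem_product, Finset.mem_range] at hk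
      exact hk.1
    have hBn : Bes (ν k.2.1) (fun i : Fin (2 ^ K.m n) => ψ (K.b n + k.1) k.2.1 i) (B k.2.1) := by
      have := hB (K.b n + k.1) k.2.1
      rwa [K.num_add hr] at this
    exact grad_le (by positivity) (K.wt_sq n) (K.wt_nonneg n) (fun i => Hd_sq _ _ _) hBn _ s
  choose s hs using fun n => exists_signs (I n) (F n) (D n) W (fun k _ => (hW0 k).le) (hgrad n)
  refine ⟨s, fun q c => ?_⟩
  -- the total error in a block
  have htot : ∀ n, ∑ k ∈ I n, W k * D n k ^ 2 ≤ 4 / ((2 ^ K.m n : ℕ) : ℝ) := by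
    intro n
    set N : ℝ := ((2 ^ K.m n : ℕ) : ℝ) with hN
    have hN0 : 0 < N := by positivity
    have h3 : ∀ k ∈ I n, W k * D n k ^ 2 ≤ (1 / 2) ^ k.2.1 * (1 / N ^ 2) := by
      intro k _
      simp only [hW, hD]
      rw [div_pow, ← hN]
      have h4 := hC0 k.2.1
      have e : 1 / (2 ^ k.2.1 * (1 + C k.2.1 ^ 2)) * (C k.2.1 ^ 2 / N ^ 2) =
          (1 / 2) ^ k.2.1 * (1 / N ^ 2) * (C k.2.1 ^ 2 / (1 + C k.2.1 ^ 2)) := by
        rw [one_div_pow]
        field_simp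
      rw [e]
      have h5 : C k.2.1 ^ 2 / (1 + C k.2.1 ^ 2) ≤ 1 := by
        rw [div_le_one h4]; linarith
      calc (1 / 2) ^ k.2.1 * (1 / N ^ 2) * (C k.2.1 ^ 2 / (1 + C k.2.1 ^ 2))
          ≤ (1 / 2) ^ k.2.1 * (1 / N ^ 2) * 1 := by gcongr
        _ = _ := mul_one _
    refine (Finset.sum_le_sum h3).trans ?_
    simp only [hI]
    rw [Finset.sum_product]
    simp only [Finset.sum_product]
    simp only [Finset.sum_const, Finset.card_univ, Fintype.card_bool, Finset.card_range,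
      nsmul_eq_mul]
    rw [← Finset.mul_sum, ← Finset.sum_mul]
    have h6 : ∑ i ∈ range (n + 1), (1 / 2 : ℝ) ^ i ≤ 2 := by
      rw [geom_sum_eq (by norm_num)]
      have : (0:ℝ) < (1 / 2) ^ (n + 1) := by positivity
      have e : ((1 / 2 : ℝ) ^ (n + 1) - 1) / (1 / 2 - 1) = 2 * (1 - (1 / 2) ^ (n + 1)) := by ring
      rw [e]; linarith
    calc N * (((2 : ℕ) : ℝ) * ((∑ i ∈ range (n + 1), (1 / 2 : ℝ) ^ i) * (1 / N ^ 2)))
        ≤ N * (((2 : ℕ) : ℝ) * (2 * (1 / N ^ 2))) := by gcongr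
      _ = 4 / N := by field_simp; norm_num
  -- the error of one function
  have hone : ∀ᶠ j in atTop, (chJ (ν q) K s ψ j q c - av (F (K.num j) (K.loc j, q, c))) ^ 4 ≤
      4 * (2 ^ q * (1 + C q ^ 2)) / ((2 ^ K.m (K.num j) : ℕ) : ℝ) := by
    filter_upwards [K.num_tendsto.eventually_ge_atTop q] with j hj
    set n := K.num j with hn
    have hk : (K.loc j, q, c) ∈ I n := by
      simp only [hI, Finset.mem_product, Finset.mem_range, Finset.mem_univ, and_true]
      exact ⟨K.loc_lt j, by omega⟩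
    have e1 : chJ (ν q) K s ψ j q c = F n (K.loc j, q, c) (s n) := by
      simp only [hF, chJ]
      rw [← hn, K.b_add_loc j]
    have h3 : W (K.loc j, q, c) * (F n (K.loc j, q, c) (s n) - av (F n (K.loc j, q, c))) ^ 4 ≤
        4 / ((2 ^ K.m n : ℕ) : ℝ) := by
      refine le_trans ?_ ((hs n).trans (htot n))
      exact Finset.single_le_sum (f := fun k => W k * (F n k (s n) - av (F n k)) ^ 4)
        (fun k _ => mul_nonneg (hW0 k).le (by positivity)) hk
    rw [e1]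
    have h4 : W (K.loc j, q, c) = 1 / (2 ^ q * (1 + C q ^ 2)) := rfl
    rw [h4, one_div, inv_mul_le_iff₀ (by have := hC0 q; positivity)] at h3
    refine h3.trans (le_of_eq ?_)
    ring
  have hmj : Tendsto (fun j => ((2 ^ K.m (K.num j) : ℕ) : ℝ)) atTop atTop := by
    refine tendsto_natCast_atTop_atTop.comp ?_
    exact (tendsto_pow_atTop_atTop_of_one_lt (one_lt_two (α := ℕ))).comp (hm.comp K.num_tendsto)
  have hdiff : Tendsto (fun j => chJ (ν q) K s ψ j q c - av (F (K.num j) (K.loc j, q, c))) atTop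
      (𝓝 0) := by
    have h5 : Tendsto (fun j => 4 * (2 ^ q * (1 + C q ^ 2)) / ((2 ^ K.m (K.num j) : ℕ) : ℝ)) atTop
        (𝓝 0) := tendsto_const_nhds.div_atTop hmj
    have h6 : Tendsto (fun j => (chJ (ν q) K s ψ j q c - av (F (K.num j) (K.loc j, q, c))) ^ 4) atTop
        (𝓝 0) := by
      refine squeeze_zero' (Eventually.of_forall fun j => by positivity) hone h5
    rw [Metric.tendsto_atTop] at h6 ⊢
    intro ε hε
    obtain ⟨J, hJ⟩ := h6 (ε ^ 4) (by positivity)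
    refine ⟨J, fun j hj => ?_⟩
    have h7 := hJ j hj
    rw [Real.dist_eq, sub_zero] at h7 ⊢
    rw [abs_pow] at h7
    exact lt_of_pow_lt_pow_left₀ 4 hε.le h7
  have hav : Tendsto (fun j => av (F (K.num j) (K.loc j, q, c))) atTop
      (𝓝 (Real.cos (ph c) * Real.exp (-(S q / 2)))) := by
    have e2 : ∀ j, av (F (K.num j) (K.loc j, q, c)) = Real.cos (ph c) *
        ∫ x, ∏ i : Fin (2 ^ K.m (K.num j)), Real.cos (K.wt (K.num j) * ψ j q i x) ∂(ν q) := by
      intro j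
      have h8 := av_chF (μ := ν q) (K.wt (K.num j))
        (h := fun i : Fin (2 ^ K.m (K.num j)) => Hd (K.m (K.num j)) (K.loc j) i)
        (fun i => Hd_sq _ _ _) (ψ := fun i => ψ j q i) (fun i => ((hB j q).mem i).1) (ph c)
      rw [← h8]
      simp only [hF]
      rw [K.b_add_loc j]
    simp_rw [e2]
    exact (tend_prod (N := fun j => 2 ^ K.m (K.num j)) (w := fun j => K.wt (K.num j))
      (ψ := fun j i => ψ j q i) (fun j i => ((hB j q).mem i).1) (h1 q) (h2 q)).const_mul _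
  have := hdiff.add hav
  simpa using this

end Pool.Agent.U34.BW
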