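import Pool.Agent.U34.BW.Val

/-!
# Weyl's law in dimension `d`: ratios of frequencies, closeness in the blocks
-/

set_option autoImplicit false

open MeasureTheory Finset Filter Topology ProbabilityTheory

namespace Pool.Agent.U34.BW

lemma nu_ratio {nu : ℕ → ℝ} {κ C θ : ℝ} (hθ1 : θ < 1)
    (h : ∀ n : ℕ, |nu n - κ * n| ≤ C * ((n : ℝ) + 1) ^ θ) :
    Tendsto (fun n : ℕ => nu n / ((n : ℝ) + 1)) atTop (𝓝 κ) := by
  have h1 : Tendsto (fun n : ℕ => ((n : ℝ) + 1)) atTop atTop :=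
    tendsto_atTop_add_const_right _ _ tendsto_natCast_atTop_atTop
  have h2 : Tendsto (fun n : ℕ => ((n : ℝ) + 1) ^ (-(1 - θ))) atTop (𝓝 0) :=
    (tendsto_rpow_neg_atTop (by linarith)).comp h1
  have h3 : Tendsto (fun n : ℕ => |κ| / ((n : ℝ) + 1)) atTop (𝓝 0) :=
    tendsto_const_nhds.div_atTop h1
  have h4 : Tendsto (fun n : ℕ => C * ((n : ℝ) + 1) ^ (-(1 - θ)) + |κ| / ((n : ℝ) + 1)) atTop
      (𝓝 0) := by
    simpa using (h2.const_mul C).add h3
  have h5 : Tendsto (fun n : ℕ => nu n / ((n : ℝ) + 1) - κ) atTop (𝓝 0) := by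
    refine squeeze_zero_norm (fun n => ?_) h4
    have hp : (0:ℝ) < (n : ℝ) + 1 := by positivity
    have e : nu n / ((n : ℝ) + 1) - κ = (nu n - κ * n) / ((n : ℝ) + 1) - κ / ((n : ℝ) + 1) := by
      field_simp
      ring
    rw [e, Real.norm_eq_abs]
    refine (abs_sub _ _).trans ?_
    rw [abs_div, abs_div, abs_of_pos hp]
    have e2 : ((n : ℝ) + 1) ^ (-(1 - θ)) = ((n : ℝ) + 1) ^ θ / ((n : ℝ) + 1) := by
      rw [show -(1 - θ) = θ - 1 by ring, Real.rpow_sub_one hp.ne']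
    rw [e2, ← mul_div_assoc]
    gcongr
    exact h n
  simpa using h5.add_const κ

lemma blk_ratio (K : Blk) (hb : Tendsto (fun n => (2 : ℝ) ^ K.m n / (K.b n : ℝ)) atTop (𝓝 0)) :
    Tendsto (fun j => ((K.b (K.num j) : ℝ) + 1) / ((j : ℝ) + 1)) atTop (𝓝 1) ∧
    Tendsto (fun j => ((K.b (K.num j + 1) : ℝ) + 1) / ((j : ℝ) + 1)) atTop (𝓝 1) := by
  have h1 : Tendsto (fun j => (2:ℝ) ^ K.m (K.num j) / (K.b (K.num j) : ℝ)) atTop (𝓝 0) :=
    hb.comp K.num_tendsto
  have hev : ∀ᶠ j in atTop, 1 ≤ K.b (K.num j) :=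
    (K.mono.tendsto_atTop.comp K.num_tendsto).eventually_ge_atTop 1
  have key : ∀ᶠ j : ℕ in atTop,
      (1 - (2:ℝ) ^ K.m (K.num j) / (K.b (K.num j) : ℝ) ≤
        ((K.b (K.num j) : ℝ) + 1) / ((j : ℝ) + 1) ∧
      ((K.b (K.num j) : ℝ) + 1) / ((j : ℝ) + 1) ≤ 1) ∧
      (1 ≤ ((K.b (K.num j + 1) : ℝ) + 1) / ((j : ℝ) + 1) ∧
      ((K.b (K.num j + 1) : ℝ) + 1) / ((j : ℝ) + 1) ≤
        1 + (2:ℝ) ^ K.m (K.num j) / (K.b (K.num j) : ℝ)) := by
    filter_upwards [hev] with j hj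
    obtain ⟨h3, h4⟩ := K.num_spec j
    have hs := K.step (K.num j)
    set x : ℝ := (2:ℝ) ^ K.m (K.num j) / (K.b (K.num j) : ℝ) with hx
    have hb0 : (0:ℝ) < K.b (K.num j) := by exact_mod_cast hj
    have hxb : (2:ℝ) ^ K.m (K.num j) = x * K.b (K.num j) := by rw [hx]; field_simp
    have hx0 : 0 ≤ x := by positivity
    have hs' : (K.b (K.num j + 1) : ℝ) = K.b (K.num j) + x * K.b (K.num j) := by
      rw [hs]; push_cast; rw [hxb]
    have h3' : (K.b (K.num j) : ℝ) ≤ j := by exact_mod_cast h3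
    have h4' : (j : ℝ) + 1 ≤ K.b (K.num j + 1) := by exact_mod_cast h4
    have hp : (0:ℝ) < (j : ℝ) + 1 := by positivity
    have h5 := mul_le_mul_of_nonneg_left h3' hx0
    refine ⟨⟨?_, ?_⟩, ?_, ?_⟩
    · rw [le_div_iff₀ hp]; nlinarith
    · rw [div_le_one hp]; linarith
    · rw [one_le_div hp]; linarith
    · rw [div_le_iff₀ hp]; nlinarith
  constructor
  · refine tendsto_of_tendsto_of_tendsto_of_le_of_le' (g := fun j => 1 - (2:ℝ) ^ K.m (K.num j) /
      (K.b (K.num j) : ℝ)) (h := fun _ => 1) ?_ tendsto_const_nhds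
      (key.mono fun j h => h.1.1) (key.mono fun j h => h.1.2)
    simpa using h1.const_sub 1
  · refine tendsto_of_tendsto_of_tendsto_of_le_of_le' (g := fun _ => 1) (h := fun j => 1 +
      (2:ℝ) ^ K.m (K.num j) / (K.b (K.num j) : ℝ)) tendsto_const_nhds ?_
      (key.mono fun j h => h.2.1) (key.mono fun j h => h.2.2)
    simpa using h1.const_add 1

/-- the frequencies at the ends of the block are asymptotic to the new frequency -/
lemma freq_ratio {om : ℕ → ℝ} (hmono : Monotone om) (h0 : 0 ≤ om 0) {d : ℕ} (hd : d ≠ 0)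
    {κ C θ : ℝ} (hκ : 0 < κ) (hθ1 : θ < 1)
    (h : ∀ n : ℕ, |om n ^ d - κ * n| ≤ C * ((n : ℝ) + 1) ^ θ) {ε : ℝ} (hε : 0 < ε) {c : ℕ → ℕ}
    (hct : Tendsto c atTop atTop)
    (hc : Tendsto (fun j => ((c j : ℝ) + 1) / ((j : ℝ) + 1)) atTop (𝓝 1)) :
    Tendsto (fun j => Real.sqrt (newlam (fun i => om i ^ 2) ε j)) atTop atTop ∧
    Tendsto (fun j => om (c j) / Real.sqrt (newlam (fun i => om i ^ 2) ε j)) atTop (𝓝 1) := by
  have hA := nu_ratio hθ1 h
  have hpos : ∀ i, 0 ≤ om i := fun i => h0.trans (hmono (Nat.zero_le i))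
  have h1 : Tendsto (fun n : ℕ => ((n : ℝ) + 1)) atTop atTop :=
    tendsto_atTop_add_const_right _ _ tendsto_natCast_atTop_atTop
  have hinf : Tendsto (fun n => om n ^ d) atTop atTop := by
    have h2 := hA.pos_mul_atTop hκ h1
    refine h2.congr fun n => ?_
    have hp : (0:ℝ) < (n : ℝ) + 1 := by positivity
    field_simp
  have hom : Tendsto om atTop atTop := by
    refine tendsto_atTop.2 fun B => ?_
    filter_upwards [hinf.eventually_gt_atTop ((max B 0) ^ d)] with n hn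
    exact (le_max_left B 0).trans (lt_of_pow_lt_pow_left₀ d (hpos n) hn).le
  have hcl : ∀ j, om j ≤ Real.sqrt (newlam (fun i => om i ^ 2) ε j) := fun j => by
    have := (newlam_close (lam := fun i => om i ^ 2) hε j).1
    exact Real.le_sqrt_of_sq_le (by simpa using this)
  have hsq : Tendsto (fun j => Real.sqrt (newlam (fun i => om i ^ 2) ε j)) atTop atTop :=
    tendsto_atTop_mono hcl hom
  refine ⟨hsq, ?_⟩
  have hev : ∀ᶠ j in atTop, 0 < om j := hom.eventually_gt_atTop 0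
  have r1 : Tendsto (fun j => om (c j) / om j) atTop (𝓝 1) := by
    have h2 : Tendsto (fun j => om (c j) ^ d / ((c j : ℝ) + 1) * (((c j : ℝ) + 1) / ((j : ℝ) + 1)) /
        (om j ^ d / ((j : ℝ) + 1))) atTop (𝓝 (κ * 1 / κ)) :=
      ((hA.comp hct).mul hc).div hA hκ.ne'
    rw [mul_one, div_self hκ.ne'] at h2
    have h3 : Tendsto (fun j => (om (c j) / om j) ^ d) atTop (𝓝 1) := by
      refine h2.congr' ?_
      filter_upwards [hev] with j hj
      have hp : (0:ℝ) < (j : ℝ) + 1 := by positivity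
      have hq : (0:ℝ) < (c j : ℝ) + 1 := by positivity
      rw [div_pow]
      field_simp
    have h4 := h3.rpow_const (p := ((d : ℝ)⁻¹)) (Or.inl one_ne_zero)
    rw [Real.one_rpow] at h4
    refine h4.congr fun j => ?_
    exact Real.pow_rpow_inv_natCast (div_nonneg (hpos _) (hpos _)) hd
  have r2 : Tendsto (fun j => Real.sqrt (newlam (fun i => om i ^ 2) ε j) / om j) atTop (𝓝 1) := by
    have hom2 : Tendsto (fun j => om j ^ 2) atTop atTop :=
      (tendsto_pow_atTop (by norm_num : (2:ℕ) ≠ 0)).comp hom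
    have h2 : Tendsto (fun j => (ε / 4) / om j ^ 2) atTop (𝓝 0) :=
      tendsto_const_nhds.div_atTop hom2
    have h3 : Tendsto (fun j => newlam (fun i => om i ^ 2) ε j / om j ^ 2) atTop (𝓝 1) := by
      refine tendsto_of_tendsto_of_tendsto_of_le_of_le' (g := fun _ => 1)
        (h := fun j => 1 + (ε / 4) / om j ^ 2) tendsto_const_nhds (by simpa using h2.const_add 1)
        ?_ ?_
      · filter_upwards [hev] with j hj
        have := (newlam_close (lam := fun i => om i ^ 2) hε j).1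
        rw [one_le_div (by positivity)]
        linarith
      · filter_upwards [hev] with j hj
        have := (newlam_close (lam := fun i => om i ^ 2) hε j).2
        rw [div_le_iff₀ (by positivity), add_mul, div_mul_cancel₀ _ (by positivity)]
        linarith
    have h4 := (Real.continuous_sqrt.tendsto 1).comp h3
    rw [Real.sqrt_one] at h4
    refine h4.congr' ?_
    filter_upwards [hev] with j hj
    simp only [Function.comp_apply]
    rw [Real.sqrt_div' _ (sq_nonneg _), Real.sqrt_sq hj.le]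
  have h5 := r1.div r2 one_ne_zero
  rw [div_one] at h5
  refine h5.congr' ?_
  filter_upwards [hev] with j hj
  simp only [Pi.div_apply]
  have := lt_of_lt_of_le hj (hcl j)
  field_simp

/-- from the powers `d` to squares -/
lemma sq_close {d : ℕ} (hd : 2 ≤ d) {θ σ ε : ℝ} (hθ0 : 0 ≤ θ) (hε : 0 < ε) (hσ0 : 0 ≤ σ)
    (hσ : 1 - d * (1 - θ) / 2 < σ) :
    ∃ σ' ε' : ℝ, θ < σ' ∧ 0 < ε' ∧ ∀ x y : ℝ, 0 ≤ y → y ≤ x →
      x ^ d - y ^ d ≤ ε' / 4 * (1 + y ^ d) ^ σ' → x ^ 2 - y ^ 2 ≤ ε / 4 * (1 + y ^ 2) ^ σ := by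
  have hd0 : (0:ℝ) < d := by positivity
  have hd2 : (2:ℝ) ≤ d := by exact_mod_cast hd
  set σ' : ℝ := (2 * σ + d - 2) / d with hσ'
  have hθσ : θ < σ' := by
    rw [hσ', lt_div_iff₀ hd0]; nlinarith
  have hσ'0 : 0 ≤ σ' := hθ0.trans hθσ.le
  have hdσ : (d : ℝ) * σ' = 2 * σ + ((d : ℝ) - 2) := by rw [hσ']; field_simp; ring
  set P : ℝ := (2:ℝ) ^ σ' with hP
  have hP0 : 0 < P := by positivity
  set e1 : ℝ := min (ε / 4) ((ε / 4) ^ ((d:ℝ) / 2)) with he1
  have he10 : 0 < e1 := lt_min (by positivity) (by positivity)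
  refine ⟨σ', 4 * e1 / P, hθσ, by positivity, fun x y hy hxy hxy2 => ?_⟩
  have hx : 0 ≤ x := hy.trans hxy
  have hc : 4 * e1 / P / 4 = e1 / P := by ring
  rw [hc] at hxy2
  have hone : (1:ℝ) ≤ (1 + y ^ 2) ^ σ := Real.one_le_rpow (by nlinarith [sq_nonneg y]) hσ0
  rcases le_or_gt 1 y with h1 | h1
  · have hy0 : 0 < y := by linarith
    have hyd : 1 ≤ y ^ d := one_le_pow₀ h1
    have a1 : (1 + y ^ d) ^ σ' ≤ P * y ^ (2 * σ) * y ^ (d - 2) := by
      calc (1 + y ^ d) ^ σ' ≤ (2 * y ^ d) ^ σ' :=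
            Real.rpow_le_rpow (by positivity) (by linarith) hσ'0
        _ = P * (y ^ d) ^ σ' := Real.mul_rpow (by norm_num) (by positivity)
        _ = P * y ^ (2 * σ) * y ^ (d - 2) := by
            rw [← Real.rpow_natCast y d, ← Real.rpow_mul hy, hdσ, Real.rpow_add hy0,
              ← Real.rpow_natCast y (d - 2), Nat.cast_sub hd, mul_assoc]
            norm_num
    have a2 : y ^ (d - 2) * (x ^ 2 - y ^ 2) ≤ x ^ d - y ^ d := by
      have hxd : x ^ d = x ^ (d - 2) * x ^ 2 := by rw [← pow_add, Nat.sub_add_cancel hd]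
      have hyd : y ^ d = y ^ (d - 2) * y ^ 2 := by rw [← pow_add, Nat.sub_add_cancel hd]
      have : y ^ (d - 2) ≤ x ^ (d - 2) := pow_le_pow_left₀ hy hxy _
      rw [hxd, hyd]
      nlinarith [sq_nonneg x, mul_le_mul_of_nonneg_right this (sq_nonneg x)]
    have hyp : 0 < y ^ (d - 2) := by positivity
    have a3 : y ^ (d - 2) * (x ^ 2 - y ^ 2) ≤ y ^ (d - 2) * (e1 * y ^ (2 * σ)) := by
      refine a2.trans (hxy2.trans ?_)
      calc e1 / P * (1 + y ^ d) ^ σ' ≤ e1 / P * (P * y ^ (2 * σ) * y ^ (d - 2)) := by gcongr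
        _ = y ^ (d - 2) * (e1 * y ^ (2 * σ)) := by field_simp
    have a4 := le_of_mul_le_mul_left a3 hyp
    refine a4.trans ?_
    have a5 : y ^ (2 * σ) ≤ (1 + y ^ 2) ^ σ := by
      rw [Real.rpow_mul hy, show y ^ (2:ℝ) = y ^ 2 by exact_mod_cast Real.rpow_natCast y 2]
      exact Real.rpow_le_rpow (by positivity) (by linarith) hσ0
    exact mul_le_mul (min_le_left _ _) a5 (by positivity) (by positivity)
  · have hyd : y ^ d ≤ 1 := pow_le_one₀ hy h1.le
    have a1 : (1 + y ^ d) ^ σ' ≤ P := Real.rpow_le_rpow (by positivity) (by linarith) hσ'0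
    have a2 : x ^ d - y ^ d ≤ (ε / 4) ^ ((d:ℝ) / 2) := by
      refine hxy2.trans ?_
      calc e1 / P * (1 + y ^ d) ^ σ' ≤ e1 / P * P := by gcongr
        _ = e1 := by field_simp
        _ ≤ _ := min_le_right _ _
    set t : ℝ := x ^ 2 - y ^ 2 with ht
    have ht0 : 0 ≤ t := by rw [ht]; nlinarith
    have hpw : ∀ w : ℝ, 0 ≤ w → (w ^ 2) ^ ((d:ℝ) / 2) = w ^ d := by
      intro w hw
      rw [show w ^ 2 = w ^ (2:ℝ) by exact_mod_cast (Real.rpow_natCast w 2).symm,
        ← Real.rpow_mul hw, mul_div_cancel₀ _ (by norm_num : (2:ℝ) ≠ 0), Real.rpow_natCast]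
    have a3 := Real.add_rpow_le_rpow_add (sq_nonneg y) ht0
      (p := (d:ℝ) / 2) (by linarith)
    have a4 : y ^ 2 + t = x ^ 2 := by rw [ht]; ring
    rw [a4, hpw y hy, hpw x hx] at a3
    have a5 : t ^ ((d:ℝ) / 2) ≤ (ε / 4) ^ ((d:ℝ) / 2) := by linarith
    have a6 : t ≤ ε / 4 := (Real.rpow_le_rpow_iff ht0 (by positivity) (by positivity)).1 a5
    nlinarith

end Pool.Agent.U34.BW
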