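import Pool.Agent.U34.BW.Field
import Pool.Agent.U34.BW.Rat

/-!
# Local fields: the observables, and convergence to the random wave
-/

set_option autoImplicit false

open MeasureTheory Finset Filter Topology ProbabilityTheory
open scoped BoundedContinuousFunction NNReal ENNReal

namespace Pool.Agent.U34.BW

section general

variable {X : Type*} [MeasurableSpace X] {μ : Measure X}

/-- the limit covariances are positive semidefinite -/
lemma Obs.psd [IsProbabilityMeasure μ] {K : Blk} {Φ : ℕ → ℕ → ℕ → X → ℝ} {C : ℝ} {ρ : ℕ → ℕ → ℝ}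
    (h : Obs μ K Φ C ρ) (N : ℕ) : (Matrix.of fun a b : Fin N => ρ a b).PosSemidef := by
  have h1 : ∀ᵐ x ∂μ, ∀ a a', Tendsto (fun j => (∑ i ∈ K.blk (K.num j), Φ j a i x * Φ j a' i x) /
      2 ^ K.m (K.num j)) atTop (𝓝 (ρ a a')) :=
    ae_all_iff.2 fun a => ae_all_iff.2 fun a' => h.cov a a'
  obtain ⟨x, hx⟩ := h1.exists
  refine Matrix.PosSemidef.of_dotProduct_mulVec_nonneg ?_ fun t => ?_
  · ext a b
    simp only [Matrix.conjTranspose_apply, Matrix.of_apply, star_trivial]
    refine tendsto_nhds_unique (hx b a) ((hx a b).congr fun j => ?_)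
    simp only [mul_comm]
  · have h2 : Tendsto (fun j => ∑ a : Fin N, ∑ b : Fin N, t a * t b *
        ((∑ i ∈ K.blk (K.num j), Φ j a i x * Φ j b i x) / 2 ^ K.m (K.num j))) atTop
        (𝓝 (∑ a : Fin N, ∑ b : Fin N, t a * t b * ρ a b)) :=
      tendsto_finsetSum _ fun a _ => tendsto_finsetSum _ fun b _ => (hx a b).const_mul _
    have h3 : star t ⬝ᵥ ((Matrix.of fun a b : Fin N => ρ a b).mulVec t) =
        ∑ a : Fin N, ∑ b : Fin N, t a * t b * ρ a b := by
      simp only [dotProduct, Matrix.mulVec, Matrix.of_apply, Pi.star_apply, star_trivial,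
        Finset.mul_sum]
      exact Finset.sum_congr rfl fun a _ => Finset.sum_congr rfl fun b _ => by ring
    rw [h3]
    refine ge_of_tendsto' h2 fun j => ?_
    have e : ∑ a : Fin N, ∑ b : Fin N, t a * t b *
        ((∑ i ∈ K.blk (K.num j), Φ j a i x * Φ j b i x) / 2 ^ K.m (K.num j)) =
        (∑ i ∈ K.blk (K.num j), (∑ a : Fin N, t a * Φ j a i x) ^ 2) / 2 ^ K.m (K.num j) := by
      have e1 : ∀ i, (∑ a : Fin N, t a * Φ j a i x) ^ 2 =
          ∑ a : Fin N, ∑ b : Fin N, t a * t b * (Φ j a i x * Φ j b i x) := by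
        intro i
        rw [sq, Finset.sum_mul_sum]
        exact Finset.sum_congr rfl fun a _ => Finset.sum_congr rfl fun b _ => by ring
      simp_rw [e1]
      have e2 : ∑ i ∈ K.blk (K.num j), ∑ a : Fin N, ∑ b : Fin N,
          t a * t b * (Φ j a i x * Φ j b i x) = ∑ a : Fin N, ∑ b : Fin N,
          t a * t b * ∑ i ∈ K.blk (K.num j), Φ j a i x * Φ j b i x := by
        rw [Finset.sum_comm]
        refine Finset.sum_congr rfl fun a _ => ?_
        rw [Finset.sum_comm]
        exact Finset.sum_congr rfl fun b _ => (Finset.mul_sum _ _ _).symm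
      rw [e2, Finset.sum_div]
      refine Finset.sum_congr rfl fun a _ => ?_
      rw [Finset.sum_div]
      exact Finset.sum_congr rfl fun b _ => by rw [mul_div_assoc]
    rw [e]
    positivity

/-- Lévy's theorem for vectors, in terms of sine and cosine integrals -/
theorem levy_multi [IsProbabilityMeasure μ] {N : ℕ} {f : ℕ → X → EuclideanSpace ℝ (Fin N)}
    (hf : ∀ j, AEMeasurable (f j) μ) {S : Matrix (Fin N) (Fin N) ℝ} (hS : S.PosSemidef)
    (h0 : ∀ t : Fin N → ℝ, Tendsto (fun j => ∫ x, Real.cos (∑ a, t a * f j x a) ∂μ) atTop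
      (𝓝 (Real.exp (-((∑ a, ∑ a', t a * t a' * S a a') / 2)))))
    (h1 : ∀ t : Fin N → ℝ, Tendsto (fun j => ∫ x, Real.sin (∑ a, t a * f j x a) ∂μ) atTop (𝓝 0))
    (g : EuclideanSpace ℝ (Fin N) →ᵇ ℝ) :
    Tendsto (fun j => ∫ x, g (f j x) ∂μ) atTop (𝓝 (∫ y, g y ∂(multivariateGaussian 0 S))) := by
  set ν : ℕ → ProbabilityMeasure (EuclideanSpace ℝ (Fin N)) := fun j =>
    ⟨μ.map (f j), Measure.isProbabilityMeasure_map (hf j)⟩ with hν
  set γ : ProbabilityMeasure (EuclideanSpace ℝ (Fin N)) :=
    ⟨multivariateGaussian 0 S, inferInstance⟩ with hγ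
  have hin : ∀ x t : EuclideanSpace ℝ (Fin N), inner ℝ x t = ∑ a, t a * x a := by
    intro x t
    simp [PiLp.inner_apply]
  have key : Tendsto ν atTop (𝓝 γ) := by
    rw [ProbabilityMeasure.tendsto_iff_tendsto_charFun]
    intro t
    have e1 : charFun (γ : Measure (EuclideanSpace ℝ (Fin N))) t =
        ((Real.exp (-((∑ a, ∑ a', t a * t a' * S a a') / 2)) : ℝ) : ℂ) := by
      show charFun (multivariateGaussian 0 S) t = _
      rw [charFun_multivariateGaussian hS]
      have e3 : (t.ofLp ⬝ᵥ S.mulVec t.ofLp) = ∑ a, ∑ a', t a * t a' * S a a' := by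
        simp only [dotProduct, Matrix.mulVec, Finset.mul_sum]
        exact Finset.sum_congr rfl fun a _ => Finset.sum_congr rfl fun b _ => by ring
      rw [e3, inner_zero_right]
      push_cast
      congr 1
      ring
    have e2 : ∀ j, charFun (ν j : Measure (EuclideanSpace ℝ (Fin N))) t =
        ((∫ x, Real.cos (∑ a, t a * f j x a) ∂μ : ℝ) : ℂ) +
        ((∫ x, Real.sin (∑ a, t a * f j x a) ∂μ : ℝ) : ℂ) * Complex.I := by
      intro j
      show charFun (μ.map (f j)) t = _
      rw [charFun_apply, integral_map (hf j) (by fun_prop)]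
      have hm : AEStronglyMeasurable (fun x => ∑ a, t a * f j x a) μ := by
        have h5 : AEMeasurable (fun x => inner ℝ (f j x) t) μ :=
          ((continuous_id.inner continuous_const).measurable.comp_aemeasurable (hf j) :
            AEMeasurable (fun x => inner ℝ (f j x) t) μ)
        simp only [hin] at h5
        exact h5.aestronglyMeasurable
      have i1 : Integrable (fun x => Real.cos (∑ a, t a * f j x a)) μ :=
        int_bdd (Real.continuous_cos.comp_aestronglyMeasurable hm) fun x => Real.abs_cos_le_one _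
      have i2 : Integrable (fun x => Real.sin (∑ a, t a * f j x a)) μ :=
        int_bdd (Real.continuous_sin.comp_aestronglyMeasurable hm) fun x => Real.abs_sin_le_one _
      rw [← integral_complex_ofReal, ← integral_complex_ofReal, ← integral_mul_const,
        ← integral_add i1.ofReal (i2.ofReal.mul_const _)]
      refine integral_congr_ae (Eventually.of_forall fun x => ?_)
      show Complex.exp ((inner ℝ (f j x) t : ℝ) * Complex.I) = _
      rw [hin, Complex.exp_mul_I, ← Complex.ofReal_cos, ← Complex.ofReal_sin]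
    rw [e1]
    simp_rw [e2]
    have h2 := (Complex.continuous_ofReal.tendsto _).comp (h0 t)
    have h3 := ((Complex.continuous_ofReal.tendsto _).comp (h1 t)).mul_const Complex.I
    have h4 := h2.add h3
    simpa using h4
  have h2 := (ProbabilityMeasure.tendsto_iff_forall_integral_tendsto.1 key) g
  have e3 : ∀ j, ∫ y, g y ∂(ν j : Measure (EuclideanSpace ℝ (Fin N))) = ∫ x, g (f j x) ∂μ :=
    fun j => by
    show ∫ y, g y ∂(μ.map (f j)) = _
    rw [integral_map (hf j) (by fun_prop)]
  simp_rw [e3] at h2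
  exact h2

/-- from a dense family of sets to all sets -/
theorem all_sets' [IsProbabilityMeasure μ] {G : ℕ → X → ℝ}
    (hG : ∀ j, AEStronglyMeasurable (G j) μ) {M : ℝ} (hM0 : 0 ≤ M) (hM : ∀ j x, ‖G j x‖ ≤ M)
    {𝒜 : Set (Set X)} (hd : μ.MeasureDense 𝒜) (m : ℝ) (hm : |m| ≤ M)
    (h : ∀ A ∈ 𝒜, Tendsto (fun j => ∫ x in A, G j x ∂μ) atTop (𝓝 (μ.real A * m)))
    {A : Set X} (hA : MeasurableSet A) :
    Tendsto (fun j => ∫ x in A, G j x ∂μ) atTop (𝓝 (μ.real A * m)) := by
  have hgi : ∀ j, Integrable (G j) μ := fun j =>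
    Integrable.of_bound (hG j) M (Eventually.of_forall fun x => hM j x)
  rw [Metric.tendsto_atTop]
  intro ε hε
  set δ : ℝ := ε / (4 * (M + 1)) with hδ
  have hδ0 : 0 < δ := by positivity
  obtain ⟨B, hB, hAB⟩ := hd.approx A hA (measure_ne_top μ A) δ hδ0
  have hBm : MeasurableSet B := hd.measurable B hB
  have hAB' : μ.real (symmDiff A B) ≤ δ :=
    ENNReal.toReal_le_of_le_ofReal hδ0.le hAB.le
  obtain ⟨J, hJ⟩ := Metric.tendsto_atTop.1 (h B hB) (ε / 4) (by positivity)
  refine ⟨J, fun j hj => ?_⟩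
  have h1 := hJ j hj
  rw [Real.dist_eq] at h1 ⊢
  have e1 : |∫ x in A, G j x ∂μ - ∫ x in B, G j x ∂μ| ≤ M * δ := by
    rw [← integral_indicator hA, ← integral_indicator hBm,
      ← integral_sub ((hgi j).indicator hA) ((hgi j).indicator hBm)]
    calc |∫ x, (A.indicator (fun x => G j x) x - B.indicator (fun x => G j x) x) ∂μ|
        ≤ ∫ x, (symmDiff A B).indicator (fun _ => M) x ∂μ := by
          rw [← Real.norm_eq_abs]
          refine norm_integral_le_of_norm_le
            ((integrable_const M).indicator (hA.symmDiff hBm))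
            (Eventually.of_forall fun x => ?_)
          have h2 : ‖G j x‖ ≤ M := hM j x
          by_cases hx : x ∈ A
          · by_cases hy : x ∈ B
            · rw [Set.indicator_of_mem hx, Set.indicator_of_mem hy, sub_self, norm_zero]
              exact Set.indicator_nonneg (fun _ _ => hM0) _
            · rw [Set.indicator_of_mem hx, Set.indicator_of_notMem hy, sub_zero,
                Set.indicator_of_mem (Set.mem_symmDiff.2 (Or.inl ⟨hx, hy⟩))]
              exact h2
          · by_cases hy : x ∈ B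
            · rw [Set.indicator_of_notMem hx, Set.indicator_of_mem hy, zero_sub, norm_neg,
                Set.indicator_of_mem (Set.mem_symmDiff.2 (Or.inr ⟨hy, hx⟩))]
              exact h2
            · rw [Set.indicator_of_notMem hx, Set.indicator_of_notMem hy, sub_zero, norm_zero]
              exact Set.indicator_nonneg (fun _ _ => hM0) _
      _ = μ.real (symmDiff A B) * M := by
          rw [integral_indicator (hA.symmDiff hBm), setIntegral_const, smul_eq_mul]
      _ ≤ M * δ := by rw [mul_comm]; gcongr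
  have e2 : |μ.real A - μ.real B| ≤ δ := by
    have h3 : μ.real A ≤ μ.real B + μ.real (symmDiff A B) := by
      refine (measureReal_mono ?_).trans (measureReal_union_le B (symmDiff A B))
      intro x hx
      by_cases hy : x ∈ B
      · exact Or.inl hy
      · exact Or.inr (Set.mem_symmDiff.2 (Or.inl ⟨hx, hy⟩))
    have h4 : μ.real B ≤ μ.real A + μ.real (symmDiff A B) := by
      refine (measureReal_mono ?_).trans (measureReal_union_le A (symmDiff A B))
      intro x hx
      by_cases hy : x ∈ A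
      · exact Or.inl hy
      · exact Or.inr (Set.mem_symmDiff.2 (Or.inr ⟨hx, hy⟩))
    rw [abs_le]; constructor <;> linarith
  have e3 : ∫ x in A, G j x ∂μ - μ.real A * m =
      (∫ x in A, G j x ∂μ - ∫ x in B, G j x ∂μ) +
      ((∫ x in B, G j x ∂μ - μ.real B * m) + (μ.real B - μ.real A) * m) := by ring
  rw [e3]
  have h5 := abs_add_le (∫ x in A, G j x ∂μ - ∫ x in B, G j x ∂μ)
    ((∫ x in B, G j x ∂μ - μ.real B * m) + (μ.real B - μ.real A) * m)
  have h6 := abs_add_le (∫ x in B, G j x ∂μ - μ.real B * m) ((μ.real B - μ.real A) * m)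
  have h7 : |(μ.real B - μ.real A) * m| ≤ δ * M := by
    rw [abs_mul, abs_sub_comm]; gcongr
  have h8 : M * δ ≤ ε / 4 := by
    rw [hδ]
    have : M * (ε / (4 * (M + 1))) = ε / 4 * (M / (M + 1)) := by field_simp
    rw [this]
    have h9 : M / (M + 1) ≤ 1 := by rw [div_le_one (by positivity)]; linarith
    nlinarith
  linarith

end general

variable {X : Type*} [MeasurableSpace X] [MetricSpace X] {m : Measure X} {Ω : Set X} {d : ℕ}
  {T : ℝ → EuclideanSpace ℝ (Fin d) → X → X} {F : ℝ → ℝ} {φ : ℕ → X → ℝ} {om : ℕ → ℝ} {θ : ℝ}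
  {C₀ : ℝ≥0}

/-- the local fields are observables -/
theorem obs_local (hθ0 : 0 ≤ θ) (hθ1 : θ < 1) (hd : d ≠ 0) (h : LocSys m Ω T F φ om θ C₀)
    {ε : ℝ} (hε : 0 < ε) {K : Blk} (hm : Tendsto K.m atTop atTop)
    (hR : Tendsto (fun n => ((K.b (n + 1) : ℝ) + 1) ^ θ / 2 ^ K.m n) atTop (𝓝 0))
    (hb : Tendsto (fun n => (2 : ℝ) ^ K.m n / (K.b n : ℝ)) atTop (𝓝 0))
    (z : ℕ → EuclideanSpace ℝ (Fin d)) :
    Obs (ProbabilityTheory.cond m Ω) K
      (fun j a i p => φ i (T (Real.sqrt (newlam (fun i => om i ^ 2) ε j)) (z a) p)) C₀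
      (fun a a' => F ‖z a - z a'‖) := by
  have hac : ProbabilityTheory.cond m Ω ≪ m.restrict Ω := Measure.smul_absolutelyContinuous
  obtain ⟨κ, C, hκ, hweyl⟩ := h.weyl
  obtain ⟨hc1, hc2⟩ := blk_ratio K hb
  have hbt : Tendsto (fun j => K.b (K.num j)) atTop atTop :=
    K.mono.tendsto_atTop.comp K.num_tendsto
  have hbt2 : Tendsto (fun j => K.b (K.num j + 1)) atTop atTop :=
    tendsto_atTop_mono (fun j => K.mono.monotone (Nat.le_succ _)) hbt
  obtain ⟨hr, hf1⟩ := freq_ratio h.mono h.nonneg hd hκ hθ1 hweyl hε hbt hc1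
  obtain ⟨-, hf2⟩ := freq_ratio h.mono h.nonneg hd hκ hθ1 hweyl hε hbt2 hc2
  set r : ℕ → ℝ := fun j => Real.sqrt (newlam (fun i => om i ^ 2) ε j) with hrdef
  have hrp : ∀ᶠ j in atTop, 0 < r j := hr.eventually_gt_atTop 0
  refine ⟨fun j a => h.bes _ _ _ _, fun a a' => ?_, fun a => ?_⟩
  · filter_upwards [hac.ae_le (h.Tnear (z a)), hac.ae_le (h.Tnear (z a')),
      hac.ae_le (h.Tdist (z a) (z a')), hac.ae_le h.law] with p h1 h2 h3 h4
    set D : ℝ := ‖z a - z a'‖ with hD
    obtain ⟨C1, δ, hδ, hlaw⟩ := h4 (D + 1)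
    have g1 : Tendsto (fun j => T (r j) (z a) p) atTop (𝓝 p) := h1.comp hr
    have g2 : Tendsto (fun j => T (r j) (z a') p) atTop (𝓝 p) := h2.comp hr
    have g3 : Tendsto (fun j => r j * dist (T (r j) (z a) p) (T (r j) (z a') p)) atTop (𝓝 D) :=
      h3.comp hr
    set dd : ℕ → ℝ := fun j => dist (T (r j) (z a) p) (T (r j) (z a') p) with hdd
    have hdd0 : ∀ j, 0 ≤ dd j := fun j => dist_nonneg
    have g4 : Tendsto (fun j => om (K.b (K.num j)) * dd j) atTop (𝓝 D) := by
      have := hf1.mul g3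
      rw [one_mul] at this
      refine this.congr' ?_
      filter_upwards [hrp] with j hj
      rw [← mul_assoc, div_mul_cancel₀ _ hj.ne']
    have g5 : Tendsto (fun j => om (K.b (K.num j + 1)) * dd j) atTop (𝓝 D) := by
      have := hf2.mul g3
      rw [one_mul] at this
      refine this.congr' ?_
      filter_upwards [hrp] with j hj
      rw [← mul_assoc, div_mul_cancel₀ _ hj.ne']
    have hD0 : 0 ≤ D := norm_nonneg _
    have hC1 : 0 ≤ C1 := by
      have := (abs_nonneg _).trans (hlaw 0 p p (by simpa using hδ) (by simpa using hδ)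
        (by rw [dist_self, mul_zero]; linarith))
      simpa using this
    have hS1 : Tendsto (fun j => (∑ i ∈ K.blk (K.num j), (φ i (T (r j) (z a) p) *
        φ i (T (r j) (z a') p) - F (om i * dd j))) / 2 ^ K.m (K.num j)) atTop (𝓝 0) := by
      have hb2 : Tendsto (fun j => 2 * C1 * (((K.b (K.num j + 1) : ℝ) + 1) ^ θ /
          2 ^ K.m (K.num j))) atTop (𝓝 0) := by
        simpa using (hR.comp K.num_tendsto).const_mul (2 * C1)
      refine squeeze_zero_norm' ?_ hb2
      have n1 : ∀ᶠ j in atTop, dist (T (r j) (z a) p) p < δ :=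
        g1.eventually (Metric.ball_mem_nhds p hδ)
      have n2 : ∀ᶠ j in atTop, dist (T (r j) (z a') p) p < δ :=
        g2.eventually (Metric.ball_mem_nhds p hδ)
      have n3 : ∀ᶠ j in atTop, om (K.b (K.num j + 1)) * dd j < D + 1 :=
        g5.eventually (gt_mem_nhds (by linarith))
      filter_upwards [n1, n2, n3] with j hj1 hj2 hj3
      have hle : K.b (K.num j) ≤ K.b (K.num j + 1) := K.mono.monotone (Nat.le_succ _)
      have hom : om (K.b (K.num j)) * dd j ≤ om (K.b (K.num j + 1)) * dd j :=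
        mul_le_mul_of_nonneg_right (h.mono hle) (hdd0 j)
      have l1 := hlaw (K.b (K.num j + 1)) _ _ hj1 hj2 hj3.le
      have l2 := hlaw (K.b (K.num j)) _ _ hj1 hj2 (hom.trans hj3.le)
      have hp : (0:ℝ) < 2 ^ K.m (K.num j) := by positivity
      have e1 : ∑ i ∈ K.blk (K.num j), (φ i (T (r j) (z a) p) *
          φ i (T (r j) (z a') p) - F (om i * dd j)) =
          ∑ i ∈ range (K.b (K.num j + 1)), (φ i (T (r j) (z a) p) *
            φ i (T (r j) (z a') p) - F (om i * dd j)) -
          ∑ i ∈ range (K.b (K.num j)), (φ i (T (r j) (z a) p) *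
            φ i (T (r j) (z a') p) - F (om i * dd j)) := by
        unfold Blk.blk
        rw [Finset.sum_Ico_eq_sub _ hle]
      have hle' : (K.b (K.num j) : ℝ) ≤ K.b (K.num j + 1) := by exact_mod_cast hle
      have l3 : C1 * ((K.b (K.num j) : ℝ) + 1) ^ θ ≤ C1 * ((K.b (K.num j + 1) : ℝ) + 1) ^ θ := by
        gcongr
      rw [Real.norm_eq_abs, abs_div, abs_of_pos hp, ← mul_div_assoc, e1]
      gcongr
      refine (abs_sub _ _).trans ?_
      linarith
    have hS2 : Tendsto (fun j => (∑ i ∈ K.blk (K.num j), F (om i * dd j)) /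
        2 ^ K.m (K.num j)) atTop (𝓝 (F D)) := by
      rw [Metric.tendsto_atTop]
      intro η hη
      obtain ⟨δ', hδ', hF⟩ := Metric.continuousAt_iff.1 (h.Fcont.continuousAt (x := D)) (η / 2)
        (by positivity)
      have n1 : ∀ᶠ j in atTop, D - δ' < om (K.b (K.num j)) * dd j :=
        g4.eventually (lt_mem_nhds (by linarith))
      have n2 : ∀ᶠ j in atTop, om (K.b (K.num j + 1)) * dd j < D + δ' :=
        g5.eventually (gt_mem_nhds (by linarith))
      obtain ⟨J, hJ⟩ := eventually_atTop.1 (n1.and n2)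
      refine ⟨J, fun j hj => ?_⟩
      obtain ⟨hj1, hj2⟩ := hJ j hj
      have hp : (0:ℝ) < 2 ^ K.m (K.num j) := by positivity
      have e1 : (∑ i ∈ K.blk (K.num j), F (om i * dd j)) / 2 ^ K.m (K.num j) - F D =
          (∑ i ∈ K.blk (K.num j), (F (om i * dd j) - F D)) / 2 ^ K.m (K.num j) := by
        rw [Finset.sum_sub_distrib, sub_div]
        congr 1
        rw [K.sum_blk (K.num j) (fun _ => F D)]
        simp only [Finset.sum_const, Finset.card_range, nsmul_eq_mul]
        push_cast
        field_simp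
      have e2 : ∀ i ∈ K.blk (K.num j), |F (om i * dd j) - F D| ≤ η / 2 := by
        intro i hi
        have hi' := Finset.mem_Ico.1 hi
        have a1 : om (K.b (K.num j)) * dd j ≤ om i * dd j :=
          mul_le_mul_of_nonneg_right (h.mono hi'.1) (hdd0 j)
        have a2 : om i * dd j ≤ om (K.b (K.num j + 1)) * dd j :=
          mul_le_mul_of_nonneg_right (h.mono hi'.2.le) (hdd0 j)
        have a3 : dist (om i * dd j) D < δ' := by
          rw [Real.dist_eq, abs_lt]
          constructor <;> linarith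
        have a4 := hF a3
        rw [Real.dist_eq] at a4
        exact a4.le
      rw [Real.dist_eq, e1, abs_div, abs_of_pos hp, div_lt_iff₀ hp]
      calc |∑ i ∈ K.blk (K.num j), (F (om i * dd j) - F D)|
          ≤ ∑ i ∈ K.blk (K.num j), |F (om i * dd j) - F D| := Finset.abs_sum_le_sum_abs _ _
        _ ≤ ∑ i ∈ K.blk (K.num j), η / 2 := Finset.sum_le_sum e2
        _ = 2 ^ K.m (K.num j) * (η / 2) := by
            rw [K.sum_blk (K.num j) (fun _ => η / 2)]
            simp only [Finset.sum_const, Finset.card_range, nsmul_eq_mul]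
            push_cast
            rfl
        _ < η * 2 ^ K.m (K.num j) := by nlinarith
    have hS := hS1.add hS2
    rw [zero_add] at hS
    refine hS.congr fun j => ?_
    rw [← add_div, ← Finset.sum_add_distrib]
    congr 1
    exact Finset.sum_congr rfl fun i _ => by ring
  · filter_upwards [hac.ae_le (h.Tnear (z a)), hac.ae_le h.law] with p h1 h4 η hη
    obtain ⟨C1, δ, hδ, hlaw⟩ := h4 0
    have g1 : Tendsto (fun j => T (r j) (z a) p) atTop (𝓝 p) := h1.comp hr
    have n1 : ∀ᶠ j in atTop, dist (T (r j) (z a) p) p < δ :=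
      g1.eventually (Metric.ball_mem_nhds p hδ)
    have h1 : Tendsto (fun n => 1 / 2 ^ K.m n + 2 * C1 * (((K.b (n + 1) : ℝ) + 1) ^ θ / 2 ^ K.m n))
        atTop (𝓝 0) := by
      have h2 : Tendsto (fun n => (2:ℝ) ^ K.m n) atTop atTop :=
        (tendsto_pow_atTop_atTop_of_one_lt (by norm_num : (1:ℝ) < 2)).comp hm
      have h3 : Tendsto (fun n => 1 / (2:ℝ) ^ K.m n) atTop (𝓝 0) :=
        tendsto_const_nhds.div_atTop h2
      simpa using h3.add (hR.const_mul (2 * C1))
    have h2 := (h1.comp K.num_tendsto).eventually (gt_mem_nhds (by positivity : 0 < η ^ 2))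
    filter_upwards [n1, h2] with j hj0 hj i hi
    have hC : ∀ n : ℕ, |∑ i ∈ range n, φ i (T (r j) (z a) p) ^ 2 - n| ≤
        C1 * ((n : ℝ) + 1) ^ θ := by
      intro n
      have h5 := hlaw n _ _ hj0 hj0 (by rw [dist_self, mul_zero])
      simp only [dist_self, mul_zero, h.F0, Finset.sum_sub_distrib, Finset.sum_const,
        Finset.card_range, nsmul_eq_mul, mul_one, ← sq] at h5
      exact h5
    have h4 := (block_law (K := K) hθ0 (f := fun i => φ i (T (r j) (z a) p)) (fun n => rfl) hC
      (K.num j)).2 i hi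
    have hp : (0:ℝ) < 2 ^ K.m (K.num j) := by positivity
    simp only [Function.comp_apply] at hj
    have h5 : φ i (T (r j) (z a) p) ^ 2 ≤ η ^ 2 * 2 ^ K.m (K.num j) := by
      refine h4.trans ?_
      have e : 1 + 2 * C1 * ((K.b (K.num j + 1) : ℝ) + 1) ^ θ =
          (1 / 2 ^ K.m (K.num j) + 2 * C1 * (((K.b (K.num j + 1) : ℝ) + 1) ^ θ /
            2 ^ K.m (K.num j))) * 2 ^ K.m (K.num j) := by field_simp
      rw [e]
      gcongr
    show |φ i (T (r j) (z a) p)| ≤ _
    rw [← Real.sqrt_sq_eq_abs]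
    calc Real.sqrt (φ i (T (r j) (z a) p) ^ 2) ≤ Real.sqrt (η ^ 2 * 2 ^ K.m (K.num j)) :=
          Real.sqrt_le_sqrt h5
      _ = η * Real.sqrt (2 ^ K.m (K.num j)) := by
          rw [Real.sqrt_mul (sq_nonneg η), Real.sqrt_sq hη.le]

end Pool.Agent.U34.BW
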