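import Pool.Agent.U34.BW.Loc

/-!
# The local fields of the eigenfunctions of small perturbations converge to the random wave
-/

set_option autoImplicit false

open MeasureTheory Finset Filter Topology ProbabilityTheory
open scoped BoundedContinuousFunction NNReal ENNReal

namespace Pool.Agent.U34.BW

variable {X : Type*} [MeasurableSpace X] [MetricSpace X] {m : Measure X} {Ω : Set X} {d : ℕ}
  {T : ℝ → EuclideanSpace ℝ (Fin d) → X → X} {F : ℝ → ℝ} {φ : ℕ → X → ℝ} {om : ℕ → ℝ} {θ : ℝ}
  {C₀ : ℝ≥0}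

/-- **Convergence of the local fields to the random wave, for small perturbations.** -/
theorem localfields [MeasurableSpace.CountablyGenerated X] (hd : 2 ≤ d) (hθ0 : 0 ≤ θ)
    (hθ1 : θ < 1) {σ ε : ℝ} (hσ0 : 0 ≤ σ) (hσ : 1 - d * (1 - θ) / 2 < σ) (hε : 0 < ε)
    (h : LocSys m Ω T F φ om θ C₀) (z : ℕ → EuclideanSpace ℝ (Fin d)) :
    (∀ N, (Matrix.of fun a b : Fin N => F ‖z a - z b‖).PosSemidef) ∧
    ∃ (k u : ℕ → ℕ → ℝ) (I : ℕ → Finset ℕ) (lam' : ℕ → ℝ),
      Perturb (fun i => om i ^ 2) ε σ k u I lam' ∧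
      ∀ e : ℕ → ℝ, (∀ j, e j = 1 ∨ e j = -1) → ∀ A : Set X, MeasurableSet A →
        ∀ (N : ℕ) (G : EuclideanSpace ℝ (Fin N) →ᵇ ℝ),
        Tendsto (fun j => ∫ p in A, G (WithLp.toLp 2 fun a : Fin N =>
            e j * ∑ i ∈ I j, u j i * φ i (T (Real.sqrt (lam' j)) (z a) p))
            ∂(ProbabilityTheory.cond m Ω)) atTop
          (𝓝 ((ProbabilityTheory.cond m Ω).real A *
            ∫ y, G y ∂(multivariateGaussian 0 (Matrix.of fun a b : Fin N => F ‖z a - z b‖)))) := by
  set μ := ProbabilityTheory.cond m Ω with hμ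
  have hprobμ : IsProbabilityMeasure μ :=
    ProbabilityTheory.cond_isProbabilityMeasure_of_finite h.pos h.fin
  obtain ⟨κ, C, hκ, hweyl⟩ := h.weyl
  have hC0 : 0 ≤ C := by
    have := (abs_nonneg _).trans (hweyl 0)
    simpa using this
  have hpos : ∀ i, 0 ≤ om i := fun i => h.nonneg.trans (h.mono (Nat.zero_le i))
  obtain ⟨σ', ε', hθσ, hε', hsq⟩ := sq_close hd hθ0 hε hσ0 hσ
  obtain ⟨K, hm, hR, hb, hsp⟩ := exists_blk (lam := fun i => om i ^ d)
    (fun i j hij => pow_le_pow_left₀ (hpos i) (h.mono hij) d) (pow_nonneg h.nonneg d) hκ hC0 hθ0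
    hθ1 hθσ hε' hweyl
  have hK : ∀ n, ∀ i ∈ K.blk n, |om i ^ 2 - om (K.b n) ^ 2| ≤
      ε / 4 * (1 + om (K.b n) ^ 2) ^ σ := by
    intro n i hi
    have hle : om (K.b n) ≤ om i := h.mono (Finset.mem_Ico.1 hi).1
    have h1 := hsq (om i) (om (K.b n)) (hpos _) hle ((le_abs_self _).trans (hsp n i hi))
    rw [abs_of_nonneg (sub_nonneg.2 (pow_le_pow_left₀ (hpos _) hle 2))]
    exact h1
  set Φ : ℕ → ℕ → ℕ → X → ℝ := fun j a i p =>
    φ i (T (Real.sqrt (newlam (fun i => om i ^ 2) ε j)) (z a) p) with hΦ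
  have hobs : Obs μ K Φ C₀ (fun a a' => F ‖z a - z a'‖) :=
    obs_local hθ0 hθ1 (by omega) h hε hm hR hb z
  refine ⟨fun N => hobs.psd N, ?_⟩
  obtain ⟨𝒜, hc, hd'⟩ := MeasureTheory.exists_countable_measureDense μ
  have hne : 𝒜.Nonempty := by
    obtain ⟨B, hB, -⟩ := hd'.approx Set.univ MeasurableSet.univ (measure_ne_top μ _) 1 one_pos
    exact ⟨B, hB⟩
  obtain ⟨E, hE⟩ := hc.exists_eq_range hne
  classical
  set ν : ℕ → Measure X := fun r => if μ (E r) = 0 then μ else ProbabilityTheory.cond μ (E r)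
    with hν
  have hprob : ∀ r, IsProbabilityMeasure (ν r) := by
    intro r
    simp only [hν]
    split_ifs with h0
    · infer_instance
    · exact ProbabilityTheory.cond_isProbabilityMeasure h0
  have hEm : ∀ r, MeasurableSet (E r) := fun r => hd'.measurable _ (by rw [hE]; exact ⟨r, rfl⟩)
  obtain ⟨s, hs⟩ := fields ν K hm (Φ := Φ)
    (C := fun r => if μ (E r) = 0 then (C₀ : ℝ) else (μ.real (E r))⁻¹ * C₀)
    (ρ := fun a a' => F ‖z a - z a'‖) (by
      intro r
      simp only [hν]
      split_ifs with h0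
      · exact hobs
      · exact hobs.cond (hEm r) h0)
  refine ⟨_, _, _, _, perturb (fun i j hij => pow_le_pow_left₀ (hpos i) (h.mono hij) 2)
    (sq_nonneg _) hε hσ0 K hK s, ?_⟩
  intro e he A hA N G
  set f : ℕ → X → EuclideanSpace ℝ (Fin N) := fun j p => WithLp.toLp 2 fun a : Fin N =>
    e j * ∑ i ∈ K.blk (K.num j), U K s j i *
      φ i (T (Real.sqrt (newlam (fun i => om i ^ 2) ε j)) (z a) p) with hf
  have hfa : ∀ j p (a : Fin N), f j p a = e j * mix K s Φ j a p := fun j p a => rfl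
  have hmeas : ∀ j, Measurable (f j) := by
    intro j
    refine (PiLp.continuous_toLp 2 _).measurable.comp (measurable_pi_lambda _ fun a => ?_)
    refine Measurable.const_mul ?_ _
    refine Finset.measurable_fun_sum _ fun i _ => ?_
    exact ((h.meas i).comp (h.Tmeas _ _)).const_mul _
  have hGm : ∀ j, AEStronglyMeasurable (fun p => G (f j p)) μ := fun j =>
    G.continuous.comp_aestronglyMeasurable (hmeas j).aestronglyMeasurable
  set S : Matrix (Fin N) (Fin N) ℝ := Matrix.of fun a b : Fin N => F ‖z a - z b‖ with hS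
  have hSp : S.PosSemidef := hobs.psd N
  have hm' : |∫ y, G y ∂(multivariateGaussian 0 S)| ≤ ‖G‖ := by
    rw [← Real.norm_eq_abs]
    have := norm_integral_le_of_norm_le_const (μ := multivariateGaussian 0 S)
      (Eventually.of_forall fun y => G.norm_coe_le_norm y)
    simpa using this
  refine all_sets' hGm (norm_nonneg G) (fun j x => G.norm_coe_le_norm _) hd' _ hm'
    (fun B hB => ?_) hA
  rw [hE] at hB
  obtain ⟨r, rfl⟩ := hB
  by_cases h0 : μ (E r) = 0
  · have e1 : μ.real (E r) = 0 := by rw [Measure.real, h0]; rfl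
    rw [e1, zero_mul]
    refine tendsto_const_nhds.congr fun j => ?_
    rw [Measure.restrict_eq_zero.2 h0, integral_zero_measure]
  have hνr : ν r = ProbabilityTheory.cond μ (E r) := by simp only [hν]; rw [if_neg h0]
  have hpr : IsProbabilityMeasure (ProbabilityTheory.cond μ (E r)) :=
    ProbabilityTheory.cond_isProbabilityMeasure h0
  have hch : ∀ (c : Bool) (t : Fin N → ℝ), Tendsto (fun j => ∫ x, Real.cos (∑ a, t a *
      mix K s Φ j a x + ph c) ∂(ProbabilityTheory.cond μ (E r))) atTop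
      (𝓝 (Real.cos (ph c) * Real.exp (-((∑ a, ∑ a', t a * t a' * S a a') / 2)))) := by
    intro c t
    have h1 := hs r N t c
    rw [hνr] at h1
    exact h1
  have hsum : ∀ (t : Fin N → ℝ) j x, ∑ a, t a * f j x a =
      e j * ∑ a, t a * mix K s Φ j a x := by
    intro t j x
    rw [Finset.mul_sum]
    exact Finset.sum_congr rfl fun a _ => by rw [hfa]; ring
  have hlevy := levy_multi (μ := ProbabilityTheory.cond μ (E r)) (f := f)
    (fun j => (hmeas j).aemeasurable) hSp (fun t => by
    have h2 := hch false t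
    simp only [ph, Bool.false_eq_true, if_false, Real.cos_zero, one_mul, add_zero] at h2
    refine h2.congr fun j => ?_
    refine integral_congr_ae (Eventually.of_forall fun x => ?_)
    show Real.cos (∑ a, t a * mix K s Φ j a x) = Real.cos (∑ a, t a * f j x a)
    rw [hsum]
    rcases he j with h3 | h3
    · rw [h3, one_mul]
    · rw [h3, neg_one_mul, Real.cos_neg]) (fun t => by
    have h2 := hch true t
    simp only [ph, if_true, Real.cos_neg, Real.cos_pi_div_two, zero_mul] at h2
    rw [tendsto_zero_iff_norm_tendsto_zero] at h2 ⊢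
    refine h2.congr fun j => ?_
    have e2 : ∫ x, Real.cos (∑ a, t a * mix K s Φ j a x + -(Real.pi / 2))
        ∂(ProbabilityTheory.cond μ (E r)) =
        ∫ x, Real.sin (∑ a, t a * mix K s Φ j a x) ∂(ProbabilityTheory.cond μ (E r)) := by
      refine integral_congr_ae (Eventually.of_forall fun x => ?_)
      show Real.cos (∑ a, t a * mix K s Φ j a x + -(Real.pi / 2)) = _
      rw [← sub_eq_add_neg, Real.cos_sub_pi_div_two]
    rw [e2]
    simp only [hsum]
    rcases he j with h3 | h3
    · simp only [h3, one_mul]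
    · simp only [h3, neg_one_mul, Real.sin_neg]
      rw [integral_neg, norm_neg]) G
  have hfin := hlevy.const_mul (μ.real (E r))
  refine hfin.congr fun j => ?_
  rw [cond_int h0]

end Pool.Agent.U34.BW
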