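import Pool.Agent.U34.BW.Main

/-!
# Equidistribution of the mass on small sets
-/

set_option autoImplicit false

open MeasureTheory Finset Filter Topology ProbabilityTheory

namespace Pool.Agent.U34.BW

/-- the mean of the square of a sum with random signs -/
lemma av_sq : ∀ (n : ℕ) (y : Fin n → ℝ) (c : ℝ),
    ∑ s : Fin n → Bool, (∑ i, sgn (s i) * y i + c) ^ 2 = 2 ^ n * (∑ i, y i ^ 2 + c ^ 2) := by
  intro n
  induction n with
  | zero => intro y c; simp
  | succ n ih =>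
    intro y c
    rw [sum_cons]
    simp only [Fin.sum_univ_succ, Fin.cons_zero, Fin.cons_succ]
    have e1 : ∀ s : Fin n → Bool, sgn true * y 0 + ∑ i, sgn (s i) * y i.succ + c =
        ∑ i, sgn (s i) * y i.succ + (c + y 0) := fun s => by simp [sgn]; ring
    have e2 : ∀ s : Fin n → Bool, sgn false * y 0 + ∑ i, sgn (s i) * y i.succ + c =
        ∑ i, sgn (s i) * y i.succ + (c - y 0) := fun s => by simp [sgn]; ring
    simp_rw [e1, e2]
    rw [ih, ih, pow_succ]
    ring

variable {X : Type*} [MeasurableSpace X] {μ : Measure X}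

/-- the mass of a signed sum in `D` -/
noncomputable def qf (μ : Measure X) (D : Set X) {n : ℕ} (y : Fin n → X → ℝ)
    (s : Fin n → Bool) : ℝ := ∫ x in D, (∑ i, sgn (s i) * y i x) ^ 2 ∂μ

lemma qf_mem {n : ℕ} {y : Fin n → X → ℝ} (hy : ∀ i, MemLp (y i) 2 μ) (s : Fin n → Bool) :
    MemLp (fun x => ∑ i, sgn (s i) * y i x) 2 μ :=
  memLp_finsetSum _ fun i _ => (hy i).const_mul _

lemma qf_av {D : Set X} {n : ℕ} {y : Fin n → X → ℝ} (hy : ∀ i, MemLp (y i) 2 μ) :
    av (qf μ D y) = ∫ x in D, ∑ i, y i x ^ 2 ∂μ := by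
  unfold av qf
  rw [← integral_finsetSum _ fun s _ => ((qf_mem hy s).restrict D).integrable_sq]
  have e : ∀ x, ∑ s : Fin n → Bool, (∑ i, sgn (s i) * y i x) ^ 2 = 2 ^ n * ∑ i, y i x ^ 2 := by
    intro x
    have := av_sq n (fun i => y i x) 0
    simpa using this
  simp_rw [e]
  rw [integral_const_mul]
  field_simp

/-- the discrete gradient -/
lemma qf_grad [IsProbabilityMeasure μ] {φ : ℕ → X → ℝ} (h : ONF μ φ) {D : Set X}
    (hD : MeasurableSet D) (b n : ℕ) (hn : 0 < n) (a : Fin n → ℝ) (ha : ∀ i, a i ^ 2 = 1 / n)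
    (s : Fin n → Bool) :
    ∑ i, (qf μ D (fun (i : Fin n) x => a i * φ (b + i) x) s -
      qf μ D (fun (i : Fin n) x => a i * φ (b + i) x) (fl i s)) ^ 2 ≤ 64 / n := by
  set y : Fin n → X → ℝ := fun i x => a i * φ (b + i) x with hy
  have hn' : (0:ℝ) < n := by exact_mod_cast hn
  have hym : ∀ i, MemLp (y i) 2 μ := fun i => (h.mem _).const_mul _
  set V : X → ℝ := fun x => ∑ i, sgn (s i) * y i x with hV
  have hVm : MemLp V 2 μ := qf_mem hym s
  have hDV : MemLp (D.indicator V) 2 μ := hVm.indicator hD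
  -- the sum over indices as a sum over a range
  have hsumc : ∀ (c : Fin n → ℝ), ∃ c' : ℕ → ℝ, ∀ f : ℕ → ℝ,
      ∑ i ∈ Finset.Ico b (b + n), c' i * f i = ∑ i : Fin n, c i * f (b + i) := by
    intro c
    refine ⟨fun i => if hi : i - b < n then c ⟨i - b, hi⟩ else 0, fun f => ?_⟩
    rw [Finset.sum_Ico_eq_sum_range, Nat.add_sub_cancel_left, Finset.sum_range]
    refine Finset.sum_congr rfl fun i _ => ?_
    simp only [Nat.add_sub_cancel_left]
    rw [dif_pos i.2]
  -- total mass one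
  have hmass : ∫ x, V x ^ 2 ∂μ = 1 := by
    obtain ⟨c', hc'⟩ := hsumc (fun i => sgn (s i) * a i)
    have h2 := h.comb_mul (Finset.Ico b (b + n)) c' c'
    have e0 : ∀ x, ∑ i ∈ Finset.Ico b (b + n), c' i * φ i x = V x := by
      intro x
      rw [hc' (fun i => φ i x)]
      simp only [hV, hy]
      exact Finset.sum_congr rfl fun i _ => by ring
    simp only [e0] at h2
    rw [hc' c'] at h2
    have e1 : ∀ i : Fin n, c' (b + i) = sgn (s i) * a i := by
      intro i
      have h3 := hc' (fun l => if l = b + i then 1 else 0)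
      have h4 : ∑ l ∈ Finset.Ico b (b + n), c' l * (if l = b + i then 1 else 0) = c' (b + i) := by
        rw [Finset.sum_eq_single (b + (i : ℕ))]
        · simp
        · intro l _ hl; rw [if_neg hl, mul_zero]
        · intro hl; exact absurd (Finset.mem_Ico.2 ⟨by omega, by omega⟩) hl
      rw [h4] at h3
      rw [h3, Finset.sum_eq_single i]
      · simp
      · intro l _ hl
        rw [if_neg (fun e => hl (Fin.ext (by omega))), mul_zero]
      · intro hl; exact absurd (Finset.mem_univ i) hl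
    simp only [e1] at h2
    have e2 : ∑ i : Fin n, sgn (s i) * a i * (sgn (s i) * a i) = 1 := by
      have : ∀ i : Fin n, sgn (s i) * a i * (sgn (s i) * a i) = 1 / n := by
        intro i
        calc sgn (s i) * a i * (sgn (s i) * a i) = sgn (s i) ^ 2 * a i ^ 2 := by ring
          _ = 1 / n := by rw [sgn_sq, ha, one_mul]
      simp only [this, Finset.sum_const, Finset.card_univ, Fintype.card_fin, nsmul_eq_mul]
      field_simp
    rw [e2] at h2
    rw [← h2]
    exact integral_congr_ae (Eventually.of_forall fun x => sq _)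
  have hmassD : ∫ x in D, V x ^ 2 ∂μ ≤ 1 := by
    rw [← hmass]
    exact setIntegral_le_integral hVm.integrable_sq (Eventually.of_forall fun x => sq_nonneg _)
  -- Bessel
  have hbes : ∑ i : Fin n, (∫ x in D, y i x * V x ∂μ) ^ 2 ≤ 1 / n := by
    have h1 := h.bessel (Finset.Ico b (b + n)) hDV
    rw [Finset.sum_Ico_eq_sum_range, Nat.add_sub_cancel_left, Finset.sum_range] at h1
    have e1 : ∀ i : Fin n, (∫ x in D, y i x * V x ∂μ) ^ 2 =
        1 / n * (∫ x, φ (b + i) x * D.indicator V x ∂μ) ^ 2 := by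
      intro i
      have e2 : ∫ x in D, y i x * V x ∂μ = a i * ∫ x, φ (b + i) x * D.indicator V x ∂μ := by
        rw [← integral_indicator hD, ← integral_const_mul]
        refine integral_congr_ae (Eventually.of_forall fun x => ?_)
        show D.indicator (fun x => y i x * V x) x = a i * (φ (b + i) x * D.indicator V x)
        by_cases hx : x ∈ D
        · rw [Set.indicator_of_mem hx, Set.indicator_of_mem hx]
          simp only [hy]; ring
        · rw [Set.indicator_of_notMem hx, Set.indicator_of_notMem hx]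
          simp
      rw [e2, mul_pow, ha]
    simp_rw [e1]
    rw [← Finset.mul_sum]
    have e3 : ∫ x, D.indicator V x ^ 2 ∂μ ≤ 1 := by
      have : ∫ x, D.indicator V x ^ 2 ∂μ = ∫ x in D, V x ^ 2 ∂μ := by
        rw [← integral_indicator hD]
        refine integral_congr_ae (Eventually.of_forall fun x => ?_)
        show D.indicator V x ^ 2 = D.indicator (fun x => V x ^ 2) x
        by_cases hx : x ∈ D
        · rw [Set.indicator_of_mem hx, Set.indicator_of_mem hx]
        · rw [Set.indicator_of_notMem hx, Set.indicator_of_notMem hx]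
          norm_num
      rw [this]
      exact hmassD
    calc 1 / (n:ℝ) * ∑ i : Fin n, (∫ x, φ (b + i) x * D.indicator V x ∂μ) ^ 2
        ≤ 1 / n * 1 := by gcongr; exact h1.trans e3
      _ = 1 / n := mul_one _
  -- diagonal terms
  have hdiag : ∀ i : Fin n, 0 ≤ ∫ x in D, y i x ^ 2 ∂μ ∧ ∫ x in D, y i x ^ 2 ∂μ ≤ 1 / n := by
    intro i
    refine ⟨integral_nonneg fun x => sq_nonneg _, ?_⟩
    refine (setIntegral_le_integral (hym i).integrable_sq
      (Eventually.of_forall fun x => sq_nonneg _)).trans (le_of_eq ?_)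
    have e1 : ∀ x, y i x ^ 2 = 1 / n * (φ (b + i) x * φ (b + i) x) := by
      intro x
      simp only [hy]
      rw [mul_pow, ha, sq]
    simp_rw [e1]
    rw [integral_const_mul, h.orth, if_pos rfl, mul_one]
  -- the differences
  have hdiff : ∀ i : Fin n, qf μ D y s - qf μ D y (fl i s) =
      4 * sgn (s i) * ∫ x in D, y i x * V x ∂μ - 4 * ∫ x in D, y i x ^ 2 ∂μ := by
    intro i
    have e1 : ∀ x, ∑ l, sgn (fl i s l) * y l x = V x - 2 * sgn (s i) * y i x := by
      intro x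
      have : ∀ l, sgn (fl i s l) * y l x = sgn (s l) * y l x -
          (if l = i then 2 * sgn (s i) * y i x else 0) := by
        intro l
        unfold fl
        by_cases hl : l = i
        · subst hl
          rw [Function.update_self, sgn_not, if_pos rfl]
          ring
        · rw [Function.update_of_ne hl, if_neg hl, sub_zero]
      simp_rw [this]
      rw [Finset.sum_sub_distrib, Finset.sum_ite_eq' Finset.univ i, if_pos (Finset.mem_univ i)]
    unfold qf
    have i1 : Integrable (fun x => y i x * V x) (μ.restrict D) :=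
      ((hym i).restrict D).integrable_mul (hVm.restrict D)
    have i2 : Integrable (fun x => y i x ^ 2) (μ.restrict D) :=
      ((hym i).restrict D).integrable_sq
    have i3 : Integrable (fun x => V x ^ 2) (μ.restrict D) := (hVm.restrict D).integrable_sq
    have i4 : Integrable (fun x => 4 * sgn (s i) * (y i x * V x) - 4 * y i x ^ 2)
        (μ.restrict D) := (i1.const_mul _).sub (i2.const_mul _)
    have e2 : ∫ x in D, (∑ l, sgn (fl i s l) * y l x) ^ 2 ∂μ =
        ∫ x in D, V x ^ 2 ∂μ - (4 * sgn (s i) * ∫ x in D, y i x * V x ∂μ -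
          4 * ∫ x in D, y i x ^ 2 ∂μ) := by
      rw [← integral_const_mul, ← integral_const_mul,
        ← integral_sub (i1.const_mul _) (i2.const_mul _), ← integral_sub i3 i4]
      refine integral_congr_ae (Eventually.of_forall fun x => ?_)
      show (∑ l, sgn (fl i s l) * y l x) ^ 2 =
        V x ^ 2 - (4 * sgn (s i) * (y i x * V x) - 4 * (y i x ^ 2))
      rw [e1]
      have := sgn_sq (s i)
      calc (V x - 2 * sgn (s i) * y i x) ^ 2 = V x ^ 2 - 4 * sgn (s i) * (y i x * V x) +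
            4 * sgn (s i) ^ 2 * y i x ^ 2 := by ring
        _ = _ := by rw [this]; ring
    rw [e2]
    ring
  calc ∑ i, (qf μ D y s - qf μ D y (fl i s)) ^ 2
      ≤ ∑ i, (32 * (∫ x in D, y i x * V x ∂μ) ^ 2 + 32 * (1 / n) ^ 2) := by
        refine Finset.sum_le_sum fun i _ => ?_
        rw [hdiff]
        obtain ⟨h1, h2⟩ := hdiag i
        have h3 : (∫ x in D, y i x ^ 2 ∂μ) ^ 2 ≤ (1 / (n:ℝ)) ^ 2 := pow_le_pow_left₀ h1 h2 2
        have h4 := sgn_sq (s i)
        set A := ∫ x in D, y i x * V x ∂μ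
        set B := ∫ x in D, y i x ^ 2 ∂μ
        have h5 : (4 * sgn (s i) * A - 4 * B) ^ 2 ≤ 32 * (sgn (s i) ^ 2 * A ^ 2) + 32 * B ^ 2 := by
          nlinarith [sq_nonneg (4 * sgn (s i) * A + 4 * B)]
        rw [h4, one_mul] at h5
        linarith
    _ = 32 * ∑ i, (∫ x in D, y i x * V x ∂μ) ^ 2 + 32 / n := by
        rw [Finset.sum_add_distrib, ← Finset.mul_sum]
        simp only [Finset.sum_const, Finset.card_univ, Fintype.card_fin, nsmul_eq_mul]
        field_simp
    _ ≤ 32 * (1 / n) + 32 / n := by gcongr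
    _ = 64 / n := by ring

/-- **Equidistribution on shrinking sets for small perturbations.** -/
theorem mass [IsProbabilityMeasure μ] {φ : ℕ → X → ℝ} {om : ℕ → ℝ} {d : ℕ} (hd : 2 ≤ d)
    {θ σ ε : ℝ} (hθ0 : 0 ≤ θ) (hθ1 : θ < 1) (hσ0 : 0 ≤ σ) (hσ : 1 - d * (1 - θ) / 2 < σ)
    (hε : 0 < ε) (h : ONF μ φ) (hmono : Monotone om) (h0 : 0 ≤ om 0)
    (hweyl : ∃ κ C : ℝ, 0 < κ ∧ ∀ n : ℕ, |om n ^ d - κ * n| ≤ C * ((n : ℝ) + 1) ^ θ)
    (hlaw : ∃ C : ℝ, ∀ᵐ x ∂μ, ∀ n : ℕ, |∑ i ∈ range n, φ i x ^ 2 - n| ≤ C * ((n : ℝ) + 1) ^ θ)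
    (E : ℕ → ℕ → Set X) (M : ℕ → ℕ) (hE : ∀ j q, MeasurableSet (E j q))
    (hE0 : ∀ j q, q < M j → μ (E j q) ≠ 0)
    (hsum : ∃ C : ℝ, ∀ j, ∑ q ∈ range (M j), (1 / μ.real (E j q)) ^ 4 ≤ C * ((j : ℝ) + 1) ^ θ) :
    ∃ (k u : ℕ → ℕ → ℝ) (I : ℕ → Finset ℕ) (lam' : ℕ → ℝ),
      Perturb (fun i => om i ^ 2) ε σ k u I lam' ∧
      ∀ δ : ℝ, 0 < δ → ∀ᶠ j in atTop, ∀ q < M j,
        |∫ x in E j q, (∑ i ∈ I j, u j i * φ i x) ^ 2 ∂μ - μ.real (E j q)| ≤
          δ * μ.real (E j q) := by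
  obtain ⟨κ, C, hκ, hweyl⟩ := hweyl
  have hC0 : 0 ≤ C := by
    have := (abs_nonneg _).trans (hweyl 0)
    simpa using this
  obtain ⟨C1, hlaw⟩ := hlaw
  have hC1 : 0 ≤ C1 := by
    obtain ⟨x, hx⟩ := hlaw.exists
    have := (abs_nonneg _).trans (hx 0)
    simpa using this
  obtain ⟨C2, hsum⟩ := hsum
  have hC2 : 0 ≤ C2 := by
    have h1 := hsum 0
    have h2 : 0 ≤ ∑ q ∈ range (M 0), (1 / μ.real (E 0 q)) ^ 4 :=
      Finset.sum_nonneg fun q _ => by positivity
    have := h2.trans h1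
    simpa using this
  have hpos : ∀ i, 0 ≤ om i := fun i => h0.trans (hmono (Nat.zero_le i))
  obtain ⟨σ', ε', hθσ, hε', hsq⟩ := sq_close hd hθ0 hε hσ0 hσ
  obtain ⟨K, hm, hR, -, hsp⟩ := exists_blk (lam := fun i => om i ^ d)
    (fun i j hij => pow_le_pow_left₀ (hpos i) (hmono hij) d) (pow_nonneg h0 d) hκ hC0 hθ0
    hθ1 hθσ hε' hweyl
  have hK : ∀ n, ∀ i ∈ K.blk n, |om i ^ 2 - om (K.b n) ^ 2| ≤
      ε / 4 * (1 + om (K.b n) ^ 2) ^ σ := by
    intro n i hi
    have hle : om (K.b n) ≤ om i := hmono (Finset.mem_Ico.1 hi).1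
    have h1 := hsq (om i) (om (K.b n)) (hpos _) hle ((le_abs_self _).trans (hsp n i hi))
    rw [abs_of_nonneg (sub_nonneg.2 (pow_le_pow_left₀ (hpos _) hle 2))]
    exact h1
  -- the functions in the blocks
  set a : ∀ n : ℕ, ℕ → Fin (2 ^ K.m n) → ℝ := fun n j i =>
    K.wt n * Hd (K.m n) (K.loc j) i with ha
  have hN : ∀ n, (0:ℝ) < 2 ^ K.m n := fun n => by positivity
  have ha2 : ∀ n j i, a n j i ^ 2 = 1 / ((2 ^ K.m n : ℕ) : ℝ) := by
    intro n j i
    simp only [ha]
    rw [mul_pow, Hd_sq, mul_one, K.wt_sq]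
  set Q : ∀ n : ℕ, ℕ → ℕ → (Fin (2 ^ K.m n) → Bool) → ℝ := fun n j q s =>
    qf μ (E j q) (fun (i : Fin (2 ^ K.m n)) x => a n j i * φ (K.b n + i) x) s with hQ
  have hsel : ∀ n, ∃ s : Fin (2 ^ K.m n) → Bool,
      ∑ k ∈ (K.blk n).sigma (fun j => range (M j)),
        (1 / μ.real (E k.1 k.2)) ^ 4 * (Q n k.1 k.2 s - av (Q n k.1 k.2)) ^ 4 ≤
      ∑ k ∈ (K.blk n).sigma (fun j => range (M j)),
        (1 / μ.real (E k.1 k.2)) ^ 4 * (64 / ((2 ^ K.m n : ℕ) : ℝ)) ^ 2 := by
    intro n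
    exact exists_signs ((K.blk n).sigma (fun j => range (M j)))
      (fun k : (Σ _ : ℕ, ℕ) => Q n k.1 k.2) (fun _ => 64 / ((2 ^ K.m n : ℕ) : ℝ))
      (fun k => (1 / μ.real (E k.1 k.2)) ^ 4) (fun k _ => by positivity)
      (fun k _ s => qf_grad h (hE _ _) (K.b n) (2 ^ K.m n) (by positivity) _ (ha2 n k.1) s)
  choose s hs using hsel
  refine ⟨_, _, _, _, perturb (fun i j hij => pow_le_pow_left₀ (hpos i) (hmono hij) 2)
    (sq_nonneg _) hε hσ0 K hK s, ?_⟩
  intro δ hδ
  -- the bound of the right side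
  have hRn : ∀ n, ∑ k ∈ (K.blk n).sigma (fun j => range (M j)),
        (1 / μ.real (E k.1 k.2)) ^ 4 * (64 / ((2 ^ K.m n : ℕ) : ℝ)) ^ 2 ≤
      4096 * C2 * (((K.b (n + 1) : ℝ) + 1) ^ θ / 2 ^ K.m n) := by
    intro n
    rw [Finset.sum_sigma]
    have e1 : ∀ j ∈ K.blk n, ∑ q ∈ range (M j),
        (1 / μ.real (E j q)) ^ 4 * (64 / ((2 ^ K.m n : ℕ) : ℝ)) ^ 2 ≤
        C2 * ((K.b (n + 1) : ℝ) + 1) ^ θ * (64 / ((2 ^ K.m n : ℕ) : ℝ)) ^ 2 := by
      intro j hj
      rw [← Finset.sum_mul]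
      refine mul_le_mul_of_nonneg_right ((hsum j).trans ?_) (sq_nonneg _)
      have hj' : (j : ℝ) ≤ K.b (n + 1) := by exact_mod_cast (Finset.mem_Ico.1 hj).2.le
      gcongr
    refine (Finset.sum_le_sum e1).trans (le_of_eq ?_)
    rw [K.sum_blk n (fun _ => C2 * ((K.b (n + 1) : ℝ) + 1) ^ θ *
      (64 / ((2 ^ K.m n : ℕ) : ℝ)) ^ 2)]
    simp only [Finset.sum_const, Finset.card_range, nsmul_eq_mul]
    have := (hN n).ne'
    push_cast
    field_simp
    norm_num
  -- the mean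
  have hmean : ∀ n j q, j ∈ K.blk n → |av (Q n j q) - μ.real (E j q)| ≤
      2 * C1 * (((K.b (n + 1) : ℝ) + 1) ^ θ / 2 ^ K.m n) * μ.real (E j q) := by
    intro n j q hj
    have hmemy : ∀ i : Fin (2 ^ K.m n), MemLp (fun x => a n j i * φ (K.b n + i) x) 2 μ :=
      fun i => (h.mem _).const_mul _
    have e1 : av (Q n j q) = ∫ x in E j q, (∑ i ∈ K.blk n, φ i x * φ i x) / 2 ^ K.m n ∂μ := by
      simp only [hQ]
      show av (qf μ (E j q) _) = _
      rw [qf_av hmemy]
      refine integral_congr_ae (Eventually.of_forall fun x => ?_)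
      show ∑ i : Fin (2 ^ K.m n), (a n j i * φ (K.b n + i) x) ^ 2 =
        (∑ i ∈ K.blk n, φ i x * φ i x) / 2 ^ K.m n
      rw [K.sum_blk, Finset.sum_range, Finset.sum_div]
      refine Finset.sum_congr rfl fun i _ => ?_
      rw [mul_pow, ha2]
      push_cast
      field_simp
    have hint : Integrable (fun x => (∑ i ∈ K.blk n, φ i x * φ i x) / 2 ^ K.m n)
        (μ.restrict (E j q)) := by
      refine Integrable.div_const (integrable_finsetSum _ fun i _ => ?_) _
      exact ((h.mem i).restrict _).integrable_mul ((h.mem i).restrict _)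
    have e2 : μ.real (E j q) = ∫ x in E j q, (1:ℝ) ∂μ := by simp
    rw [e1]
    nth_rewrite 1 [e2]
    rw [← integral_sub hint (integrable_const 1), ← Real.norm_eq_abs]
    have hb : ∀ᵐ x ∂(μ.restrict (E j q)), ‖(∑ i ∈ K.blk n, φ i x * φ i x) / 2 ^ K.m n - 1‖ ≤
        2 * C1 * (((K.b (n + 1) : ℝ) + 1) ^ θ / 2 ^ K.m n) := by
      filter_upwards [ae_restrict_of_ae hlaw] with x hx
      have h4 := (block_law (K := K) hθ0 (f := fun i => φ i x) (fun n => rfl) hx n).1
      rw [Real.norm_eq_abs, div_sub_one (hN n).ne', abs_div, abs_of_pos (hN n), ← mul_div_assoc]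
      gcongr
    have h5 := norm_integral_le_of_norm_le_const hb
    refine h5.trans (le_of_eq ?_)
    simp [Measure.real]
  -- conclusion
  have hR2 := hR.comp K.num_tendsto
  have t1 : Tendsto (fun j => 2 * C1 * (((K.b (K.num j + 1) : ℝ) + 1) ^ θ /
      2 ^ K.m (K.num j))) atTop (𝓝 0) := by simpa using hR2.const_mul (2 * C1)
  have t2 : Tendsto (fun j => 4096 * C2 * (((K.b (K.num j + 1) : ℝ) + 1) ^ θ /
      2 ^ K.m (K.num j))) atTop (𝓝 0) := by simpa using hR2.const_mul (4096 * C2)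
  filter_upwards [t1.eventually (gt_mem_nhds (by positivity : 0 < δ / 2)),
    t2.eventually (gt_mem_nhds (by positivity : 0 < (δ / 2) ^ 4))] with j hj1 hj2 q hq
  have hjb : j ∈ K.blk (K.num j) := self_mem K j
  have hmu : 0 < μ.real (E j q) := ENNReal.toReal_pos (hE0 j q hq) (measure_ne_top μ _)
  have e3 : ∫ x in E j q, (∑ i ∈ K.blk (K.num j), U K s j i * φ i x) ^ 2 ∂μ =
      Q (K.num j) j q (s (K.num j)) := by
    simp only [hQ, qf]
    refine integral_congr_ae (Eventually.of_forall fun x => ?_)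
    show (∑ i ∈ K.blk (K.num j), U K s j i * φ i x) ^ 2 = (∑ i : Fin (2 ^ K.m (K.num j)),
      sgn (s (K.num j) i) * (a (K.num j) j i * φ (K.b (K.num j) + i) x)) ^ 2
    congr 1
    rw [K.sum_blk, Finset.sum_range]
    refine Finset.sum_congr rfl fun c _ => ?_
    have := U_block (K := K) (s := s) (n := K.num j) (r := K.loc j) (c := c) (K.loc_lt j) c.2
    rw [K.b_add_loc] at this
    rw [this]
    simp only [ha]
    ring
  rw [e3]
  have h6 : (1 / μ.real (E j q)) ^ 4 * (Q (K.num j) j q (s (K.num j)) -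
      av (Q (K.num j) j q)) ^ 4 ≤ (δ / 2) ^ 4 := by
    have h7 := Finset.single_le_sum (f := fun k : (Σ _ : ℕ, ℕ) =>
      (1 / μ.real (E k.1 k.2)) ^ 4 * (Q (K.num j) k.1 k.2 (s (K.num j)) -
        av (Q (K.num j) k.1 k.2)) ^ 4) (fun k _ => by positivity)
      (Finset.mem_sigma.2 ⟨hjb, Finset.mem_range.2 hq⟩ :
        (⟨j, q⟩ : Σ _ : ℕ, ℕ) ∈ (K.blk (K.num j)).sigma (fun j => range (M j)))
    exact (h7.trans ((hs (K.num j)).trans (hRn (K.num j)))).trans hj2.le
  have h8 : |Q (K.num j) j q (s (K.num j)) - av (Q (K.num j) j q)| ≤ δ / 2 * μ.real (E j q) := by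
    rw [← mul_pow] at h6
    have h9 : |1 / μ.real (E j q) * (Q (K.num j) j q (s (K.num j)) -
        av (Q (K.num j) j q))| ≤ δ / 2 := by
      refine (pow_le_pow_iff_left₀ (abs_nonneg _) (by positivity) (by norm_num : 4 ≠ 0)).1 ?_
      rw [Even.pow_abs (by decide)]
      exact h6
    rw [abs_mul, abs_of_pos (by positivity : 0 < 1 / μ.real (E j q)), one_div,
      inv_mul_le_iff₀ hmu] at h9
    linarith
  have h10 := hmean (K.num j) j q hjb
  have h11 := abs_sub_le (Q (K.num j) j q (s (K.num j))) (av (Q (K.num j) j q))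
    (μ.real (E j q))
  have h12 : 2 * C1 * (((K.b (K.num j + 1) : ℝ) + 1) ^ θ / 2 ^ K.m (K.num j)) *
      μ.real (E j q) ≤ δ / 2 * μ.real (E j q) := by gcongr
  linarith

end Pool.Agent.U34.BW
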