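import Pool.Agent.U34.BW.Law

/-!
# The perturbation which has the mixed functions as eigenfunctions
-/

set_option autoImplicit false

open MeasureTheory Finset Filter Topology

namespace Pool.Agent.U34.BW

/-- the matrix of the perturbation -/
noncomputable def kmat (K : Blk) (s : ∀ n, Fin (2 ^ K.m n) → Bool) (lam lam' : ℕ → ℝ)
    (i l : ℕ) : ℝ :=
  ∑ j ∈ K.blk (K.num i), U K s j i * lam' j * U K s j l - if i = l then lam i else 0

variable {K : Blk} {s : ∀ n, Fin (2 ^ K.m n) → Bool} {lam lam' : ℕ → ℝ}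

lemma self_mem (K : Blk) (i : ℕ) : i ∈ K.blk (K.num i) := K.mem_blk.2 rfl

lemma kmat_zero {i l : ℕ} (h : l ∉ K.blk (K.num i)) : kmat K s lam lam' i l = 0 := by
  have h1 : K.num l ≠ K.num i := fun e => h (K.mem_blk.2 e)
  unfold kmat
  rw [if_neg (fun e => h1 (by rw [e])), sub_zero]
  refine Finset.sum_eq_zero fun j hj => ?_
  rw [K.mem_blk] at hj
  rw [U_zero (j := j) (i := l) (by rw [hj]; exact h1), mul_zero]

lemma kmat_symm (i l : ℕ) : kmat K s lam lam' i l = kmat K s lam lam' l i := by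
  by_cases h : K.num l = K.num i
  · unfold kmat
    rw [h]
    congr 1
    · exact Finset.sum_congr rfl fun j _ => by ring
    · by_cases hil : i = l
      · rw [if_pos hil, if_pos hil.symm, hil]
      · rw [if_neg hil, if_neg (Ne.symm hil)]
  · rw [kmat_zero (fun hm => h (K.mem_blk.1 hm)),
      kmat_zero (fun hm => h (K.mem_blk.1 hm).symm)]

lemma kmat_eig (j i : ℕ) :
    lam i * U K s j i + ∑ l ∈ K.blk (K.num i), kmat K s lam lam' i l * U K s j l =
      lam' j * U K s j i := by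
  by_cases h : K.num j = K.num i
  · have e1 : ∑ l ∈ K.blk (K.num i), kmat K s lam lam' i l * U K s j l =
        ∑ l ∈ K.blk (K.num i), (∑ r ∈ K.blk (K.num i), U K s r i * lam' r * U K s r l) *
          U K s j l - ∑ l ∈ K.blk (K.num i), (if i = l then lam i else 0) * U K s j l := by
      rw [← Finset.sum_sub_distrib]
      refine Finset.sum_congr rfl fun l _ => ?_
      unfold kmat
      ring
    have e2 : ∑ l ∈ K.blk (K.num i), (if i = l then lam i else 0) * U K s j l =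
        lam i * U K s j i := by
      simp only [ite_mul, zero_mul]
      rw [Finset.sum_ite_eq, if_pos (self_mem K i)]
    have e3 : ∑ l ∈ K.blk (K.num i), (∑ r ∈ K.blk (K.num i), U K s r i * lam' r * U K s r l) *
          U K s j l = lam' j * U K s j i := by
      simp only [Finset.sum_mul]
      rw [Finset.sum_comm]
      have e4 : ∀ r ∈ K.blk (K.num i), ∑ l ∈ K.blk (K.num i),
          U K s r i * lam' r * U K s r l * U K s j l =
          if j = r then lam' j * U K s j i else 0 := by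
        intro r hr
        have h1 : ∑ l ∈ K.blk (K.num i), U K s r i * lam' r * U K s r l * U K s j l =
            U K s r i * lam' r * ∑ l ∈ K.blk (K.num i), U K s r l * U K s j l := by
          rw [Finset.mul_sum]
          exact Finset.sum_congr rfl fun l _ => by ring
        rw [h1, U_orth K s (K.num i) (K.mem_blk.1 hr) h]
        by_cases hrj : r = j
        · rw [if_pos hrj, if_pos hrj.symm, hrj]; ring
        · rw [if_neg hrj, if_neg (Ne.symm hrj), mul_zero]
      rw [Finset.sum_congr rfl e4, Finset.sum_ite_eq, if_pos (K.mem_blk.2 h)]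
    rw [e1, e2, e3]
    ring
  · have h1 : U K s j i = 0 := U_zero (fun e => h e.symm)
    rw [h1, mul_zero, mul_zero, zero_add]
    refine Finset.sum_eq_zero fun l hl => ?_
    rw [K.mem_blk] at hl
    rw [U_zero (j := j) (i := l) (fun e => h (by rw [← e, hl])), mul_zero]

/-- mixing is an isometry -/
lemma iso_row (n : ℕ) (a : ℕ → ℝ) :
    ∑ j ∈ K.blk n, (∑ l ∈ K.blk n, U K s j l * a l) ^ 2 = ∑ l ∈ K.blk n, a l ^ 2 := by
  have e1 : ∀ j ∈ K.blk n, (∑ l ∈ K.blk n, U K s j l * a l) ^ 2 =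
      ∑ l ∈ K.blk n, ∑ l' ∈ K.blk n, a l * a l' * (U K s j l * U K s j l') := by
    intro j _
    rw [sq, Finset.sum_mul_sum]
    exact Finset.sum_congr rfl fun l _ => Finset.sum_congr rfl fun l' _ => by ring
  rw [Finset.sum_congr rfl e1, Finset.sum_comm]
  refine Finset.sum_congr rfl fun l hl => ?_
  rw [Finset.sum_comm]
  have e2 : ∀ l' ∈ K.blk n, ∑ j ∈ K.blk n, a l * a l' * (U K s j l * U K s j l') =
      if l = l' then a l ^ 2 else 0 := by
    intro l' hl'
    rw [← Finset.mul_sum, U_orth' K s n (K.mem_blk.1 hl) (K.mem_blk.1 hl')]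
    by_cases h : l = l'
    · rw [if_pos h, if_pos h, h]; ring
    · rw [if_neg h, if_neg h, mul_zero]
  rw [Finset.sum_congr rfl e2, Finset.sum_ite_eq, if_pos hl]

lemma iso_col (n : ℕ) (a : ℕ → ℝ) :
    ∑ i ∈ K.blk n, (∑ j ∈ K.blk n, U K s j i * a j) ^ 2 = ∑ j ∈ K.blk n, a j ^ 2 := by
  have e1 : ∀ i ∈ K.blk n, (∑ j ∈ K.blk n, U K s j i * a j) ^ 2 =
      ∑ j ∈ K.blk n, ∑ j' ∈ K.blk n, a j * a j' * (U K s j i * U K s j' i) := by
    intro i _
    rw [sq, Finset.sum_mul_sum]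
    exact Finset.sum_congr rfl fun l _ => Finset.sum_congr rfl fun l' _ => by ring
  rw [Finset.sum_congr rfl e1, Finset.sum_comm]
  refine Finset.sum_congr rfl fun j hj => ?_
  rw [Finset.sum_comm]
  have e2 : ∀ j' ∈ K.blk n, ∑ i ∈ K.blk n, a j * a j' * (U K s j i * U K s j' i) =
      if j = j' then a j ^ 2 else 0 := by
    intro j' hj'
    rw [← Finset.mul_sum, U_orth K s n (K.mem_blk.1 hj) (K.mem_blk.1 hj')]
    by_cases h : j = j'
    · rw [if_pos h, if_pos h, h]; ring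
    · rw [if_neg h, if_neg h, mul_zero]
  rw [Finset.sum_congr rfl e2, Finset.sum_ite_eq, if_pos hj]

/-- the perturbation is small on every block -/
lemma kmat_block (n : ℕ) {c W : ℝ} (h1 : ∀ i ∈ K.blk n, |lam i - c| ≤ W)
    (h2 : ∀ i ∈ K.blk n, |lam' i - c| ≤ W) (a : ℕ → ℝ) :
    ∑ i ∈ K.blk n, (∑ l ∈ K.blk n, kmat K s lam lam' i l * a l) ^ 2 ≤
      4 * W ^ 2 * ∑ l ∈ K.blk n, a l ^ 2 := by
  set y : ℕ → ℝ := fun j => ∑ l ∈ K.blk n, U K s j l * a l with hy
  have e1 : ∀ i ∈ K.blk n, ∑ l ∈ K.blk n, kmat K s lam lam' i l * a l =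
      ∑ j ∈ K.blk n, U K s j i * ((lam' j - c) * y j) - (lam i - c) * a i := by
    intro i hi
    have hn : K.num i = n := K.mem_blk.1 hi
    have e2 : ∑ l ∈ K.blk n, kmat K s lam lam' i l * a l =
        ∑ l ∈ K.blk n, (∑ j ∈ K.blk n, U K s j i * lam' j * U K s j l) * a l - lam i * a i := by
      have e3 : lam i * a i = ∑ l ∈ K.blk n, (if i = l then lam i else 0) * a l := by
        simp only [ite_mul, zero_mul]
        rw [Finset.sum_ite_eq, if_pos hi]
      rw [e3, ← Finset.sum_sub_distrib]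
      refine Finset.sum_congr rfl fun l _ => ?_
      unfold kmat
      rw [hn]
      ring
    have e4 : ∑ l ∈ K.blk n, (∑ j ∈ K.blk n, U K s j i * lam' j * U K s j l) * a l =
        ∑ j ∈ K.blk n, U K s j i * (lam' j * y j) := by
      simp only [Finset.sum_mul, hy, Finset.mul_sum]
      rw [Finset.sum_comm]
      exact Finset.sum_congr rfl fun j _ => Finset.sum_congr rfl fun l _ => by ring
    have e5 : ∑ j ∈ K.blk n, U K s j i * (c * y j) = c * a i := by
      have e6 : ∑ j ∈ K.blk n, U K s j i * (c * y j) =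
          ∑ l ∈ K.blk n, ∑ j ∈ K.blk n, c * a l * (U K s j i * U K s j l) := by
        rw [Finset.sum_comm]
        refine Finset.sum_congr rfl fun j _ => ?_
        simp only [hy, Finset.mul_sum]
        exact Finset.sum_congr rfl fun l _ => by ring
      rw [e6]
      have e7 : ∀ l ∈ K.blk n, ∑ j ∈ K.blk n, c * a l * (U K s j i * U K s j l) =
          if i = l then c * a i else 0 := by
        intro l hl
        rw [← Finset.mul_sum, U_orth' K s n hn (K.mem_blk.1 hl)]
        by_cases h : i = l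
        · rw [if_pos h, if_pos h, h]; ring
        · rw [if_neg h, if_neg h, mul_zero]
      rw [Finset.sum_congr rfl e7, Finset.sum_ite_eq, if_pos hi]
    have e8 : ∑ j ∈ K.blk n, U K s j i * ((lam' j - c) * y j) =
        ∑ j ∈ K.blk n, U K s j i * (lam' j * y j) - ∑ j ∈ K.blk n, U K s j i * (c * y j) := by
      rw [← Finset.sum_sub_distrib]
      exact Finset.sum_congr rfl fun j _ => by ring
    rw [e2, e4, e8, e5]
    ring
  rw [Finset.sum_congr rfl fun i hi => by rw [e1 i hi]]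
  have hW : ∀ (t : ℝ), |t| ≤ W → t ^ 2 ≤ W ^ 2 := fun t ht => by
    rw [← sq_abs]; gcongr
  have h3 : ∑ i ∈ K.blk n, (∑ j ∈ K.blk n, U K s j i * ((lam' j - c) * y j)) ^ 2 ≤
      W ^ 2 * ∑ l ∈ K.blk n, a l ^ 2 := by
    rw [iso_col, ← iso_row (K := K) (s := s) n a, Finset.mul_sum]
    refine Finset.sum_le_sum fun j hj => ?_
    rw [mul_pow]
    exact mul_le_mul_of_nonneg_right (hW _ (h2 j hj)) (sq_nonneg _)
  have h4 : ∑ i ∈ K.blk n, ((lam i - c) * a i) ^ 2 ≤ W ^ 2 * ∑ l ∈ K.blk n, a l ^ 2 := by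
    rw [Finset.mul_sum]
    refine Finset.sum_le_sum fun i hi => ?_
    rw [mul_pow]
    exact mul_le_mul_of_nonneg_right (hW _ (h1 i hi)) (sq_nonneg _)
  calc ∑ i ∈ K.blk n, (∑ j ∈ K.blk n, U K s j i * ((lam' j - c) * y j) - (lam i - c) * a i) ^ 2
      ≤ ∑ i ∈ K.blk n, (2 * (∑ j ∈ K.blk n, U K s j i * ((lam' j - c) * y j)) ^ 2 +
          2 * ((lam i - c) * a i) ^ 2) := by
        refine Finset.sum_le_sum fun i _ => ?_
        nlinarith [sq_nonneg (∑ j ∈ K.blk n, U K s j i * ((lam' j - c) * y j) +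
          (lam i - c) * a i)]
    _ ≤ _ := by
        rw [Finset.sum_add_distrib, ← Finset.mul_sum, ← Finset.mul_sum]
        linarith

/-- the perturbation is small relative to the weights `w` -/
theorem kmat_small {ε : ℝ} {w : ℕ → ℝ}
    (hW : ∀ n, ∃ c W : ℝ, 0 ≤ W ∧ (∀ i ∈ K.blk n, |lam i - c| ≤ W) ∧
      (∀ i ∈ K.blk n, |lam' i - c| ≤ W) ∧ ∀ i ∈ K.blk n, 2 * W ≤ ε * w i)
    (a : ℕ → ℝ) (ha : Summable fun i => (w i * a i) ^ 2) :
    (Summable fun i => (∑ l ∈ K.blk (K.num i), kmat K s lam lam' i l * a l) ^ 2) ∧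
      ∑' i, (∑ l ∈ K.blk (K.num i), kmat K s lam lam' i l * a l) ^ 2 ≤
        ε ^ 2 * ∑' i, (w i * a i) ^ 2 := by
  set f : ℕ → ℝ := fun i => (∑ l ∈ K.blk (K.num i), kmat K s lam lam' i l * a l) ^ 2 with hf
  have hblock : ∀ n, ∑ i ∈ K.blk n, f i ≤ ε ^ 2 * ∑ i ∈ K.blk n, (w i * a i) ^ 2 := by
    intro n
    obtain ⟨c, W, hW0, h1, h2, h3⟩ := hW n
    have e1 : ∑ i ∈ K.blk n, f i =
        ∑ i ∈ K.blk n, (∑ l ∈ K.blk n, kmat K s lam lam' i l * a l) ^ 2 := by
      refine Finset.sum_congr rfl fun i hi => ?_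
      simp only [hf]
      rw [K.mem_blk.1 hi]
    rw [e1]
    refine (kmat_block n h1 h2 a).trans ?_
    rw [Finset.mul_sum, Finset.mul_sum]
    refine Finset.sum_le_sum fun i hi => ?_
    have h4 := h3 i hi
    have h5 : (2 * W) ^ 2 ≤ (ε * w i) ^ 2 := by gcongr
    calc 4 * W ^ 2 * a i ^ 2 = (2 * W) ^ 2 * a i ^ 2 := by ring
      _ ≤ (ε * w i) ^ 2 * a i ^ 2 := mul_le_mul_of_nonneg_right h5 (sq_nonneg _)
      _ = _ := by ring
  have hrange : ∀ M, ∑ i ∈ range (K.b M), f i ≤ ε ^ 2 * ∑ i ∈ range (K.b M), (w i * a i) ^ 2 := by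
    intro M
    induction M with
    | zero => rw [K.b0]; simp
    | succ M ih =>
      have hle : K.b M ≤ K.b (M + 1) := K.mono.monotone (Nat.le_succ M)
      have e2 : ∀ g : ℕ → ℝ, ∑ i ∈ range (K.b (M + 1)), g i =
          ∑ i ∈ range (K.b M), g i + ∑ i ∈ K.blk M, g i := fun g => by
        unfold Blk.blk
        rw [Finset.range_eq_Ico, Finset.range_eq_Ico, Finset.sum_Ico_consecutive g (Nat.zero_le _) hle]
      rw [e2, e2, mul_add]
      exact add_le_add ih (hblock M)
  have hfin : ∀ S : Finset ℕ, ∑ i ∈ S, f i ≤ ε ^ 2 * ∑' i, (w i * a i) ^ 2 := by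
    intro S
    obtain ⟨M, hM⟩ := S.exists_nat_subset_range
    have h1 : S ⊆ range (K.b M) := hM.trans (Finset.range_mono (K.mono.id_le M))
    calc ∑ i ∈ S, f i ≤ ∑ i ∈ range (K.b M), f i :=
          Finset.sum_le_sum_of_subset_of_nonneg h1 fun i _ _ => sq_nonneg _
      _ ≤ ε ^ 2 * ∑ i ∈ range (K.b M), (w i * a i) ^ 2 := hrange M
      _ ≤ ε ^ 2 * ∑' i, (w i * a i) ^ 2 := by
          gcongr
          exact ha.sum_le_tsum _ fun i _ => sq_nonneg _
  have hsum : Summable f := summable_of_sum_le (fun i => sq_nonneg _) hfin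
  exact ⟨hsum, hsum.tsum_le_of_sum_le hfin⟩

end Pool.Agent.U34.BW
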