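import Pool.Agent.U34.BW.Lim

/-!
# Orthonormal families: Bessel bounds, rows of the mixing matrices, limit laws
-/

set_option autoImplicit false

open MeasureTheory Finset Filter Topology ProbabilityTheory

namespace Pool.Agent.U34.BW

variable {X : Type*} [MeasurableSpace X] {μ : Measure X}

/-- a real orthonormal family in `L²(μ)` -/
structure ONF (μ : Measure X) (φ : ℕ → X → ℝ) : Prop where
  mem : ∀ i, MemLp (φ i) 2 μ
  orth : ∀ i j, ∫ x, φ i x * φ j x ∂μ = if i = j then 1 else 0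

lemma inner_L2 (a b : Lp ℝ 2 μ) : inner ℝ a b = ∫ x, a x * b x ∂μ := by
  rw [L2.inner_def]
  refine integral_congr_ae (Eventually.of_forall fun x => ?_)
  simp [mul_comm]

lemma inner_toLp {f g : X → ℝ} (hf : MemLp f 2 μ) (hg : MemLp g 2 μ) :
    inner ℝ (hf.toLp f) (hg.toLp g) = ∫ x, f x * g x ∂μ := by
  rw [inner_L2]
  refine integral_congr_ae ?_
  filter_upwards [hf.coeFn_toLp, hg.coeFn_toLp] with x h1 h2
  rw [h1, h2]

lemma ONF.orthonormal {φ : ℕ → X → ℝ} (h : ONF μ φ) :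
    Orthonormal ℝ (fun i => (h.mem i).toLp (φ i)) := by
  classical
  rw [orthonormal_iff_ite]
  intro i j
  rw [inner_toLp, h.orth]

/-- Bessel's inequality -/
lemma ONF.bessel {φ : ℕ → X → ℝ} (h : ONF μ φ) (s : Finset ℕ) {g : X → ℝ} (hg : MemLp g 2 μ) :
    ∑ i ∈ s, (∫ x, φ i x * g x ∂μ) ^ 2 ≤ ∫ x, g x ^ 2 ∂μ := by
  have h1 := h.orthonormal.sum_inner_products_le (hg.toLp g) (s := s)
  have h2 : ‖hg.toLp g‖ ^ 2 = ∫ x, g x ^ 2 ∂μ := by
    rw [← real_inner_self_eq_norm_sq, inner_toLp]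
    refine integral_congr_ae (Eventually.of_forall fun x => ?_)
    show g x * g x = g x ^ 2
    ring
  rw [h2] at h1
  refine le_trans (le_of_eq ?_) h1
  refine Finset.sum_congr rfl fun i _ => ?_
  rw [inner_toLp, Real.norm_eq_abs, sq_abs]

/-- the inner product of two combinations -/
lemma ONF.comb_mul {φ : ℕ → X → ℝ} (h : ONF μ φ) (s : Finset ℕ) (a c : ℕ → ℝ) :
    ∫ x, (∑ i ∈ s, a i * φ i x) * (∑ i ∈ s, c i * φ i x) ∂μ = ∑ i ∈ s, a i * c i := by
  have hi : ∀ i k, Integrable (fun x => a i * c k * (φ i x * φ k x)) μ := fun i k =>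
    ((h.mem i).integrable_mul (h.mem k)).const_mul _
  calc ∫ x, (∑ i ∈ s, a i * φ i x) * (∑ i ∈ s, c i * φ i x) ∂μ
      = ∫ x, ∑ i ∈ s, ∑ k ∈ s, a i * c k * (φ i x * φ k x) ∂μ := by
        refine integral_congr_ae (Eventually.of_forall fun x => ?_)
        show (∑ i ∈ s, a i * φ i x) * (∑ i ∈ s, c i * φ i x) = _
        rw [Finset.sum_mul_sum]
        exact Finset.sum_congr rfl fun i _ => Finset.sum_congr rfl fun k _ => by ring
    _ = ∑ i ∈ s, ∑ k ∈ s, a i * c k * ∫ x, φ i x * φ k x ∂μ := by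
        rw [integral_finsetSum _ fun i _ => integrable_finsetSum _ fun k _ => hi i k]
        refine Finset.sum_congr rfl fun i _ => ?_
        rw [integral_finsetSum _ fun k _ => hi i k]
        exact Finset.sum_congr rfl fun k _ => integral_const_mul _ _
    _ = ∑ i ∈ s, a i * c i := by
        refine Finset.sum_congr rfl fun i hi => ?_
        simp only [h.orth, mul_ite, mul_one, mul_zero]
        rw [Finset.sum_ite_eq, if_pos hi]

/-- Bessel bound for a block of an orthonormal family -/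
lemma ONF.bes {φ : ℕ → X → ℝ} (h : ONF μ φ) (b n : ℕ) (τ : ℝ) :
    Bes μ (fun (i : Fin n) x => τ * φ (b + i) x) (τ ^ 2) := by
  refine ⟨fun i => (h.mem _).const_mul τ, fun g hg => ?_, sq_nonneg _⟩
  have h1 : ∀ i : Fin n, (∫ x, τ * φ (b + i) x * g x ∂μ) ^ 2 =
      τ ^ 2 * (∫ x, φ (b + i) x * g x ∂μ) ^ 2 := by
    intro i
    rw [← mul_pow, ← integral_const_mul]
    congr 1
    refine integral_congr_ae (Eventually.of_forall fun x => ?_)
    show τ * φ (b + i) x * g x = τ * (φ (b + i) x * g x)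
    ring
  simp_rw [h1]
  rw [← Finset.mul_sum]
  refine mul_le_mul_of_nonneg_left ?_ (sq_nonneg _)
  have h2 := h.bessel (Finset.Ico b (b + n)) hg
  rw [Finset.sum_Ico_eq_sum_range, Nat.add_sub_cancel_left, Finset.sum_range] at h2
  exact h2

/-! ### the mixing matrix -/

/-- the coefficients of the `j`-th row of the mixing matrix -/
noncomputable def U (K : Blk) (s : ∀ n, Fin (2 ^ K.m n) → Bool) (j i : ℕ) : ℝ :=
  if h : K.num i = K.num j then
    K.wt (K.num j) * (sgn (s (K.num j) ⟨K.loc i, by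
      have := K.loc_lt i; rw [h] at this; exact this⟩) * Hd (K.m (K.num j)) (K.loc j) (K.loc i))
  else 0

lemma U_zero {K : Blk} {s : ∀ n, Fin (2 ^ K.m n) → Bool} {j i : ℕ} (h : K.num i ≠ K.num j) :
    U K s j i = 0 := by unfold U; rw [dif_neg h]

lemma U_block {K : Blk} {s : ∀ n, Fin (2 ^ K.m n) → Bool} {n r c : ℕ} (hr : r < 2 ^ K.m n)
    (hc : c < 2 ^ K.m n) : U K s (K.b n + r) (K.b n + c) =
      K.wt n * (sgn (s n ⟨c, hc⟩) * Hd (K.m n) r c) := by
  have e1 := K.num_add hr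
  have e2 := K.num_add hc
  have e3 := K.loc_add hr
  have e4 := K.loc_add hc
  unfold U
  rw [dif_pos (by rw [e1, e2])]
  have key : ∀ (n' : ℕ) (hn : n' = n) (c' r' : ℕ) (hc' : c' = c) (hr' : r' = r)
      (hlt : c' < 2 ^ K.m n'), K.wt n' * (sgn (s n' ⟨c', hlt⟩) * Hd (K.m n') r' c') =
      K.wt n * (sgn (s n ⟨c, hc⟩) * Hd (K.m n) r c) := by
    intro n' hn c' r' hc' hr' hlt
    subst hn hc' hr'
    rfl
  exact key _ e1 _ _ e4 e3 _

/-- the block of `n` -/
def Blk.blk (K : Blk) (n : ℕ) : Finset ℕ := Finset.Ico (K.b n) (K.b (n + 1))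

lemma Blk.sum_blk (K : Blk) (n : ℕ) (f : ℕ → ℝ) :
    ∑ i ∈ K.blk n, f i = ∑ c ∈ range (2 ^ K.m n), f (K.b n + c) := by
  unfold Blk.blk
  rw [Finset.sum_Ico_eq_sum_range, K.step, Nat.add_sub_cancel_left]

lemma Blk.mem_blk (K : Blk) {n i : ℕ} : i ∈ K.blk n ↔ K.num i = n := by
  unfold Blk.blk
  rw [Finset.mem_Ico]
  constructor
  · rintro ⟨h1, h2⟩
    exact K.num_eq h1 h2
  · intro h
    have := K.num_spec i
    rwa [h] at this

/-- the rows are orthonormal -/
lemma U_orth (K : Blk) (s : ∀ n, Fin (2 ^ K.m n) → Bool) (n : ℕ) {j j' : ℕ}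
    (hj : K.num j = n) (hj' : K.num j' = n) :
    ∑ i ∈ K.blk n, U K s j i * U K s j' i = if j = j' then 1 else 0 := by
  have l1 := K.loc_lt j
  have l2 := K.loc_lt j'
  have b1 := K.b_add_loc j
  have b2 := K.b_add_loc j'
  rw [hj] at l1 b1
  rw [hj'] at l2 b2
  rw [← b1, ← b2, K.sum_blk]
  have e : ∀ c ∈ range (2 ^ K.m n), U K s (K.b n + K.loc j) (K.b n + c) *
      U K s (K.b n + K.loc j') (K.b n + c) =
      K.wt n ^ 2 * (Hd (K.m n) (K.loc j) c * Hd (K.m n) (K.loc j') c) := by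
    intro c hc
    rw [Finset.mem_range] at hc
    rw [U_block l1 hc, U_block l2 hc]
    have := sgn_sq (s n ⟨c, hc⟩)
    calc _ = K.wt n ^ 2 * sgn (s n ⟨c, hc⟩) ^ 2 *
          (Hd (K.m n) (K.loc j) c * Hd (K.m n) (K.loc j') c) := by ring
      _ = _ := by rw [this, mul_one]
  rw [Finset.sum_congr rfl e, ← Finset.mul_sum, Hd_orth _ _ _ l1 l2, K.wt_sq]
  by_cases h : K.loc j = K.loc j'
  · rw [if_pos h, if_pos (by omega)]
    push_cast
    field_simp
  · rw [if_neg h, if_neg (by omega), mul_zero]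

/-- the columns are orthonormal -/
lemma U_orth' (K : Blk) (s : ∀ n, Fin (2 ^ K.m n) → Bool) (n : ℕ) {i i' : ℕ}
    (hi : K.num i = n) (hi' : K.num i' = n) :
    ∑ j ∈ K.blk n, U K s j i * U K s j i' = if i = i' then 1 else 0 := by
  have l1 := K.loc_lt i
  have l2 := K.loc_lt i'
  have b1 := K.b_add_loc i
  have b2 := K.b_add_loc i'
  rw [hi] at l1 b1
  rw [hi'] at l2 b2
  rw [← b1, ← b2, K.sum_blk]
  have e : ∀ c ∈ range (2 ^ K.m n), U K s (K.b n + c) (K.b n + K.loc i) *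
      U K s (K.b n + c) (K.b n + K.loc i') =
      K.wt n ^ 2 * (sgn (s n ⟨K.loc i, l1⟩) * sgn (s n ⟨K.loc i', l2⟩)) *
        (Hd (K.m n) (K.loc i) c * Hd (K.m n) (K.loc i') c) := by
    intro c hc
    rw [Finset.mem_range] at hc
    rw [U_block hc l1, U_block hc l2, Hd_symm (K.m n) c, Hd_symm (K.m n) c]
    ring
  rw [Finset.sum_congr rfl e, ← Finset.mul_sum, Hd_orth _ _ _ l1 l2, K.wt_sq]
  by_cases h : K.loc i = K.loc i'
  · rw [if_pos h, if_pos (by omega)]
    have e2 : sgn (s n ⟨K.loc i, l1⟩) * sgn (s n ⟨K.loc i', l2⟩) = 1 := by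
      have : (⟨K.loc i, l1⟩ : Fin (2 ^ K.m n)) = ⟨K.loc i', l2⟩ := Fin.ext h
      rw [this, ← sq, sgn_sq]
    rw [e2]
    push_cast
    field_simp
  · rw [if_neg h, if_neg (by omega), mul_zero]

/-- the mixed function as a random combination -/
lemma sum_U_eq (K : Blk) (s : ∀ n, Fin (2 ^ K.m n) → Bool) (j : ℕ) (ψ : ℕ → X → ℝ) (x : X) :
    ∑ i ∈ K.blk (K.num j), U K s j i * ψ i x =
      comb (K.wt (K.num j)) (fun i : Fin (2 ^ K.m (K.num j)) => Hd (K.m (K.num j)) (K.loc j) i)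
        (fun i => ψ (K.b (K.num j) + i)) (s (K.num j)) x := by
  rw [K.sum_blk]
  unfold comb
  rw [Finset.sum_range, Finset.mul_sum]
  refine Finset.sum_congr rfl fun c _ => ?_
  have e : U K s j (K.b (K.num j) + c) = K.wt (K.num j) *
      (sgn (s (K.num j) c) * Hd (K.m (K.num j)) (K.loc j) c) := by
    have := U_block (K := K) (s := s) (n := K.num j) (r := K.loc j) (c := c) (K.loc_lt j) c.2
    rwa [K.b_add_loc] at this
  rw [e]
  ring

end Pool.Agent.U34.BW
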