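import Pool.Agent.U34.BW.Main

/-!
# Plane domains
-/

set_option autoImplicit false

open MeasureTheory Finset Filter Topology ProbabilityTheory
open scoped BoundedContinuousFunction NNReal ENNReal

namespace Pool.Agent.U34.BW

/-- the Bessel function `J₀`, the mean of `cos (x cos t)` over the angles `t` -/
noncomputable def J0 (x : ℝ) : ℝ :=
  (∫ t in (0:ℝ)..(2 * Real.pi), Real.cos (x * Real.cos t)) / (2 * Real.pi)

lemma J0_cont : Continuous J0 := by
  unfold J0
  refine Continuous.div_const ?_ _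
  exact intervalIntegral.continuous_parametric_intervalIntegral_of_continuous' (by fun_prop) _ _

lemma J0_zero : J0 0 = 1 := by
  unfold J0
  simp only [zero_mul, Real.cos_zero, intervalIntegral.integral_const, sub_zero, smul_eq_mul,
    mul_one]
  exact div_self (by positivity)

/-- The plane. -/
abbrev Pl : Type := EuclideanSpace ℝ (Fin 2)

/-- `Ω` is a bounded nonempty open set in the plane, `φ i` are real functions, extended by `0`,
which are orthonormal with respect to the normalised area of `Ω`, and `0 ≤ lam 0 ≤ lam 1 ≤ ...`, with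
Weyl's law and the local Weyl law on the scale of the wavelength in the interior of `Ω`, both with a
remainder `O(n ^ θ)`. -/
structure PlaneSystem (Ω : Set Pl) (φ : ℕ → Pl → ℝ) (lam : ℕ → ℝ) (θ : ℝ) : Prop where
  isOpen : IsOpen Ω
  nonempty : Ω.Nonempty
  bounded : Bornology.IsBounded Ω
  supp : ∀ i x, x ∉ Ω → φ i x = 0
  meas : ∀ i, Measurable (φ i)
  onf : ONF (ProbabilityTheory.cond volume Ω) φ
  mono : Monotone lam
  nonneg : 0 ≤ lam 0
  weyl : ∃ κ C : ℝ, 0 < κ ∧ ∀ n : ℕ, |lam n - κ * n| ≤ C * ((n : ℝ) + 1) ^ θ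
  law : ∀ p ∈ Ω, ∀ R : ℝ, ∃ C δ : ℝ, 0 < δ ∧ ∀ (n : ℕ) (q q' : Pl), dist q p < δ →
    dist q' p < δ → Real.sqrt (lam n) * dist q q' ≤ R →
      |∑ i ∈ range n, (φ i q * φ i q' - J0 (Real.sqrt (lam i) * dist q q'))| ≤
        C * ((n : ℝ) + 1) ^ θ

variable {Ω : Set Pl} {φ : ℕ → Pl → ℝ} {lam : ℕ → ℝ} {θ : ℝ}

lemma PlaneSystem.locSys (h : PlaneSystem Ω φ lam θ) :
    LocSys volume Ω (fun r z p => p + r⁻¹ • z) J0 φ (fun i => Real.sqrt (lam i)) θ 1 := by
  have hpos : ∀ i, 0 ≤ lam i := fun i => h.nonneg.trans (h.mono (Nat.zero_le i))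
  refine ⟨h.isOpen.measurableSet, (h.isOpen.measure_pos volume h.nonempty).ne',
    h.bounded.measure_lt_top.ne, h.supp, h.meas, h.onf,
    fun i j hij => Real.sqrt_le_sqrt (h.mono hij), Real.sqrt_nonneg _, ?_,
    fun r z => by fun_prop, fun r z => ?_, fun z => ?_, fun z z' => ?_, J0_cont, J0_zero, ?_⟩
  · obtain ⟨κ, C, hκ, hC⟩ := h.weyl
    refine ⟨κ, C, hκ, fun n => ?_⟩
    rw [Real.sq_sqrt (hpos n)]
    exact hC n
  · rw [(measurePreserving_add_right volume (r⁻¹ • z)).map_eq, one_smul]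
  · refine Eventually.of_forall fun p => ?_
    have h1 : Tendsto (fun r : ℝ => r⁻¹ • z) atTop (𝓝 ((0:ℝ) • z)) :=
      tendsto_inv_atTop_zero.smul_const z
    rw [zero_smul] at h1
    simpa using h1.const_add p
  · refine Eventually.of_forall fun p => ?_
    refine tendsto_const_nhds.congr' ?_
    filter_upwards [eventually_gt_atTop (0:ℝ)] with r hr
    rw [dist_add_left, dist_eq_norm, ← smul_sub, norm_smul, norm_inv, Real.norm_eq_abs,
      abs_of_pos hr, mul_inv_cancel_left₀ hr.ne']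
  · exact (ae_restrict_mem h.isOpen.measurableSet).mono fun p hp R => h.law p hp R

/-- **The random wave limit for small perturbations, in plane domains.** -/
theorem plane (hθ0 : 0 ≤ θ) (hθ1 : θ < 1) {σ ε : ℝ} (hσ : θ < σ) (hε : 0 < ε)
    (h : PlaneSystem Ω φ lam θ) (z : ℕ → Pl) :
    (∀ N, (Matrix.of fun a b : Fin N => J0 ‖z a - z b‖).PosSemidef) ∧
    ∃ (k u : ℕ → ℕ → ℝ) (I : ℕ → Finset ℕ) (lam' : ℕ → ℝ), Perturb lam ε σ k u I lam' ∧
      ∀ e : ℕ → ℝ, (∀ j, e j = 1 ∨ e j = -1) → ∀ A : Set Pl, MeasurableSet A →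
        ∀ (N : ℕ) (G : EuclideanSpace ℝ (Fin N) →ᵇ ℝ),
        Tendsto (fun j => ∫ p in A, G (WithLp.toLp 2 fun a : Fin N =>
            e j * ∑ i ∈ I j, u j i * φ i (p + (Real.sqrt (lam' j))⁻¹ • z a))
            ∂(ProbabilityTheory.cond volume Ω)) atTop
          (𝓝 ((ProbabilityTheory.cond volume Ω).real A *
            ∫ y, G y ∂(multivariateGaussian 0 (Matrix.of fun a b : Fin N => J0 ‖z a - z b‖)))) := by
  have hpos : ∀ i, 0 ≤ lam i := fun i => h.nonneg.trans (h.mono (Nat.zero_le i))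
  have h1 := localfields (d := 2) le_rfl hθ0 hθ1 (hθ0.trans hσ.le) (by push_cast; linarith) hε
    h.locSys z
  have e : (fun i => Real.sqrt (lam i) ^ 2) = lam := funext fun i => Real.sq_sqrt (hpos i)
  simp only [e] at h1
  exact h1

end Pool.Agent.U34.BW
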