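import Pool.Agent.U34.BW.Mat

/-!
# Selection of the blocks
-/

set_option autoImplicit false

open MeasureTheory Finset Filter Topology

namespace Pool.Agent.U34.BW

/-- recursively defined first elements -/
def bb (M : ℕ → ℕ) : ℕ → ℕ
  | 0 => 0
  | n + 1 => bb M n + 2 ^ M (bb M n)

/-- the blocks whose exponents are given by the first elements -/
def mkBlk (M : ℕ → ℕ) : Blk := ⟨bb M, fun n => M (bb M n), rfl, fun _ => rfl⟩

lemma rpow_aux {b : ℕ} (hb : 1 ≤ b) {θ c : ℝ} (h0 : 0 ≤ θ) (h1 : θ ≤ 1) (hc : 1 ≤ c) :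
    (c * (b : ℝ)) ^ θ ≤ c * (b : ℝ) ^ θ := by
  have hb' : (1:ℝ) ≤ b := by exact_mod_cast hb
  rw [Real.mul_rpow (by linarith) (by linarith)]
  gcongr
  calc c ^ θ ≤ c ^ (1:ℝ) := Real.rpow_le_rpow_of_exponent_le hc h1
    _ = c := Real.rpow_one c

theorem exists_blk {lam : ℕ → ℝ} (hmono : Monotone lam) (h0 : 0 ≤ lam 0) {κ C θ σ ε : ℝ}
    (hκ : 0 < κ) (hC : 0 ≤ C) (hθ0 : 0 ≤ θ) (hθ1 : θ < 1) (hσ : θ < σ) (hε : 0 < ε)
    (hlam : ∀ n : ℕ, |lam n - κ * n| ≤ C * ((n : ℝ) + 1) ^ θ) :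
    ∃ K : Blk, Tendsto K.m atTop atTop ∧
      Tendsto (fun n => ((K.b (n + 1) : ℝ) + 1) ^ θ / 2 ^ K.m n) atTop (𝓝 0) ∧
      Tendsto (fun n => (2 : ℝ) ^ K.m n / (K.b n : ℝ)) atTop (𝓝 0) ∧
      ∀ n, ∀ i ∈ K.blk n, |lam i - lam (K.b n)| ≤ ε / 4 * (1 + lam (K.b n)) ^ σ := by
  set θ' : ℝ := (θ + min σ 1) / 2 with hθ'
  have hmin : θ < min σ 1 := lt_min hσ hθ1
  have a1 : θ < θ' := by rw [hθ']; linarith
  have a2 : θ' < σ := by rw [hθ']; linarith [min_le_left σ 1]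
  have a3 : θ' < 1 := by rw [hθ']; linarith [min_le_right σ 1]
  have a4 : 0 < θ' := lt_of_le_of_lt hθ0 a1
  have hnat : Tendsto (fun b : ℕ => (b : ℝ)) atTop atTop := tendsto_natCast_atTop_atTop
  -- thresholds
  have t1 : ∀ᶠ b : ℕ in atTop, 2 * C * 2 / κ ≤ (b : ℝ) ^ (1 - θ) :=
    ((tendsto_rpow_atTop (by linarith : (0:ℝ) < 1 - θ)).comp hnat).eventually_ge_atTop _
  have t2 : ∀ᶠ b : ℕ in atTop, (κ + 4 * C) / (ε / 4 * (κ / 2) ^ σ) ≤ (b : ℝ) ^ (σ - θ') :=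
    ((tendsto_rpow_atTop (by linarith : (0:ℝ) < σ - θ')).comp hnat).eventually_ge_atTop _
  obtain ⟨bs, hbs⟩ := eventually_atTop.1 ((t1.and t2).and (eventually_ge_atTop 1))
  set M : ℕ → ℕ := fun b => if b < bs then 0 else Nat.log 2 ⌊(b : ℝ) ^ θ'⌋₊ with hM
  -- facts for large `b`
  have f1 : ∀ b, bs ≤ b → (2 : ℝ) ^ M b ≤ (b : ℝ) ^ θ' ∧ (b : ℝ) ^ θ' ≤ 2 * 2 ^ M b := by
    intro b hb
    have hb1 : 1 ≤ b := (hbs b hb).2
    have hb1' : (1:ℝ) ≤ b := by exact_mod_cast hb1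
    have hy1 : (1:ℝ) ≤ (b : ℝ) ^ θ' := Real.one_le_rpow hb1' a4.le
    have hfl : 1 ≤ ⌊(b : ℝ) ^ θ'⌋₊ := Nat.le_floor (by simpa using hy1)
    have eM : M b = Nat.log 2 ⌊(b : ℝ) ^ θ'⌋₊ := by simp only [hM]; rw [if_neg (not_lt.2 hb)]
    rw [eM]
    constructor
    · have h1 : 2 ^ Nat.log 2 ⌊(b : ℝ) ^ θ'⌋₊ ≤ ⌊(b : ℝ) ^ θ'⌋₊ := Nat.pow_log_le_self 2 (by omega)
      calc (2:ℝ) ^ Nat.log 2 ⌊(b : ℝ) ^ θ'⌋₊ = ((2 ^ Nat.log 2 ⌊(b : ℝ) ^ θ'⌋₊ : ℕ) : ℝ) := by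
            push_cast; rfl
        _ ≤ (⌊(b : ℝ) ^ θ'⌋₊ : ℝ) := by exact_mod_cast h1
        _ ≤ _ := Nat.floor_le (by positivity)
    · have h1 : ⌊(b : ℝ) ^ θ'⌋₊ < 2 ^ (Nat.log 2 ⌊(b : ℝ) ^ θ'⌋₊ + 1) :=
        Nat.lt_pow_succ_log_self (by norm_num) _
      have h2 : (b : ℝ) ^ θ' < ⌊(b : ℝ) ^ θ'⌋₊ + 1 := Nat.lt_floor_add_one _
      have h3 : ((⌊(b : ℝ) ^ θ'⌋₊ + 1 : ℕ) : ℝ) ≤
          ((2 ^ (Nat.log 2 ⌊(b : ℝ) ^ θ'⌋₊ + 1) : ℕ) : ℝ) := by exact_mod_cast h1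
      push_cast at h3
      rw [pow_succ] at h3
      linarith
  have f2 : ∀ b, bs ≤ b → (b : ℝ) ^ θ' ≤ b := by
    intro b hb
    have hb1' : (1:ℝ) ≤ b := by exact_mod_cast (hbs b hb).2
    calc (b : ℝ) ^ θ' ≤ (b : ℝ) ^ (1:ℝ) := Real.rpow_le_rpow_of_exponent_le hb1' a3.le
      _ = b := Real.rpow_one _
  have f3 : ∀ b, bs ≤ b → (κ + 4 * C) * (b : ℝ) ^ θ' ≤ ε / 4 * (1 + lam b) ^ σ := by
    intro b hb
    obtain ⟨⟨h1, h2⟩, h3⟩ := hbs b hb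
    have hb1' : (1:ℝ) ≤ b := by exact_mod_cast h3
    have hb0 : (0:ℝ) < b := by linarith
    -- lower bound of `lam`
    have h4 : C * ((b : ℝ) + 1) ^ θ ≤ κ * b / 2 := by
      have h5 : ((b : ℝ) + 1) ^ θ ≤ 2 * (b : ℝ) ^ θ := by
        calc ((b : ℝ) + 1) ^ θ ≤ (2 * (b : ℝ)) ^ θ := by
              gcongr; linarith
          _ ≤ _ := rpow_aux h3 hθ0 hθ1.le (by norm_num)
      have h6 : (b : ℝ) = (b : ℝ) ^ θ * (b : ℝ) ^ (1 - θ) := by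
        rw [← Real.rpow_add hb0, add_sub_cancel, Real.rpow_one]
      have h7 : 2 * C * 2 ≤ κ * (b : ℝ) ^ (1 - θ) := by
        rw [div_le_iff₀ hκ] at h1; linarith
      have hbθ : 0 < (b : ℝ) ^ θ := Real.rpow_pos_of_pos hb0 _
      calc C * ((b : ℝ) + 1) ^ θ ≤ C * (2 * (b : ℝ) ^ θ) := by gcongr
        _ = (2 * C * 2) * (b : ℝ) ^ θ / 2 := by ring
        _ ≤ (κ * (b : ℝ) ^ (1 - θ)) * (b : ℝ) ^ θ / 2 := by gcongr
        _ = κ * ((b : ℝ) ^ θ * (b : ℝ) ^ (1 - θ)) / 2 := by ring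
        _ = κ * b / 2 := by rw [← h6]
    have h5 : κ / 2 * b ≤ 1 + lam b := by
      have := (abs_le.1 (hlam b)).1
      linarith
    have hκσ : 0 < (κ / 2) ^ σ := Real.rpow_pos_of_pos (by positivity) _
    have h6 : (κ / 2) ^ σ * (b : ℝ) ^ σ ≤ (1 + lam b) ^ σ := by
      rw [← Real.mul_rpow (by positivity) hb0.le]
      exact Real.rpow_le_rpow (by positivity) h5 (by linarith)
    have h7 : (b : ℝ) ^ σ = (b : ℝ) ^ θ' * (b : ℝ) ^ (σ - θ') := by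
      rw [← Real.rpow_add hb0, add_sub_cancel]
    rw [div_le_iff₀ (by positivity)] at h2
    have hbθ : 0 < (b : ℝ) ^ θ' := Real.rpow_pos_of_pos hb0 _
    calc (κ + 4 * C) * (b : ℝ) ^ θ' ≤ ((b : ℝ) ^ (σ - θ') * (ε / 4 * (κ / 2) ^ σ)) * (b : ℝ) ^ θ' := by
          gcongr
      _ = ε / 4 * ((κ / 2) ^ σ * ((b : ℝ) ^ θ' * (b : ℝ) ^ (σ - θ'))) := by ring
      _ = ε / 4 * ((κ / 2) ^ σ * (b : ℝ) ^ σ) := by rw [← h7]
      _ ≤ _ := by gcongr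
  set K := mkBlk M with hK
  have hKm : ∀ n, K.m n = M (K.b n) := fun n => rfl
  have hbinf : Tendsto K.b atTop atTop := K.mono.tendsto_atTop
  have hbs' : ∀ᶠ n in atTop, bs ≤ K.b n := hbinf.eventually_ge_atTop bs
  have hbr : Tendsto (fun n => (K.b n : ℝ)) atTop atTop := hnat.comp hbinf
  refine ⟨K, ?_, ?_, ?_, ?_⟩
  · refine tendsto_atTop.2 fun k => ?_
    have h1 : ∀ᶠ n in atTop, 2 * (2:ℝ) ^ k ≤ (K.b n : ℝ) ^ θ' :=
      ((tendsto_rpow_atTop a4).comp hbr).eventually_ge_atTop _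
    filter_upwards [hbs', h1] with n hn h2
    have h3 := (f1 _ hn).2
    rw [hKm]
    have h4 : (2:ℝ) ^ k ≤ 2 ^ M (K.b n) := by linarith
    exact (pow_le_pow_iff_right₀ (by norm_num : (1:ℝ) < 2)).1 h4
  · have h1 : Tendsto (fun n => 6 * (K.b n : ℝ) ^ (-(θ' - θ))) atTop (𝓝 0) := by
      have := ((tendsto_rpow_neg_atTop (by linarith : 0 < θ' - θ)).comp hbr).const_mul 6
      simpa using this
    refine squeeze_zero' (Eventually.of_forall fun n => by positivity) ?_ h1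
    filter_upwards [hbs'] with n hn
    have hb1 : 1 ≤ K.b n := (hbs _ hn).2
    have hb1' : (1:ℝ) ≤ K.b n := by exact_mod_cast hb1
    have hb0 : (0:ℝ) < K.b n := by linarith
    have h2 : (K.b (n + 1) : ℝ) + 1 ≤ 3 * K.b n := by
      rw [K.step]
      push_cast
      have := (f1 _ hn).1
      have := f2 _ hn
      rw [hKm]
      linarith
    have h3 : ((K.b (n + 1) : ℝ) + 1) ^ θ ≤ 3 * (K.b n : ℝ) ^ θ :=
      (Real.rpow_le_rpow (by positivity) h2 hθ0).trans (rpow_aux hb1 hθ0 hθ1.le (by norm_num))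
    have h4 := (f1 _ hn).2
    rw [hKm, div_le_iff₀ (by positivity)]
    have h5 : (K.b n : ℝ) ^ θ = (K.b n : ℝ) ^ (-(θ' - θ)) * (K.b n : ℝ) ^ θ' := by
      rw [← Real.rpow_add hb0]; congr 1; ring
    calc ((K.b (n + 1) : ℝ) + 1) ^ θ ≤ 3 * (K.b n : ℝ) ^ θ := h3
      _ = 3 * (K.b n : ℝ) ^ (-(θ' - θ)) * (K.b n : ℝ) ^ θ' := by rw [h5]; ring
      _ ≤ 3 * (K.b n : ℝ) ^ (-(θ' - θ)) * (2 * 2 ^ M (K.b n)) := by gcongr
      _ = _ := by ring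
  · have h1 : Tendsto (fun n => (K.b n : ℝ) ^ (-(1 - θ'))) atTop (𝓝 0) :=
      (tendsto_rpow_neg_atTop (by linarith : 0 < 1 - θ')).comp hbr
    refine squeeze_zero' (Eventually.of_forall fun n => by positivity) ?_ h1
    filter_upwards [hbs'] with n hn
    have hb1' : (1:ℝ) ≤ K.b n := by exact_mod_cast (hbs _ hn).2
    have hb0 : (0:ℝ) < K.b n := by linarith
    rw [hKm, div_le_iff₀ hb0]
    refine (f1 _ hn).1.trans (le_of_eq ?_)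
    nth_rewrite 3 [← Real.rpow_one (K.b n : ℝ)]
    rw [← Real.rpow_add hb0]
    congr 1; ring
  · intro n i hi
    have hi' := Finset.mem_Ico.1 hi
    rw [K.step] at hi'
    have hge : lam (K.b n) ≤ lam i := hmono hi'.1
    have hpos : 0 ≤ lam (K.b n) := h0.trans (hmono (Nat.zero_le _))
    by_cases hn : K.b n < bs
    · have e1 : K.m n = 0 := by rw [hKm]; simp only [hM]; rw [if_pos hn]
      rw [e1, pow_zero] at hi'
      have e2 : i = K.b n := by omega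
      rw [e2, sub_self, abs_zero]
      have : 0 ≤ (1 + lam (K.b n)) ^ σ := Real.rpow_nonneg (by linarith) _
      positivity
    · rw [not_lt] at hn
      refine le_trans ?_ (f3 _ hn)
      rw [abs_of_nonneg (by linarith)]
      have hb1 : 1 ≤ K.b n := (hbs _ hn).2
      have hb1' : (1:ℝ) ≤ K.b n := by exact_mod_cast hb1
      have h2 : (2:ℝ) ^ K.m n ≤ (K.b n : ℝ) ^ θ' := by rw [hKm]; exact (f1 _ hn).1
      have h3 : (i : ℝ) + 1 ≤ K.b n + 2 ^ K.m n := by exact_mod_cast hi'.2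
      have h4 : (i : ℝ) + 1 ≤ 2 * K.b n := by linarith [f2 _ hn]
      have hthth : (K.b n : ℝ) ^ θ ≤ (K.b n : ℝ) ^ θ' :=
        Real.rpow_le_rpow_of_exponent_le hb1' a1.le
      have h5 : ((i : ℝ) + 1) ^ θ ≤ 2 * (K.b n : ℝ) ^ θ' :=
        ((Real.rpow_le_rpow (by positivity) h4 hθ0).trans
          (rpow_aux hb1 hθ0 hθ1.le (by norm_num))).trans (by gcongr)
      have h6 : ((K.b n : ℝ) + 1) ^ θ ≤ 2 * (K.b n : ℝ) ^ θ' :=
        ((Real.rpow_le_rpow (by positivity)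
          (show (K.b n : ℝ) + 1 ≤ 2 * K.b n by linarith) hθ0).trans
          (rpow_aux hb1 hθ0 hθ1.le (by norm_num))).trans (by gcongr)
      have h7 := (abs_le.1 (hlam i)).2
      have h8 := (abs_le.1 (hlam (K.b n))).1
      have h9 : C * ((i : ℝ) + 1) ^ θ ≤ C * (2 * (K.b n : ℝ) ^ θ') := by gcongr
      have h10 : C * ((K.b n : ℝ) + 1) ^ θ ≤ C * (2 * (K.b n : ℝ) ^ θ') := by gcongr
      have h11 : κ * i - κ * K.b n ≤ κ * (K.b n : ℝ) ^ θ' := by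
        have : (i : ℝ) - K.b n ≤ (K.b n : ℝ) ^ θ' := by linarith
        nlinarith
      linarith

end Pool.Agent.U34.BW
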