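import Pool.Agent.U34.BW.Sel

/-!
# Small perturbations of an operator with Weyl's laws: Gaussian value distribution
-/

set_option autoImplicit false

open MeasureTheory Finset Filter Topology ProbabilityTheory
open scoped BoundedContinuousFunction

namespace Pool.Agent.U34.BW

variable {X : Type*} [MeasurableSpace X] {μ : Measure X}

/-- `φ i` are real functions, orthonormal in `L²(μ)`, `lam 0 ≤ lam 1 ≤ ...` nonnegative numbers
(the eigenfunctions and eigenvalues of a nonnegative operator) with Weyl's law and the local Weyl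
law, both with a remainder of order `n ^ θ`. -/
structure WeylSystem (μ : Measure X) (φ : ℕ → X → ℝ) (lam : ℕ → ℝ) (θ : ℝ) : Prop where
  onf : ONF μ φ
  mono : Monotone lam
  nonneg : 0 ≤ lam 0
  weyl : ∃ κ C : ℝ, 0 < κ ∧ ∀ n : ℕ, |lam n - κ * n| ≤ C * ((n : ℝ) + 1) ^ θ
  local_weyl : ∀ᵐ x ∂μ, ∃ C : ℝ, ∀ n : ℕ,
    |∑ i ∈ range n, φ i x ^ 2 - n| ≤ C * ((n : ℝ) + 1) ^ θ

/-- `k` is a symmetric matrix, `u` an orthogonal matrix (both with finite rows, supported in the
finite sets `I i`), and `lam' 0 < lam' 1 < ...` with `(D + k) u_j = lam' j u_j` for the rows `u_j` of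
`u`, where `D` is the diagonal matrix with the entries `lam i`. The matrix `k` is small relative to
`(1 + D) ^ σ`: `‖k a‖ ≤ ε ‖(1 + D) ^ σ a‖` for all `a` with `(1 + D) ^ σ a` in `ℓ²`. Every eigenvector
`a ≠ 0` of `D + k` (any sequence of real numbers) is a multiple of a row of `u`. -/
structure Perturb (lam : ℕ → ℝ) (ε σ : ℝ) (k u : ℕ → ℕ → ℝ) (I : ℕ → Finset ℕ) (lam' : ℕ → ℝ) :
    Prop where
  kfin : ∀ i l, l ∉ I i → k i l = 0
  ufin : ∀ i l, l ∉ I i → u i l = 0 ∧ u l i = 0
  symm : ∀ i l, k i l = k l i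
  small : ∀ a : ℕ → ℝ, (Summable fun i => ((1 + lam i) ^ σ * a i) ^ 2) →
    (Summable fun i => (∑ l ∈ I i, k i l * a l) ^ 2) ∧
      ∑' i, (∑ l ∈ I i, k i l * a l) ^ 2 ≤ ε ^ 2 * ∑' i, ((1 + lam i) ^ σ * a i) ^ 2
  rows : ∀ i j, ∑ l ∈ I i, u i l * u j l = if i = j then 1 else 0
  cols : ∀ i j, ∑ l ∈ I i, u l i * u l j = if i = j then 1 else 0
  simple : StrictMono lam'
  close : ∀ i, |lam' i - lam i| ≤ ε
  eig : ∀ i j, lam i * u j i + ∑ l ∈ I i, k i l * u j l = lam' j * u j i
  eigs : ∀ (a : ℕ → ℝ) (z : ℝ), (∃ i, a i ≠ 0) →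
    (∀ i, lam i * a i + ∑ l ∈ I i, k i l * a l = z * a i) → ∃ j c, z = lam' j ∧ ∀ i, a i = c * u j i

/-- the new eigenvalues -/
noncomputable def newlam (lam : ℕ → ℝ) (ε : ℝ) (i : ℕ) : ℝ := lam i + ε / 4 * (1 - 1 / ((i : ℝ) + 2))

lemma newlam_close {lam : ℕ → ℝ} {ε : ℝ} (hε : 0 < ε) (i : ℕ) :
    0 ≤ newlam lam ε i - lam i ∧ newlam lam ε i - lam i ≤ ε / 4 := by
  unfold newlam
  have h1 : 1 / ((i : ℝ) + 2) ≤ 1 := by
    rw [div_le_one (by positivity)]
    have : (0:ℝ) ≤ i := Nat.cast_nonneg i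
    linarith
  have h2 : 0 ≤ 1 / ((i : ℝ) + 2) := by positivity
  rw [add_sub_cancel_left]
  constructor
  · have : 0 ≤ 1 - 1 / ((i : ℝ) + 2) := by linarith
    positivity
  · nlinarith

lemma newlam_strict {lam : ℕ → ℝ} (hmono : Monotone lam) {ε : ℝ} (hε : 0 < ε) :
    StrictMono (newlam lam ε) := by
  refine strictMono_nat_of_lt_succ fun n => ?_
  unfold newlam
  have h1 := hmono (Nat.le_succ n)
  have h2 : 1 / (((n + 1 : ℕ) : ℝ) + 2) < 1 / ((n : ℝ) + 2) := by
    push_cast
    apply one_div_lt_one_div_of_lt (by positivity)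
    linarith
  have h3 : lam n ≤ lam (n + 1) := h1
  nlinarith

/-- all eigenvectors -/
theorem kmat_eigs {K : Blk} {s : ∀ n, Fin (2 ^ K.m n) → Bool} {lam lam' : ℕ → ℝ}
    (hl : StrictMono lam') {a : ℕ → ℝ} {z : ℝ} (ha : ∃ i, a i ≠ 0)
    (hz : ∀ i, lam i * a i + ∑ l ∈ K.blk (K.num i), kmat K s lam lam' i l * a l = z * a i) :
    ∃ j c, z = lam' j ∧ ∀ i, a i = c * U K s j i := by
  set y : ℕ → ℝ := fun j => ∑ l ∈ K.blk (K.num j), U K s j l * a l with hy
  have h1 : ∀ j, (lam' j - z) * y j = 0 := by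
    intro j
    set B := K.blk (K.num j) with hB
    have e1 : z * y j = ∑ l ∈ B, U K s j l * (z * a l) := by
      simp only [hy]
      rw [Finset.mul_sum]
      exact Finset.sum_congr rfl fun l _ => by ring
    have e2 : ∀ l ∈ B, U K s j l * (z * a l) =
        a l * (lam l * U K s j l) + ∑ r ∈ B, a r * (kmat K s lam lam' r l * U K s j l) := by
      intro l hl
      rw [← hz l, K.mem_blk.1 hl, mul_add, Finset.mul_sum]
      congr 1
      · ring
      · exact Finset.sum_congr rfl fun r _ => by rw [kmat_symm l r]; ring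
    have e3 : z * y j = ∑ l ∈ B, a l * (lam l * U K s j l +
        ∑ r ∈ B, kmat K s lam lam' l r * U K s j r) := by
      rw [e1, Finset.sum_congr rfl e2, Finset.sum_add_distrib, Finset.sum_comm,
        ← Finset.sum_add_distrib]
      refine Finset.sum_congr rfl fun l _ => ?_
      rw [mul_add, Finset.mul_sum]
    have e4 : ∀ l ∈ B, a l * (lam l * U K s j l + ∑ r ∈ B, kmat K s lam lam' l r * U K s j r) =
        lam' j * (U K s j l * a l) := by
      intro l hl
      have := kmat_eig (K := K) (s := s) (lam := lam) (lam' := lam') j l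
      rw [K.mem_blk.1 hl] at this
      rw [this]
      ring
    rw [Finset.sum_congr rfl e4, ← Finset.mul_sum] at e3
    have e5 : ∑ l ∈ B, U K s j l * a l = y j := rfl
    rw [e5] at e3
    rw [sub_mul, e3, sub_self]
  have h2 : ∀ i, a i = ∑ j ∈ K.blk (K.num i), U K s j i * y j := by
    intro i
    set B := K.blk (K.num i) with hB
    have e1 : ∑ j ∈ B, U K s j i * y j = ∑ j ∈ B, ∑ l ∈ B, a l * (U K s j i * U K s j l) := by
      refine Finset.sum_congr rfl fun j hj => ?_
      simp only [hy]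
      rw [K.mem_blk.1 hj, Finset.mul_sum]
      exact Finset.sum_congr rfl fun l _ => by ring
    rw [e1, Finset.sum_comm]
    have e2 : ∀ l ∈ B, ∑ j ∈ B, a l * (U K s j i * U K s j l) = if i = l then a i else 0 := by
      intro l hl
      rw [← Finset.mul_sum, U_orth' K s (K.num i) rfl (K.mem_blk.1 hl)]
      by_cases h : i = l
      · rw [if_pos h, if_pos h, h]; ring
      · rw [if_neg h, if_neg h, mul_zero]
    rw [Finset.sum_congr rfl e2, Finset.sum_ite_eq, if_pos (self_mem K i)]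
  obtain ⟨i0, hi0⟩ := ha
  have h3 : ∃ j, y j ≠ 0 := by
    by_contra hcon
    push Not at hcon
    apply hi0
    rw [h2 i0]
    exact Finset.sum_eq_zero fun j _ => by rw [hcon j, mul_zero]
  obtain ⟨j0, hj0⟩ := h3
  have hzj : z = lam' j0 := by
    rcases mul_eq_zero.1 (h1 j0) with h | h
    · linarith
    · exact absurd h hj0
  have hyj : ∀ j, j ≠ j0 → y j = 0 := by
    intro j hj
    rcases mul_eq_zero.1 (h1 j) with h | h
    · exfalso
      apply hj
      apply hl.injective
      linarith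
    · exact h
  refine ⟨j0, y j0, hzj, fun i => ?_⟩
  rw [h2 i]
  by_cases hm : K.num j0 = K.num i
  · rw [Finset.sum_eq_single j0 (fun j _ hj => by rw [hyj j hj, mul_zero])
      (fun hn => absurd (K.mem_blk.2 hm) hn)]
    ring
  · rw [U_zero (j := j0) (i := i) (fun e => hm e.symm), mul_zero]
    refine Finset.sum_eq_zero fun j hj => ?_
    rw [hyj j (fun e => hm (by rw [← e]; exact K.mem_blk.1 hj)), mul_zero]

/-- the perturbation given by the mixing matrix -/
theorem perturb {lam : ℕ → ℝ} (hmono : Monotone lam) (h0 : 0 ≤ lam 0) {ε σ : ℝ} (hε : 0 < ε)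
    (hσ : 0 ≤ σ) (K : Blk)
    (hK : ∀ n, ∀ i ∈ K.blk n, |lam i - lam (K.b n)| ≤ ε / 4 * (1 + lam (K.b n)) ^ σ)
    (s : ∀ n, Fin (2 ^ K.m n) → Bool) :
    Perturb lam ε σ (kmat K s lam (newlam lam ε)) (U K s) (fun i => K.blk (K.num i))
      (newlam lam ε) := by
  refine ⟨fun i l h => kmat_zero h, fun i l h => ?_, kmat_symm, ?_, fun i j => ?_, fun i j => ?_,
    newlam_strict hmono hε, fun i => ?_, fun i j => kmat_eig j i, fun a z ha hz =>
      kmat_eigs (newlam_strict hmono hε) ha hz⟩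
  · have h1 : K.num l ≠ K.num i := fun e => h (K.mem_blk.2 e)
    exact ⟨U_zero h1, U_zero h1.symm⟩
  · intro a ha
    refine kmat_small (w := fun i => (1 + lam i) ^ σ) (fun n => ?_) a ha
    have hpos : 0 ≤ lam (K.b n) := h0.trans (hmono (Nat.zero_le _))
    have h1 : 1 ≤ (1 + lam (K.b n)) ^ σ := Real.one_le_rpow (by linarith) hσ
    refine ⟨lam (K.b n), ε / 2 * (1 + lam (K.b n)) ^ σ, by positivity, fun i hi => ?_,
      fun i hi => ?_, fun i hi => ?_⟩
    · refine (hK n i hi).trans ?_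
      nlinarith
    · have h2 := hK n i hi
      have h3 := newlam_close (lam := lam) hε i
      have h4 : |newlam lam ε i - lam (K.b n)| ≤ |newlam lam ε i - lam i| +
          |lam i - lam (K.b n)| := abs_sub_le _ _ _
      rw [abs_of_nonneg h3.1] at h4
      nlinarith
    · have hi' : lam (K.b n) ≤ lam i := hmono (Finset.mem_Ico.1 hi).1
      have h2 : (1 + lam (K.b n)) ^ σ ≤ (1 + lam i) ^ σ :=
        Real.rpow_le_rpow (by linarith) (by linarith) hσ
      nlinarith
  · show ∑ l ∈ K.blk (K.num i), U K s i l * U K s j l = _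
    by_cases h : K.num j = K.num i
    · exact U_orth K s (K.num i) rfl h
    · rw [if_neg (fun e => h (by rw [e]))]
      refine Finset.sum_eq_zero fun l hl => ?_
      rw [K.mem_blk] at hl
      rw [U_zero (j := j) (i := l) (by rw [hl]; exact fun e => h e.symm), mul_zero]
  · show ∑ l ∈ K.blk (K.num i), U K s l i * U K s l j = _
    by_cases h : K.num j = K.num i
    · exact U_orth' K s (K.num i) rfl h
    · rw [if_neg (fun e => h (by rw [e]))]
      refine Finset.sum_eq_zero fun l hl => ?_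
      rw [K.mem_blk] at hl
      rw [U_zero (j := l) (i := j) (by rw [hl]; exact h), mul_zero]
  · have h3 := newlam_close (lam := lam) hε i
    rw [abs_of_nonneg h3.1]
    linarith

/-- the local Weyl law in the blocks -/
lemma block_law {K : Blk} {θ C : ℝ} (hθ : 0 ≤ θ) {P : ℕ → ℝ} {f : ℕ → ℝ}
    (hP : ∀ n, P n = ∑ i ∈ range n, f i ^ 2)
    (hC : ∀ n : ℕ, |P n - n| ≤ C * ((n : ℝ) + 1) ^ θ) (n : ℕ) :
    |∑ i ∈ K.blk n, f i * f i - 2 ^ K.m n| ≤ 2 * C * ((K.b (n + 1) : ℝ) + 1) ^ θ ∧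
      ∀ i ∈ K.blk n, f i ^ 2 ≤ 1 + 2 * C * ((K.b (n + 1) : ℝ) + 1) ^ θ := by
  have hC0 : 0 ≤ C := by
    have := (abs_nonneg _).trans (hC 0)
    simpa using this
  have hle : K.b n ≤ K.b (n + 1) := K.mono.monotone (Nat.le_succ n)
  have hmn : ∀ i, i ≤ K.b (n + 1) → C * ((i : ℝ) + 1) ^ θ ≤ C * ((K.b (n + 1) : ℝ) + 1) ^ θ := by
    intro i hi
    have : (i : ℝ) ≤ K.b (n + 1) := by exact_mod_cast hi
    gcongr
  constructor
  · have e1 : ∑ i ∈ K.blk n, f i * f i = P (K.b (n + 1)) - P (K.b n) := by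
      rw [hP, hP]
      unfold Blk.blk
      rw [Finset.sum_Ico_eq_sub _ hle]
      simp only [sq]
    have e2 : (2:ℝ) ^ K.m n = (K.b (n + 1) : ℝ) - K.b n := by
      rw [K.step]; push_cast; ring
    rw [e1, e2]
    have h1 := hC (K.b (n + 1))
    have h2 := (hC (K.b n)).trans (hmn _ hle)
    have e3 : P (K.b (n + 1)) - P (K.b n) - ((K.b (n + 1) : ℝ) - K.b n) =
        (P (K.b (n + 1)) - K.b (n + 1)) - (P (K.b n) - K.b n) := by ring
    rw [e3]
    have h3 := abs_sub (P (K.b (n + 1)) - K.b (n + 1)) (P (K.b n) - K.b n)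
    linarith
  · intro i hi
    have hi' := Finset.mem_Ico.1 hi
    have e1 : f i ^ 2 = P (i + 1) - P i := by rw [hP, hP, Finset.sum_range_succ]; ring
    have h1 := (hC (i + 1)).trans (hmn (i + 1) hi'.2)
    have h2 := (hC i).trans (hmn i (by omega))
    have h3 := (abs_le.1 h1).2
    have h4 := (abs_le.1 h2).1
    push_cast at h3
    rw [e1]
    linarith

/-- the observables of the value distribution -/
theorem obs_value [IsProbabilityMeasure μ] {φ : ℕ → X → ℝ} {lam : ℕ → ℝ} {θ : ℝ} (hθ : 0 ≤ θ)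
    (h : WeylSystem μ φ lam θ) {K : Blk} (hm : Tendsto K.m atTop atTop)
    (hR : Tendsto (fun n => ((K.b (n + 1) : ℝ) + 1) ^ θ / 2 ^ K.m n) atTop (𝓝 0)) :
    Obs μ K (fun _ _ i => φ i) 1 (fun _ _ => 1) := by
  refine ⟨fun j a => ?_, fun a a' => ?_, fun a => ?_⟩
  · have := h.onf.bes (K.b (K.num j)) (2 ^ K.m (K.num j)) 1
    simpa using this
  · filter_upwards [h.local_weyl] with x hx
    obtain ⟨C, hC⟩ := hx
    have h1 : Tendsto (fun n => (∑ i ∈ K.blk n, φ i x * φ i x) / 2 ^ K.m n) atTop (𝓝 1) := by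
      have h2 : Tendsto (fun n => 2 * C * (((K.b (n + 1) : ℝ) + 1) ^ θ / 2 ^ K.m n)) atTop
          (𝓝 0) := by simpa using hR.const_mul (2 * C)
      have h3 : Tendsto (fun n => (∑ i ∈ K.blk n, φ i x * φ i x) / 2 ^ K.m n - 1) atTop
          (𝓝 0) := by
        refine squeeze_zero_norm (fun n => ?_) h2
        have h4 := (block_law (K := K) hθ (f := fun i => φ i x) (fun n => rfl) hC n).1
        have hp : (0:ℝ) < 2 ^ K.m n := by positivity
        rw [Real.norm_eq_abs, div_sub_one hp.ne', abs_div, abs_of_pos hp, ← mul_div_assoc]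
        gcongr
      simpa using h3.add_const 1
    exact h1.comp K.num_tendsto
  · filter_upwards [h.local_weyl] with x hx η hη
    obtain ⟨C, hC⟩ := hx
    have h1 : Tendsto (fun n => 1 / 2 ^ K.m n + 2 * C * (((K.b (n + 1) : ℝ) + 1) ^ θ / 2 ^ K.m n))
        atTop (𝓝 0) := by
      have h2 : Tendsto (fun n => (2:ℝ) ^ K.m n) atTop atTop :=
        (tendsto_pow_atTop_atTop_of_one_lt (by norm_num : (1:ℝ) < 2)).comp hm
      have h3 : Tendsto (fun n => 1 / (2:ℝ) ^ K.m n) atTop (𝓝 0) :=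
        tendsto_const_nhds.div_atTop h2
      simpa using h3.add (hR.const_mul (2 * C))
    have h2 := (h1.comp K.num_tendsto).eventually (gt_mem_nhds (by positivity : 0 < η ^ 2))
    filter_upwards [h2] with j hj i hi
    have h4 := (block_law (K := K) hθ (f := fun i => φ i x) (fun n => rfl) hC (K.num j)).2 i hi
    have hp : (0:ℝ) < 2 ^ K.m (K.num j) := by positivity
    simp only [Function.comp_apply] at hj
    have h5 : φ i x ^ 2 ≤ η ^ 2 * 2 ^ K.m (K.num j) := by
      refine h4.trans ?_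
      have e : 1 + 2 * C * ((K.b (K.num j + 1) : ℝ) + 1) ^ θ =
          (1 / 2 ^ K.m (K.num j) + 2 * C * (((K.b (K.num j + 1) : ℝ) + 1) ^ θ /
            2 ^ K.m (K.num j))) * 2 ^ K.m (K.num j) := by field_simp
      rw [e]
      gcongr
    rw [← Real.sqrt_sq_eq_abs]
    calc Real.sqrt (φ i x ^ 2) ≤ Real.sqrt (η ^ 2 * 2 ^ K.m (K.num j)) := Real.sqrt_le_sqrt h5
      _ = η * Real.sqrt (2 ^ K.m (K.num j)) := by
          rw [Real.sqrt_mul (sq_nonneg η), Real.sqrt_sq hη.le]

/-- Lévy's theorem in terms of sine and cosine integrals -/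
theorem levy [IsProbabilityMeasure μ] {f : ℕ → X → ℝ} (hf : ∀ j, AEMeasurable (f j) μ)
    (h0 : ∀ t : ℝ, Tendsto (fun j => ∫ x, Real.cos (t * f j x) ∂μ) atTop
      (𝓝 (Real.exp (-(t ^ 2 / 2)))))
    (h1 : ∀ t : ℝ, Tendsto (fun j => ∫ x, Real.sin (t * f j x) ∂μ) atTop (𝓝 0))
    (g : ℝ →ᵇ ℝ) :
    Tendsto (fun j => ∫ x, g (f j x) ∂μ) atTop (𝓝 (∫ y, g y ∂(gaussianReal 0 1))) := by
  set ν : ℕ → ProbabilityMeasure ℝ := fun j =>
    ⟨μ.map (f j), Measure.isProbabilityMeasure_map (hf j)⟩ with hν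
  set γ : ProbabilityMeasure ℝ := ⟨gaussianReal 0 1, inferInstance⟩ with hγ
  have key : Tendsto ν atTop (𝓝 γ) := by
    rw [ProbabilityMeasure.tendsto_iff_tendsto_charFun]
    intro t
    have e1 : charFun (γ : Measure ℝ) t = ((Real.exp (-(t ^ 2 / 2)) : ℝ) : ℂ) := by
      show charFun (gaussianReal 0 1) t = _
      rw [charFun_gaussianReal]
      push_cast
      congr 1
      simp
    have e2 : ∀ j, charFun (ν j : Measure ℝ) t = ((∫ x, Real.cos (t * f j x) ∂μ : ℝ) : ℂ) +
        ((∫ x, Real.sin (t * f j x) ∂μ : ℝ) : ℂ) * Complex.I := by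
      intro j
      show charFun (μ.map (f j)) t = _
      rw [charFun_apply_real, integral_map (hf j) (by fun_prop)]
      have hm : AEStronglyMeasurable (fun x => t * f j x) μ :=
        (hf j).aestronglyMeasurable.const_mul t
      have i1 : Integrable (fun x => Real.cos (t * f j x)) μ :=
        int_bdd (Real.continuous_cos.comp_aestronglyMeasurable hm) fun x => Real.abs_cos_le_one _
      have i2 : Integrable (fun x => Real.sin (t * f j x)) μ :=
        int_bdd (Real.continuous_sin.comp_aestronglyMeasurable hm) fun x => Real.abs_sin_le_one _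
      rw [← integral_complex_ofReal, ← integral_complex_ofReal, ← integral_mul_const,
        ← integral_add i1.ofReal (i2.ofReal.mul_const _)]
      refine integral_congr_ae (Eventually.of_forall fun x => ?_)
      show Complex.exp (t * f j x * Complex.I) = _
      rw [show (t : ℂ) * (f j x : ℂ) = ((t * f j x : ℝ) : ℂ) by push_cast; ring,
        Complex.exp_mul_I]
      push_cast
      rfl
    rw [e1]
    simp_rw [e2]
    have h2 := (Complex.continuous_ofReal.tendsto _).comp (h0 t)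
    have h3 := ((Complex.continuous_ofReal.tendsto _).comp (h1 t)).mul_const Complex.I
    have h4 := h2.add h3
    simpa using h4
  have h2 := (ProbabilityMeasure.tendsto_iff_forall_integral_tendsto.1 key) g
  have e3 : ∀ j, ∫ y, g y ∂(ν j : Measure ℝ) = ∫ x, g (f j x) ∂μ := fun j => by
    show ∫ y, g y ∂(μ.map (f j)) = _
    rw [integral_map (hf j) (by fun_prop)]
  simp_rw [e3] at h2
  exact h2

/-- conditioning -/
lemma Obs.cond [IsProbabilityMeasure μ] {K : Blk} {Φ : ℕ → ℕ → ℕ → X → ℝ} {C : ℝ} {ρ : ℕ → ℕ → ℝ}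
    (h : Obs μ K Φ C ρ) {A : Set X} (hA : MeasurableSet A) (hA0 : μ A ≠ 0) :
    Obs (ProbabilityTheory.cond μ A) K Φ ((μ.real A)⁻¹ * C) ρ := by
  have hAt : μ A ≠ ⊤ := measure_ne_top μ A
  have hr : 0 < μ.real A := ENNReal.toReal_pos hA0 hAt
  have hcd : ProbabilityTheory.cond μ A = (μ A)⁻¹ • μ.restrict A := rfl
  have hint : ∀ f : X → ℝ, ∫ x, f x ∂(ProbabilityTheory.cond μ A) =
      (μ.real A)⁻¹ * ∫ x, A.indicator f x ∂μ := by
    intro f
    rw [hcd, integral_smul_measure, integral_indicator hA, ENNReal.toReal_inv, smul_eq_mul]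
    rfl
  refine ⟨fun j a => ⟨fun i => ?_, fun g hg => ?_, ?_⟩, fun a a' => ?_, fun a => ?_⟩
  · rw [hcd]
    exact (((h.bes j a).mem i).restrict A).smul_measure (ENNReal.inv_ne_top.2 hA0)
  · have hg' : MemLp (A.indicator g) 2 μ := by
      rw [memLp_indicator_iff_restrict hA]
      have e : μ.restrict A = μ A • ProbabilityTheory.cond μ A := by
        rw [hcd, smul_smul, ENNReal.mul_inv_cancel hA0 hAt, one_smul]
      rw [e]
      exact hg.smul_measure hAt
    have h1 := (h.bes j a).bes _ hg'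
    have e1 : ∀ i : Fin (2 ^ K.m (K.num j)), ∫ x, Φ j a (K.b (K.num j) + i) x * g x
        ∂(ProbabilityTheory.cond μ A) =
        (μ.real A)⁻¹ * ∫ x, Φ j a (K.b (K.num j) + i) x * A.indicator g x ∂μ := by
      intro i
      rw [hint]
      congr 1
      refine integral_congr_ae (Eventually.of_forall fun x => ?_)
      show A.indicator (fun x => Φ j a (K.b (K.num j) + i) x * g x) x =
        Φ j a (K.b (K.num j) + i) x * A.indicator g x
      by_cases hx : x ∈ A
      · rw [Set.indicator_of_mem hx, Set.indicator_of_mem hx]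
      · rw [Set.indicator_of_notMem hx, Set.indicator_of_notMem hx, mul_zero]
    have e2 : ∫ x, g x ^ 2 ∂(ProbabilityTheory.cond μ A) =
        (μ.real A)⁻¹ * ∫ x, A.indicator g x ^ 2 ∂μ := by
      rw [hint]
      congr 1
      refine integral_congr_ae (Eventually.of_forall fun x => ?_)
      show A.indicator (fun x => g x ^ 2) x = A.indicator g x ^ 2
      by_cases hx : x ∈ A
      · rw [Set.indicator_of_mem hx, Set.indicator_of_mem hx]
      · rw [Set.indicator_of_notMem hx, Set.indicator_of_notMem hx]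
        norm_num
    simp_rw [e1]
    rw [e2]
    simp only [mul_pow]
    rw [← Finset.mul_sum]
    calc (μ.real A)⁻¹ ^ 2 * ∑ i : Fin (2 ^ K.m (K.num j)),
          (∫ x, Φ j a (K.b (K.num j) + i) x * A.indicator g x ∂μ) ^ 2
        ≤ (μ.real A)⁻¹ ^ 2 * (C * ∫ x, A.indicator g x ^ 2 ∂μ) := by gcongr
      _ = _ := by ring
  · have := (h.bes j a).B0
    positivity
  · exact ProbabilityTheory.cond_absolutelyContinuous.ae_le (h.cov a a')
  · exact ProbabilityTheory.cond_absolutelyContinuous.ae_le (h.small a)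

lemma cond_int [IsProbabilityMeasure μ] {A : Set X} (hA0 : μ A ≠ 0) (f : X → ℝ) :
    ∫ x in A, f x ∂μ = μ.real A * ∫ x, f x ∂(ProbabilityTheory.cond μ A) := by
  have hAt : μ A ≠ ⊤ := measure_ne_top μ A
  have hr : 0 < μ.real A := ENNReal.toReal_pos hA0 hAt
  have hcd : ProbabilityTheory.cond μ A = (μ A)⁻¹ • μ.restrict A := rfl
  rw [hcd, integral_smul_measure, ENNReal.toReal_inv, smul_eq_mul]
  show _ = μ.real A * ((μ.real A)⁻¹ * _)
  field_simp

/-- from a dense family of sets to all sets -/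
theorem all_sets [IsProbabilityMeasure μ] {f : ℕ → X → ℝ} (hf : ∀ j, AEMeasurable (f j) μ)
    {𝒜 : Set (Set X)} (hd : μ.MeasureDense 𝒜) (g : ℝ →ᵇ ℝ) (m : ℝ) (hm : |m| ≤ ‖g‖)
    (h : ∀ A ∈ 𝒜, Tendsto (fun j => ∫ x in A, g (f j x) ∂μ) atTop (𝓝 (μ.real A * m)))
    {A : Set X} (hA : MeasurableSet A) :
    Tendsto (fun j => ∫ x in A, g (f j x) ∂μ) atTop (𝓝 (μ.real A * m)) := by
  have hgi : ∀ j, Integrable (fun x => g (f j x)) μ := fun j =>
    Integrable.of_bound (g.continuous.comp_aestronglyMeasurable (hf j).aestronglyMeasurable) ‖g‖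
      (Eventually.of_forall fun x => g.norm_coe_le_norm _)
  rw [Metric.tendsto_atTop]
  intro ε hε
  set δ : ℝ := ε / (4 * (‖g‖ + 1)) with hδ
  have hδ0 : 0 < δ := by positivity
  obtain ⟨B, hB, hAB⟩ := hd.approx A hA (measure_ne_top μ A) δ hδ0
  have hBm : MeasurableSet B := hd.measurable B hB
  have hAB' : μ.real (symmDiff A B) ≤ δ :=
    ENNReal.toReal_le_of_le_ofReal hδ0.le hAB.le
  obtain ⟨J, hJ⟩ := Metric.tendsto_atTop.1 (h B hB) (ε / 4) (by positivity)
  refine ⟨J, fun j hj => ?_⟩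
  have h1 := hJ j hj
  rw [Real.dist_eq] at h1 ⊢
  have e1 : |∫ x in A, g (f j x) ∂μ - ∫ x in B, g (f j x) ∂μ| ≤ ‖g‖ * δ := by
    rw [← integral_indicator hA, ← integral_indicator hBm,
      ← integral_sub ((hgi j).indicator hA) ((hgi j).indicator hBm)]
    calc |∫ x, (A.indicator (fun x => g (f j x)) x - B.indicator (fun x => g (f j x)) x) ∂μ|
        ≤ ∫ x, (symmDiff A B).indicator (fun _ => ‖g‖) x ∂μ := by
          rw [← Real.norm_eq_abs]
          refine norm_integral_le_of_norm_le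
            ((integrable_const ‖g‖).indicator (hA.symmDiff hBm))
            (Eventually.of_forall fun x => ?_)
          have h2 : ‖g (f j x)‖ ≤ ‖g‖ := g.norm_coe_le_norm _
          by_cases hx : x ∈ A
          · by_cases hy : x ∈ B
            · rw [Set.indicator_of_mem hx, Set.indicator_of_mem hy, sub_self, norm_zero]
              exact Set.indicator_nonneg (fun _ _ => norm_nonneg _) _
            · rw [Set.indicator_of_mem hx, Set.indicator_of_notMem hy, sub_zero,
                Set.indicator_of_mem (Set.mem_symmDiff.2 (Or.inl ⟨hx, hy⟩))]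
              exact h2
          · by_cases hy : x ∈ B
            · rw [Set.indicator_of_notMem hx, Set.indicator_of_mem hy, zero_sub, norm_neg,
                Set.indicator_of_mem (Set.mem_symmDiff.2 (Or.inr ⟨hy, hx⟩))]
              exact h2
            · rw [Set.indicator_of_notMem hx, Set.indicator_of_notMem hy, sub_self, norm_zero]
              exact Set.indicator_nonneg (fun _ _ => norm_nonneg _) _
      _ = μ.real (symmDiff A B) * ‖g‖ := by
          rw [integral_indicator (hA.symmDiff hBm), setIntegral_const, smul_eq_mul]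
      _ ≤ ‖g‖ * δ := by rw [mul_comm]; gcongr
  have e2 : |μ.real A - μ.real B| ≤ δ := by
    have h3 : μ.real A ≤ μ.real B + μ.real (symmDiff A B) := by
      refine (measureReal_mono ?_).trans (measureReal_union_le B (symmDiff A B))
      intro x hx
      by_cases hy : x ∈ B
      · exact Or.inl hy
      · exact Or.inr (Set.mem_symmDiff.2 (Or.inl ⟨hx, hy⟩))
    have h4 : μ.real B ≤ μ.real A + μ.real (symmDiff A B) := by
      refine (measureReal_mono ?_).trans (measureReal_union_le A (symmDiff A B))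
      intro x hx
      by_cases hy : x ∈ A
      · exact Or.inl hy
      · exact Or.inr (Set.mem_symmDiff.2 (Or.inr ⟨hx, hy⟩))
    rw [abs_le]; constructor <;> linarith
  have e3 : ∫ x in A, g (f j x) ∂μ - μ.real A * m =
      (∫ x in A, g (f j x) ∂μ - ∫ x in B, g (f j x) ∂μ) +
      ((∫ x in B, g (f j x) ∂μ - μ.real B * m) + (μ.real B - μ.real A) * m) := by ring
  rw [e3]
  have h5 := abs_add_le (∫ x in A, g (f j x) ∂μ - ∫ x in B, g (f j x) ∂μ)
    ((∫ x in B, g (f j x) ∂μ - μ.real B * m) + (μ.real B - μ.real A) * m)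
  have h6 := abs_add_le (∫ x in B, g (f j x) ∂μ - μ.real B * m) ((μ.real B - μ.real A) * m)
  have h7 : |(μ.real B - μ.real A) * m| ≤ δ * ‖g‖ := by
    rw [abs_mul, abs_sub_comm]; gcongr
  have h8 : ‖g‖ * δ ≤ ε / 4 := by
    rw [hδ]
    have : ‖g‖ * (ε / (4 * (‖g‖ + 1))) = ε / 4 * (‖g‖ / (‖g‖ + 1)) := by field_simp
    rw [this]
    have h9 : ‖g‖ / (‖g‖ + 1) ≤ 1 := by rw [div_le_one (by positivity)]; linarith
    nlinarith
  linarith

/-- **Gaussian value distribution for small perturbations.** -/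
theorem value [IsProbabilityMeasure μ] [MeasurableSpace.CountablyGenerated X] {φ : ℕ → X → ℝ}
    {lam : ℕ → ℝ} {θ σ ε : ℝ}
    (hθ0 : 0 ≤ θ) (hθ1 : θ < 1) (hσ : θ < σ) (hε : 0 < ε) (h : WeylSystem μ φ lam θ) :
    ∃ (k u : ℕ → ℕ → ℝ) (I : ℕ → Finset ℕ) (lam' : ℕ → ℝ), Perturb lam ε σ k u I lam' ∧
      ∀ e : ℕ → ℝ, (∀ j, e j = 1 ∨ e j = -1) → ∀ A : Set X, MeasurableSet A → ∀ g : ℝ →ᵇ ℝ,
        Tendsto (fun j => ∫ x in A, g (e j * ∑ i ∈ I j, u j i * φ i x) ∂μ) atTop
          (𝓝 (μ.real A * ∫ y, g y ∂(gaussianReal 0 1))) := by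
  obtain ⟨κ, C, hκ, hlam⟩ := h.weyl
  have hC0 : 0 ≤ C := by
    have := (abs_nonneg _).trans (hlam 0)
    simpa using this
  obtain ⟨K, hm, hR, -, hsp⟩ := exists_blk h.mono h.nonneg hκ hC0 hθ0 hθ1 hσ hε hlam
  have hobs := obs_value hθ0 h hm hR
  obtain ⟨𝒜, hc, hd⟩ := MeasureTheory.exists_countable_measureDense μ
  have hne : 𝒜.Nonempty := by
    obtain ⟨B, hB, -⟩ := hd.approx Set.univ MeasurableSet.univ (measure_ne_top μ _) 1 one_pos
    exact ⟨B, hB⟩
  obtain ⟨E, hE⟩ := hc.exists_eq_range hne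
  classical
  set ν : ℕ → Measure X := fun r => if μ (E r) = 0 then μ else ProbabilityTheory.cond μ (E r)
    with hν
  have hprob : ∀ r, IsProbabilityMeasure (ν r) := by
    intro r
    simp only [hν]
    split_ifs with h0
    · infer_instance
    · exact ProbabilityTheory.cond_isProbabilityMeasure h0
  have hEm : ∀ r, MeasurableSet (E r) := fun r => hd.measurable _ (by rw [hE]; exact ⟨r, rfl⟩)
  obtain ⟨s, hs⟩ := fields ν K hm (Φ := fun _ _ i => φ i)
    (C := fun r => if μ (E r) = 0 then 1 else (μ.real (E r))⁻¹ * 1) (ρ := fun _ _ => 1) (by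
      intro r
      simp only [hν]
      split_ifs with h0
      · exact hobs
      · exact hobs.cond (hEm r) h0)
  refine ⟨_, _, _, _, perturb h.mono h.nonneg hε (hθ0.trans hσ.le) K hsp s, ?_⟩
  intro e he A hA g
  have hmeas : ∀ j, AEMeasurable (fun x => e j * ∑ i ∈ K.blk (K.num j), U K s j i * φ i x) μ :=
    fun j => (mix_mem hobs s j 0).1.aemeasurable.const_mul _
  have hm' : |∫ y, g y ∂(gaussianReal 0 1)| ≤ ‖g‖ := by
    rw [← Real.norm_eq_abs]
    have := norm_integral_le_of_norm_le_const (μ := gaussianReal 0 1)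
      (Eventually.of_forall fun y => g.norm_coe_le_norm y)
    simpa using this
  refine all_sets hmeas hd g _ hm' (fun B hB => ?_) hA
  rw [hE] at hB
  obtain ⟨r, rfl⟩ := hB
  by_cases h0 : μ (E r) = 0
  · have e1 : μ.real (E r) = 0 := by rw [Measure.real, h0]; rfl
    rw [e1, zero_mul]
    refine tendsto_const_nhds.congr fun j => ?_
    rw [Measure.restrict_eq_zero.2 h0, integral_zero_measure]
  have hνr : ν r = ProbabilityTheory.cond μ (E r) := by simp only [hν]; rw [if_neg h0]
  have hch : ∀ (c : Bool) (t : ℝ), Tendsto (fun j => ∫ x, Real.cos (t *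
      (∑ i ∈ K.blk (K.num j), U K s j i * φ i x) + ph c) ∂(ProbabilityTheory.cond μ (E r))) atTop
      (𝓝 (Real.cos (ph c) * Real.exp (-(t ^ 2 / 2)))) := by
    intro c t
    have h1 := hs r 1 (fun _ => t) c
    simp only [Finset.univ_unique, Finset.sum_singleton, mul_one] at h1
    rw [← sq, hνr] at h1
    exact h1
  have hpr : IsProbabilityMeasure (ProbabilityTheory.cond μ (E r)) :=
    ProbabilityTheory.cond_isProbabilityMeasure h0
  have hmeas' : ∀ j, AEMeasurable (fun x => e j * ∑ i ∈ K.blk (K.num j), U K s j i * φ i x)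
      (ProbabilityTheory.cond μ (E r)) := fun j =>
    (hmeas j).mono_ac ProbabilityTheory.cond_absolutelyContinuous
  have hlevy := levy (μ := ProbabilityTheory.cond μ (E r)) hmeas' (fun t => by
    have h2 := hch false t
    simp only [ph, Bool.false_eq_true, if_false, Real.cos_zero, one_mul, add_zero] at h2
    refine h2.congr fun j => ?_
    refine integral_congr_ae (Eventually.of_forall fun x => ?_)
    show Real.cos (t * ∑ i ∈ K.blk (K.num j), U K s j i * φ i x) =
      Real.cos (t * (e j * ∑ i ∈ K.blk (K.num j), U K s j i * φ i x))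
    rcases he j with h3 | h3
    · rw [h3, one_mul]
    · rw [h3, neg_one_mul, mul_neg, Real.cos_neg]) (fun t => by
    have h2 := hch true t
    simp only [ph, if_true, Real.cos_neg, Real.cos_pi_div_two, zero_mul] at h2
    rw [tendsto_zero_iff_norm_tendsto_zero] at h2 ⊢
    refine h2.congr fun j => ?_
    have e2 : ∫ x, Real.cos (t * (∑ i ∈ K.blk (K.num j), U K s j i * φ i x) + -(Real.pi / 2))
        ∂(ProbabilityTheory.cond μ (E r)) =
        ∫ x, Real.sin (t * (∑ i ∈ K.blk (K.num j), U K s j i * φ i x))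
          ∂(ProbabilityTheory.cond μ (E r)) := by
      refine integral_congr_ae (Eventually.of_forall fun x => ?_)
      show Real.cos (t * (∑ i ∈ K.blk (K.num j), U K s j i * φ i x) + -(Real.pi / 2)) = _
      rw [← sub_eq_add_neg, Real.cos_sub_pi_div_two]
    rw [e2]
    rcases he j with h3 | h3
    · simp only [h3, one_mul]
    · simp only [h3, neg_one_mul, mul_neg, Real.sin_neg]
      rw [integral_neg, norm_neg]) g
  have hfin := hlevy.const_mul (μ.real (E r))
  refine hfin.congr fun j => ?_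
  rw [cond_int h0]

end Pool.Agent.U34.BW
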